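import Mathlib
set_option autoImplicit false

/-!
Definitions: sums of conjugates by powers of a unit, and finite exact complexes with a signed group
action whose extreme terms are trivial.
-/

namespace Pool.Agent.Helper495_PQ

/-- the sum of the conjugates of `x` by the first `n` powers of a unit -/
def TrE {E : Type*} [Ring E] (n : ℕ) (d : Eˣ) (x : E) : E :=
  ∑ i ∈ Finset.range n, ((d ^ i : Eˣ) : E) * x * (((d ^ i)⁻¹ : Eˣ) : E)

/-- A finite based complex with a signed action of the group `P`.  The cells are the elements of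
`I`, graded by `deg` with one cell `bot` in degree `0` and one cell `top` in degree `m + 1`; the
coboundary of `f : I → U` is `i ↦ ∑ l, M i l • f l`; the complex is exact for all coefficients. -/
structure SBC (P : Type) [Group P] where
  I : Type
  fI : Fintype I
  m : ℕ
  deg : I → ℕ
  M : I → I → ℤ
  α : P →* Equiv.Perm I
  s : P → I → ℤ
  bot : I
  top : I
  hm : Even m
  hm0 : m ≠ 0
  deg_bot : ∀ i, deg i = 0 ↔ i = bot
  deg_top : ∀ i, deg i = m + 1 ↔ i = top
  deg_le : ∀ i, deg i ≤ m + 1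
  M_deg : ∀ i j, M i j ≠ 0 → deg i = deg j + 1
  M_sq : ∀ i j, ∑ l, M i l * M l j = 0
  exact : ∀ (U : Type) [AddCommGroup U] (j : ℕ) (f : I → U), (∀ i, deg i ≠ j → f i = 0) →
    (∀ i, ∑ l, M i l • f l = 0) →
    ∃ ψ : I → U, (∀ i, deg i + 1 ≠ j → ψ i = 0) ∧ ∀ i, ∑ l, M i l • ψ l = f i
  s_sq : ∀ g i, s g i * s g i = 1
  s_mul : ∀ g h i, s (g * h) i = s g (α h i) * s h i
  M_act : ∀ g i j, M (α g i) (α g j) * s g j = s g i * M i j
  deg_act : ∀ g i, deg (α g i) = deg i
  s_bot : ∀ g, s g bot = 1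
  s_top : ∀ g, s g top = 1

attribute [instance] SBC.fI

/-- the element `y` moves every cell strictly between the bottom and the top -/
def SBC.Free {P : Type} [Group P] (S : SBC P) (y : P) : Prop :=
  ∀ i, 1 ≤ S.deg i → S.deg i ≤ S.m → S.α y i ≠ i

/-- a solution of the alternating system attached to a complex, a group of units `ρ` and a unit `v`
of order dividing `c` -/
def Zig {P : Type} [Group P] (S : SBC P) {E : Type} [Ring E] (ρ : P →* Eˣ) (v : Eˣ) (c : ℕ)
    (φ : S.I → E) : Prop :=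
  (∀ g i, φ (S.α g i) = S.s g i • ((ρ g : E) * φ i * (((ρ g)⁻¹ : Eˣ) : E))) ∧
  (∑ j, S.M S.top j • φ j = 1) ∧
  (∀ i, 1 ≤ S.deg i → S.deg i ≤ S.m → ∑ j, S.M i j • φ j =
    if Even (S.m - S.deg i) then (v : E) * φ i * ((v⁻¹ : Eˣ) : E) - φ i else TrE c v (φ i))

/-- sign of a permutation on a finite set of a linear order -/
def sgn {Ω : Type} [LinearOrder Ω] (g : Equiv.Perm Ω) (σ : Finset Ω) : ℤ :=
  (-1) ^ ((σ ×ˢ σ).filter (fun q => q.1 < q.2 ∧ g q.2 < g q.1)).card

/-- sign of a face -/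
def eps {Ω : Type} [LinearOrder Ω] (σ : Finset Ω) (y : Ω) : ℤ :=
  (-1) ^ (σ.filter (· < y)).card

/-- incidence numbers of a simplex on a linear order -/
def bd {Ω : Type} [LinearOrder Ω] (σ τ : Finset Ω) : ℤ :=
  ∑ y ∈ σ, if σ.erase y = τ then eps σ y else 0

/-- the finite sets which contain no fibre of `π` -/
def good {Ω B : Type} (π : Ω → B) (σ : Finset Ω) : Prop := ∀ b, ∃ ω, π ω = b ∧ ω ∉ σ

end Pool.Agent.Helper495_PQ
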