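import Mathlib
import Pool.Agent.Helper495_PQ.Defs
set_option autoImplicit false
namespace Pool.Agent.Helper495_PQ

section A1
variable {E : Type*} [Ring E]

theorem TrE_add (n : ℕ) (d : Eˣ) (x y : E) : TrE n d (x + y) = TrE n d x + TrE n d y := by
  simp [TrE, mul_add, add_mul, Finset.sum_add_distrib]

theorem TrE_sub (n : ℕ) (d : Eˣ) (x y : E) : TrE n d (x - y) = TrE n d x - TrE n d y := by
  simp [TrE, mul_sub, sub_mul, Finset.sum_sub_distrib]

theorem TrE_zero (n : ℕ) (d : Eˣ) : TrE n d (0 : E) = 0 := by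
  simp [TrE]

theorem TrE_mul_right (n : ℕ) (d : Eˣ) (x y : E) (h : Commute (d : E) y) :
    TrE n d (x * y) = TrE n d x * y := by
  unfold TrE
  rw [Finset.sum_mul]
  refine Finset.sum_congr rfl fun i _ => ?_
  have h1 : Commute ((d ^ i : Eˣ) : E) y := by
    rw [Units.val_pow_eq_pow_val]; exact h.pow_left i
  have h2 : Commute (((d ^ i)⁻¹ : Eˣ) : E) y := h1.units_inv_left
  rw [mul_assoc _ _ y, h2.eq]
  simp only [mul_assoc]

theorem TrE_mul_left (n : ℕ) (d : Eˣ) (x y : E) (h : Commute (d : E) y) :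
    TrE n d (y * x) = y * TrE n d x := by
  unfold TrE
  rw [Finset.mul_sum]
  refine Finset.sum_congr rfl fun i _ => ?_
  have h1 : Commute ((d ^ i : Eˣ) : E) y := by
    rw [Units.val_pow_eq_pow_val]; exact h.pow_left i
  rw [← mul_assoc, h1.eq]
  simp only [mul_assoc]

theorem TrE_conj (n : ℕ) (d g : Eˣ) (x : E) :
    (g : E) * TrE n d x * ((g⁻¹ : Eˣ) : E) = TrE n (g * d * g⁻¹) ((g : E) * x * ((g⁻¹ : Eˣ) : E)) := by
  unfold TrE
  rw [Finset.mul_sum, Finset.sum_mul]
  refine Finset.sum_congr rfl fun i _ => ?_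
  rw [conj_pow]
  simp only [mul_inv_rev, inv_inv, Units.val_mul, mul_assoc, Units.inv_mul_cancel_left]

theorem TrE_comm (n : ℕ) (d : Eˣ) (hd : d ^ n = 1) (x : E) : Commute (d : E) (TrE n d x) := by
  have h1 : TrE n d x = ∑ i ∈ Finset.range n, ((d ^ (i + 1) : Eˣ) : E) * x *
      (((d ^ (i + 1))⁻¹ : Eˣ) : E) := by
    have e1 := Finset.sum_range_succ' (fun i => ((d ^ i : Eˣ) : E) * x * (((d ^ i)⁻¹ : Eˣ) : E)) n
    have e2 := Finset.sum_range_succ (fun i => ((d ^ i : Eˣ) : E) * x * (((d ^ i)⁻¹ : Eˣ) : E)) n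
    rw [e1, hd, pow_zero] at e2
    exact (add_right_cancel e2).symm
  have h2 : (d : E) * TrE n d x * ((d⁻¹ : Eˣ) : E) = TrE n d x := by
    conv_rhs => rw [h1]
    unfold TrE
    rw [Finset.mul_sum, Finset.sum_mul]
    refine Finset.sum_congr rfl fun i _ => ?_
    rw [pow_succ' d i]
    simp only [mul_inv_rev, Units.val_mul, mul_assoc]
  show (d : E) * TrE n d x = TrE n d x * (d : E)
  conv_rhs => rw [← h2]
  rw [mul_assoc _ _ (d : E), Units.inv_mul, mul_one]

theorem TrE_pow (p : ℕ) (d : Eˣ) (hd : d ^ p = 1) (k : ℕ) (hk : Nat.Coprime k p) (x : E) :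
    TrE p (d ^ k) x = TrE p d x := by
  rcases Nat.eq_zero_or_pos p with hp | hp
  · subst hp; simp [TrE]
  unfold TrE
  have himg : (Finset.range p).image (fun i => (k * i) % p) = Finset.range p := by
    apply Finset.eq_of_subset_of_card_le
    · intro y hy
      obtain ⟨i, _, rfl⟩ := Finset.mem_image.mp hy
      exact Finset.mem_range.mpr (Nat.mod_lt _ hp)
    · rw [Finset.card_image_of_injOn]
      intro i hi j hj hij
      have hi' : i < p := by simpa using hi
      have hj' : j < p := by simpa using hj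
      have h1 : k * i ≡ k * j [MOD p] := hij
      have h2 : i ≡ j [MOD p] := Nat.ModEq.cancel_left_of_coprime (by
        rw [Nat.gcd_comm]; exact hk) h1
      exact Nat.ModEq.eq_of_lt_of_lt h2 hi' hj'
  have hinj : Set.InjOn (fun i => (k * i) % p) (Finset.range p : Set ℕ) := by
    intro i hi j hj hij
    have hi' : i < p := by simpa using hi
    have hj' : j < p := by simpa using hj
    have h1 : k * i ≡ k * j [MOD p] := hij
    have h2 : i ≡ j [MOD p] := Nat.ModEq.cancel_left_of_coprime (by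
      rw [Nat.gcd_comm]; exact hk) h1
    exact Nat.ModEq.eq_of_lt_of_lt h2 hi' hj'
  conv_rhs => rw [← himg]
  rw [Finset.sum_image hinj]
  refine Finset.sum_congr rfl fun i _ => ?_
  rw [← pow_mul, pow_eq_pow_mod (k * i) hd]

theorem TrE_nest (a b : ℕ) (v : Eˣ) (x : E) : TrE a (v ^ b) (TrE b v x) = TrE (a * b) v x := by
  induction a with
  | zero => simp [TrE]
  | succ a ih =>
    have e1 : TrE (a + 1) (v ^ b) (TrE b v x) = TrE a (v ^ b) (TrE b v x) +
        (((v ^ b) ^ a : Eˣ) : E) * TrE b v x * ((((v ^ b) ^ a)⁻¹ : Eˣ) : E) := by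
      conv_lhs => unfold TrE
      rw [Finset.sum_range_succ]
      rfl
    have e2 : TrE ((a + 1) * b) v x = TrE (a * b) v x +
        ∑ j ∈ Finset.range b, ((v ^ (a * b + j) : Eˣ) : E) * x * (((v ^ (a * b + j))⁻¹ : Eˣ) : E) := by
      rw [add_mul, one_mul]
      unfold TrE
      rw [Finset.sum_range_add]
    rw [e1, e2, ih]
    congr 1
    unfold TrE
    rw [Finset.mul_sum, Finset.sum_mul]
    refine Finset.sum_congr rfl fun j _ => ?_
    rw [pow_add, ← pow_mul, mul_comm b a]
    simp only [mul_inv_rev, Units.val_mul, mul_assoc]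

theorem TrE_const (n : ℕ) (d : Eˣ) (x : E) (h : Commute (d : E) x) : TrE n d x = n • x := by
  unfold TrE
  have h0 : ∀ i ∈ Finset.range n, ((d ^ i : Eˣ) : E) * x * (((d ^ i)⁻¹ : Eˣ) : E) = x := by
    intro i _
    have h1 : Commute ((d ^ i : Eˣ) : E) x := by
      rw [Units.val_pow_eq_pow_val]; exact h.pow_left i
    rw [h1.eq, mul_assoc, Units.mul_inv, mul_one]
  rw [Finset.sum_congr rfl h0, Finset.sum_const, Finset.card_range]

end A1

end Pool.Agent.Helper495_PQ
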