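import Mathlib
import Pool.Agent.Helper495_PQ.Defs
set_option autoImplicit false
namespace Pool.Agent.Helper495_PQ

section A1
variable {E : Type*} [Ring E]

end A1

section H877

variable {E : Type} [Ring E]

/-- conjugation by a unit, as an additive map -/
def h877cj (u : Eˣ) : E →+ E where
  toFun x := (u : E) * x * ((u⁻¹ : Eˣ) : E)
  map_zero' := by simp
  map_add' x y := by rw [mul_add, add_mul]

theorem h877cj_apply (u : Eˣ) (x : E) : h877cj u x = (u : E) * x * ((u⁻¹ : Eˣ) : E) := rfl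

theorem h877cj_mul (u w : Eˣ) (x : E) : h877cj (u * w) x = h877cj u (h877cj w x) := by
  simp only [h877cj_apply, Units.val_mul, mul_inv_rev, mul_assoc]

theorem h877cj_one (x : E) : h877cj (1 : Eˣ) x = x := by
  simp [h877cj_apply]

theorem h877cj_map_mul (u : Eˣ) (x y : E) :
    h877cj u (x * y) = h877cj u x * h877cj u y := by
  simp only [h877cj_apply]
  have h : ((u⁻¹ : Eˣ) : E) * (u : E) = 1 := Units.inv_mul u
  calc (u : E) * (x * y) * ((u⁻¹ : Eˣ) : E)
      = (u : E) * x * 1 * y * ((u⁻¹ : Eˣ) : E) := by rw [mul_one]; simp only [mul_assoc]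
    _ = _ := by rw [← h]; simp only [mul_assoc]

theorem h877cj_map_one (u : Eˣ) : h877cj u (1 : E) = 1 := by
  simp [h877cj_apply]

theorem h877cj_comm (u w : Eˣ) (h : Commute u w) (x : E) :
    h877cj u (h877cj w x) = h877cj w (h877cj u x) := by
  rw [← h877cj_mul, ← h877cj_mul, h.eq]

/-- the sum of the conjugates, as an additive map -/
def h877Tr (n : ℕ) (d : Eˣ) : E →+ E := ∑ i ∈ Finset.range n, h877cj (d ^ i)

theorem h877Tr_apply (n : ℕ) (d : Eˣ) (x : E) : h877Tr n d x = TrE n d x := by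
  simp only [h877Tr, AddMonoidHom.finset_sum_apply, TrE]
  rfl

theorem h877Tr_sum (n : ℕ) (d : Eˣ) (x : E) :
    h877Tr n d x = ∑ i ∈ Finset.range n, h877cj (d ^ i) x := by
  simp only [h877Tr, AddMonoidHom.finset_sum_apply]

theorem h877Tr_shift (n : ℕ) (d : Eˣ) (hd : d ^ n = 1) (x : E) :
    ∑ i ∈ Finset.range n, h877cj (d ^ (i + 1)) x = h877Tr n d x := by
  rw [h877Tr_sum]
  have h1 := Finset.sum_range_succ (fun i => h877cj (d ^ i) x) n
  have h2 := Finset.sum_range_succ' (fun i => h877cj (d ^ i) x) n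
  rw [h1, hd, pow_zero] at h2
  exact (add_right_cancel h2).symm

theorem h877cj_Tr (n : ℕ) (d : Eˣ) (hd : d ^ n = 1) (x : E) :
    h877cj d (h877Tr n d x) = h877Tr n d x := by
  conv_lhs => rw [h877Tr_sum, map_sum]
  rw [← h877Tr_shift n d hd x]
  refine Finset.sum_congr rfl fun i _ => ?_
  rw [← h877cj_mul, pow_succ']

theorem h877Tr_cj (n : ℕ) (d : Eˣ) (hd : d ^ n = 1) (x : E) :
    h877Tr n d (h877cj d x) = h877Tr n d x := by
  rw [h877Tr_sum, ← h877Tr_shift n d hd x]
  refine Finset.sum_congr rfl fun i _ => ?_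
  rw [← h877cj_mul, pow_succ]

/-- the operator of the alternating system in parity `e` -/
noncomputable def h877D (c : ℕ) (v : Eˣ) (e : ℕ) : E →+ E :=
  if Even e then h877cj v - AddMonoidHom.id E else h877Tr c v

theorem h877D_even (c : ℕ) (v : Eˣ) {e : ℕ} (he : Even e) (x : E) :
    h877D c v e x = h877cj v x - x := by
  simp [h877D, he]

theorem h877D_odd (c : ℕ) (v : Eˣ) {e : ℕ} (he : ¬ Even e) (x : E) :
    h877D c v e x = h877Tr c v x := by
  simp [h877D, he]

theorem h877D_comp (c : ℕ) (v : Eˣ) (hc : v ^ c = 1) (e : ℕ) (x : E) :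
    h877D c v (e + 1) (h877D c v e x) = 0 := by
  by_cases he : Even e
  · have he' : ¬ Even (e + 1) := by simpa [Nat.even_add_one] using he
    rw [h877D_even c v he, h877D_odd c v he', map_sub, h877Tr_cj c v hc, sub_self]
  · have he' : Even (e + 1) := by simpa [Nat.even_add_one] using he
    rw [h877D_odd c v he, h877D_even c v he', h877cj_Tr c v hc, sub_self]

theorem h877D_cj (c : ℕ) (v : Eˣ) (e : ℕ) (u : Eˣ) (hu : Commute u v) (x : E) :
    h877D c v e (h877cj u x) = h877cj u (h877D c v e x) := by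
  by_cases he : Even e
  · rw [h877D_even c v he, h877D_even c v he, map_sub, h877cj_comm u v hu]
  · rw [h877D_odd c v he, h877D_odd c v he, h877Tr_sum, h877Tr_sum, map_sum]
    refine Finset.sum_congr rfl fun i _ => ?_
    rw [h877cj_comm u (v ^ i) (hu.pow_right i)]

variable {P : Type} [Group P] (S : SBC P)

/-- equivariant functions on the cells -/
def h877Eqv (ρ : P →* Eˣ) (f : S.I → E) : Prop :=
  ∀ g i, f (S.α g i) = S.s g i • h877cj (ρ g) (f i)

/-- the coboundary -/
def h877del (f : S.I → E) (i : S.I) : E := ∑ l, S.M i l • f l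

theorem h877_inv_left (g : P) (i : S.I) : S.α g⁻¹ (S.α g i) = i := by
  rw [← Equiv.Perm.mul_apply, ← map_mul, inv_mul_cancel, map_one, Equiv.Perm.one_apply]

theorem h877_inv_right (g : P) (i : S.I) : S.α g (S.α g⁻¹ i) = i := by
  rw [← Equiv.Perm.mul_apply, ← map_mul, mul_inv_cancel, map_one, Equiv.Perm.one_apply]

theorem h877_deg_act (g : P) (i : S.I) : S.deg (S.α g i) = S.deg i := S.deg_act g i

/-- an additive map commutes with the coboundary -/
theorem h877del_map (D : E →+ E) (f : S.I → E) (i : S.I) :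
    h877del S (fun l => D (f l)) i = D (h877del S f i) := by
  simp only [h877del, map_sum, map_zsmul]

/-- averaging -/
theorem h877_avg [Fintype P] (ρ : P →* Eˣ) (β : E)
    (hβ : ∑ g : P, h877cj (ρ g) β = 1) (j : ℕ) (f : S.I → E) (hf : h877Eqv S ρ f)
    (hsupp : ∀ i, S.deg i ≠ j → f i = 0) (hdel : ∀ i, h877del S f i = 0) :
    ∃ h : S.I → E, h877Eqv S ρ h ∧ (∀ i, S.deg i + 1 ≠ j → h i = 0) ∧
      ∀ i, h877del S h i = f i := by
  obtain ⟨ψ, hψs, hψ⟩ := S.exact E j f hsupp hdel
  refine ⟨fun i => ∑ g : P, S.s g (S.α g⁻¹ i) • h877cj (ρ g) (β * ψ (S.α g⁻¹ i)), ?_, ?_, ?_⟩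
  · intro k i
    beta_reduce
    rw [← Equiv.sum_comp (Equiv.mulLeft k)
      (fun g => S.s g (S.α g⁻¹ (S.α k i)) • h877cj (ρ g) (β * ψ (S.α g⁻¹ (S.α k i))))]
    rw [map_sum, Finset.smul_sum]
    refine Finset.sum_congr rfl fun g _ => ?_
    have h1 : S.α (k * g)⁻¹ (S.α k i) = S.α g⁻¹ i := by
      rw [mul_inv_rev, map_mul, Equiv.Perm.mul_apply, h877_inv_left]
    simp only [Equiv.coe_mulLeft]
    rw [h1, S.s_mul, h877_inv_right, MonoidHom.map_mul ρ, h877cj_mul, map_zsmul, mul_smul]
  · intro i hi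
    refine Finset.sum_eq_zero fun g _ => ?_
    rw [hψs (S.α g⁻¹ i) (by rw [S.deg_act]; exact hi), mul_zero, map_zero, smul_zero]
  · intro i
    have step1 : h877del S (fun i => ∑ g : P, S.s g (S.α g⁻¹ i) •
        h877cj (ρ g) (β * ψ (S.α g⁻¹ i))) i =
        ∑ g : P, ∑ l, S.M i l • (S.s g (S.α g⁻¹ l) • h877cj (ρ g) (β * ψ (S.α g⁻¹ l))) := by
      simp only [h877del, Finset.smul_sum]
      rw [Finset.sum_comm]
    rw [step1]
    have step2 : ∀ g : P,
        ∑ l, S.M i l • (S.s g (S.α g⁻¹ l) • h877cj (ρ g) (β * ψ (S.α g⁻¹ l))) =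
        h877cj (ρ g) β * f i := by
      intro g
      rw [← Equiv.sum_comp (S.α g)
        (fun l => S.M i l • (S.s g (S.α g⁻¹ l) • h877cj (ρ g) (β * ψ (S.α g⁻¹ l))))]
      have hi : f i = S.s g (S.α g⁻¹ i) • h877cj (ρ g) (f (S.α g⁻¹ i)) := by
        have := hf g (S.α g⁻¹ i)
        rwa [h877_inv_right] at this
      have h2 : ∀ l, S.M i (S.α g l) • (S.s g (S.α g⁻¹ (S.α g l)) •
          h877cj (ρ g) (β * ψ (S.α g⁻¹ (S.α g l)))) =
          S.s g (S.α g⁻¹ i) • h877cj (ρ g) (β * (S.M (S.α g⁻¹ i) l • ψ l)) := by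
        intro l
        have h3 := S.M_act g (S.α g⁻¹ i) l
        rw [h877_inv_right] at h3
        rw [h877_inv_left, smul_smul, h3, mul_smul_comm, map_zsmul, smul_smul]
      rw [Finset.sum_congr rfl (fun l _ => h2 l), ← Finset.smul_sum, ← map_sum,
        ← Finset.mul_sum, hψ (S.α g⁻¹ i), h877cj_map_mul, hi, mul_smul_comm]
    rw [Finset.sum_congr rfl (fun g _ => step2 g), ← Finset.sum_mul, hβ, one_mul]

theorem h877D_eqv (ρ : P →* Eˣ) (v : Eˣ) (hv : ∀ g, Commute (ρ g) v) (c e : ℕ)
    (f : S.I → E) (hf : h877Eqv S ρ f) : h877Eqv S ρ (fun i => h877D c v e (f i)) := by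
  intro g i
  change h877D c v e (f (S.α g i)) = S.s g i • h877cj (ρ g) (h877D c v e (f i))
  rw [hf g i, map_zsmul, h877D_cj c v e (ρ g) (hv g)]

/-- the functions of the construction in degree `m - k` -/
def h877Good (ρ : P →* Eˣ) (v : Eˣ) (c k : ℕ) (f : S.I → E) : Prop :=
  h877Eqv S ρ f ∧ (∀ i, S.deg i ≠ S.m - k → f i = 0) ∧
    ∀ i, h877del S (fun l => h877D c v k (f l)) i = 0

open Classical in
/-- the function which is one at the top cell -/
noncomputable def h877top : S.I → E := fun i => if i = S.top then 1 else 0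

theorem h877_act_top (g : P) : S.α g S.top = S.top := by
  rw [← S.deg_top, S.deg_act]
  exact (S.deg_top S.top).mpr rfl

theorem h877_start [Fintype P] (ρ : P →* Eˣ) (v : Eˣ) (c : ℕ) (β : E)
    (hβ : ∑ g : P, h877cj (ρ g) β = 1) :
    ∃ f : S.I → E, h877Good S ρ v c 0 f ∧ ∀ i, h877del S f i = h877top S i := by
  classical
  have heq : h877Eqv S ρ (h877top S : S.I → E) := by
    intro g i
    unfold h877top
    by_cases hi : i = S.top
    · subst hi
      rw [h877_act_top, if_pos rfl, S.s_top, one_smul, h877cj_map_one]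
    · have h1 : S.α g i ≠ S.top := by
        intro h
        apply hi
        rw [← h877_act_top S g] at h
        exact (S.α g).injective h
      rw [if_neg h1, if_neg hi, map_zero, smul_zero]
  have hsupp : ∀ i, S.deg i ≠ S.m + 1 → (h877top S : S.I → E) i = 0 := by
    intro i hi
    unfold h877top
    rw [if_neg]
    intro h
    exact hi ((S.deg_top i).mpr h)
  have hdel : ∀ i, h877del S (h877top S : S.I → E) i = 0 := by
    intro i
    unfold h877del
    refine Finset.sum_eq_zero fun l _ => ?_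
    by_cases hl : l = S.top
    · subst hl
      have : S.M i S.top = 0 := by
        by_contra h
        have h1 := S.M_deg i S.top h
        have h2 := (S.deg_top S.top).mpr rfl
        have h3 := S.deg_le i
        omega
      rw [this, zero_smul]
    · have : (h877top S : S.I → E) l = 0 := by unfold h877top; rw [if_neg hl]
      rw [this, smul_zero]
  obtain ⟨f, hf1, hf2, hf3⟩ := h877_avg S ρ β hβ (S.m + 1) (h877top S) heq hsupp hdel
  refine ⟨f, ⟨hf1, fun i hi => hf2 i (by omega), fun i => ?_⟩, hf3⟩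
  rw [h877del_map, hf3, h877D_even c v Even.zero]
  unfold h877top
  split_ifs
  · rw [h877cj_map_one, sub_self]
  · rw [map_zero, sub_self]

theorem h877_step [Fintype P] (ρ : P →* Eˣ) (v : Eˣ) (hv : ∀ g, Commute (ρ g) v) (c : ℕ)
    (hc : v ^ c = 1) (β : E) (hβ : ∑ g : P, h877cj (ρ g) β = 1) (k : ℕ) (hk : k < S.m)
    (f : S.I → E) (hf : h877Good S ρ v c k f) :
    ∃ f' : S.I → E, h877Good S ρ v c (k + 1) f' ∧
      ∀ i, h877del S f' i = h877D c v k (f i) := by
  obtain ⟨h1, h2, h3⟩ := hf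
  obtain ⟨f', hf1, hf2, hf3⟩ := h877_avg S ρ β hβ (S.m - k) (fun i => h877D c v k (f i))
    (h877D_eqv S ρ v hv c k f h1) (fun i hi => by
      change h877D c v k (f i) = 0
      rw [h2 i hi, map_zero]) h3
  refine ⟨f', ⟨hf1, fun i hi => hf2 i (by omega), fun i => ?_⟩, hf3⟩
  rw [h877del_map, hf3]
  exact h877D_comp c v hc k (f i)

theorem h877_seq [Fintype P] (ρ : P →* Eˣ) (v : Eˣ) (hv : ∀ g, Commute (ρ g) v) (c : ℕ)
    (hc : v ^ c = 1) (β : E) (hβ : ∑ g : P, h877cj (ρ g) β = 1) :
    ∀ n ≤ S.m, ∃ F : ℕ → S.I → E, (∀ k ≤ n, h877Good S ρ v c k (F k)) ∧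
      (∀ i, h877del S (F 0) i = h877top S i) ∧
      ∀ k < n, ∀ i, h877del S (F (k + 1)) i = h877D c v k (F k i) := by
  intro n
  induction n with
  | zero =>
    intro _
    obtain ⟨f, hf1, hf2⟩ := h877_start S ρ v c β hβ
    refine ⟨fun _ => f, fun k hk => ?_, hf2, fun k hk => absurd hk (Nat.not_lt_zero k)⟩
    obtain rfl : k = 0 := by omega
    exact hf1
  | succ n ih =>
    intro hn
    obtain ⟨F, hF1, hF2, hF3⟩ := ih (by omega)
    obtain ⟨f', hf1, hf2⟩ := h877_step S ρ v hv c hc β hβ n (by omega) (F n) (hF1 n le_rfl)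
    refine ⟨Function.update F (n + 1) f', fun k hk => ?_, ?_, fun k hk => ?_⟩
    · by_cases h : k = n + 1
      · subst h
        rw [Function.update_self]
        exact hf1
      · rw [Function.update_of_ne h]
        exact hF1 k (by omega)
    · rw [Function.update_of_ne (by omega)]
      exact hF2
    · by_cases h : k = n
      · subst h
        rw [Function.update_self, Function.update_of_ne (by omega)]
        exact hf2
      · rw [Function.update_of_ne (by omega), Function.update_of_ne (by omega)]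
        exact hF3 k (by omega)

end H877

theorem zig_exists {P : Type} [Group P] [Fintype P] (S : SBC P) {E : Type} [Ring E]
    (ρ : P →* Eˣ) (v : Eˣ) (hv : ∀ g, Commute (ρ g) v) (c : ℕ) (hc : v ^ c = 1) (β : E)
    (hβ : ∑ g : P, (ρ g : E) * β * (((ρ g)⁻¹ : Eˣ) : E) = 1) : ∃ φ : S.I → E, Zig S ρ v c φ := by
  obtain ⟨F, hF1, hF2, hF3⟩ := h877_seq S ρ v hv c hc β hβ S.m le_rfl
  refine ⟨fun i => if S.deg i ≤ S.m then F (S.m - S.deg i) i else 0, ?_, ?_, ?_⟩
  · intro g i
    change (if S.deg (S.α g i) ≤ S.m then F (S.m - S.deg (S.α g i)) (S.α g i) else 0) =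
      S.s g i • h877cj (ρ g) (if S.deg i ≤ S.m then F (S.m - S.deg i) i else 0)
    rw [S.deg_act]
    split_ifs with h
    · exact (hF1 (S.m - S.deg i) (by omega)).1 g i
    · rw [map_zero, smul_zero]
  · have h1 := hF2 S.top
    have h2 : (h877top S : S.I → E) S.top = 1 := by unfold h877top; rw [if_pos rfl]
    rw [h2] at h1
    rw [← h1]
    unfold h877del
    refine Finset.sum_congr rfl fun j _ => ?_
    by_cases hM : S.M S.top j = 0
    · rw [hM, zero_smul, zero_smul]
    · have h3 := S.M_deg S.top j hM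
      have h4 := (S.deg_top S.top).mpr rfl
      have h5 : S.deg j = S.m := by omega
      beta_reduce
      rw [h5, if_pos le_rfl, Nat.sub_self]
  · intro i hi1 hi2
    have h1 : ∑ j, S.M i j • (if S.deg j ≤ S.m then F (S.m - S.deg j) j else 0) =
        h877del S (F (S.m - S.deg i + 1)) i := by
      unfold h877del
      refine Finset.sum_congr rfl fun j _ => ?_
      by_cases hM : S.M i j = 0
      · rw [hM, zero_smul, zero_smul]
      · have h3 := S.M_deg i j hM
        have h5 : S.m - S.deg j = S.m - S.deg i + 1 := by omega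
        rw [if_pos (by omega), h5]
    rw [h1, hF3 (S.m - S.deg i) (by omega) i]
    simp only [if_pos hi2]
    split_ifs with he
    · rw [h877D_even c v he]
      rfl
    · rw [h877D_odd c v he, h877Tr_apply]

end Pool.Agent.Helper495_PQ
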