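import Mathlib
import Pool.Agent.Helper495_PQ.Defs
import Pool.Agent.Helper495_PQ.PA1
set_option autoImplicit false
namespace Pool.Agent.Helper495_PQ

section A1
variable {E : Type*} [Ring E]

end A1

section ZC404

theorem zc404_mul_apply {A : Type*} [AddCommGroup A] (f g : AddMonoid.End A) (x : A) : (f * g) x = f (g x) := rfl

theorem zc404_pow_apply_fix {A : Type*} [AddCommGroup A] (T : AddMonoid.End A) (x : A) (hx : T x = x) (k : ℕ) :
    (T ^ k) x = x := by
  induction k with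
  | zero => simp
  | succ k ih => rw [pow_succ, zc404_mul_apply, hx, ih]

theorem zc404_pow_comm {A : Type*} [AddCommGroup A] (T D : AddMonoid.End A) (hTD : ∀ x, T (D x) = D (T x)) (k : ℕ)
    (x : A) : (T ^ k) (D x) = D ((T ^ k) x) := by
  induction k generalizing x with
  | zero => simp
  | succ k ih => rw [pow_succ, zc404_mul_apply, hTD, ih, zc404_mul_apply]

theorem zc404_H0 {A : Type*} [AddCommGroup A] (T e D : AddMonoid.End A) (p : ℕ)
    (hDD : ∀ x, D (D x) = D x) (hTD : ∀ x, T (D x) = D (T x)) (x : A) (hDx : D x = x)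
    (hsum : ∑ k ∈ Finset.range p, (T ^ k) (e ((T ^ (p - k)) x)) = x) (hx : T x = x) :
    ∃ z, D z = z ∧ x = ∑ k ∈ Finset.range p, (T ^ k) z := by
  refine ⟨D (e x), hDD _, ?_⟩
  have h1 : ∑ k ∈ Finset.range p, (T ^ k) (D (e x)) = D (∑ k ∈ Finset.range p, (T ^ k) (e ((T ^ (p - k)) x))) := by
    rw [map_sum]
    refine Finset.sum_congr rfl fun k _ => ?_
    rw [zc404_pow_comm T D hTD, zc404_pow_apply_fix T x hx]
  rw [h1, hsum, hDx]

theorem zc404_telescope {A : Type*} [AddCommGroup A] (T : AddMonoid.End A) (a : A) (k : ℕ) :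
    T (∑ j ∈ Finset.range k, (T ^ j) a) - ∑ j ∈ Finset.range k, (T ^ j) a = (T ^ k) a - a := by
  induction k with
  | zero => simp
  | succ k ih =>
    rw [Finset.sum_range_succ, map_add]
    have h2 : T ((T ^ k) a) = (T ^ (k + 1)) a := by rw [pow_succ', zc404_mul_apply]
    rw [h2]
    have h3 := ih
    rw [sub_eq_iff_eq_add] at h3
    rw [h3]
    abel

theorem zc404_H1 {A : Type*} [AddCommGroup A] (T e D : AddMonoid.End A) (p : ℕ)
    (hDD : ∀ x, D (D x) = D x) (hTD : ∀ x, T (D x) = D (T x)) (x : A) (hDx : D x = x)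
    (hsum : ∑ k ∈ Finset.range p, (T ^ k) (e ((T ^ (p - k)) x)) = x)
    (hx : ∑ k ∈ Finset.range p, (T ^ k) x = 0) :
    ∃ z, D z = z ∧ x = T z - z := by
  refine ⟨D (∑ k ∈ Finset.range p, ∑ j ∈ Finset.range k, (T ^ j) (e ((T ^ (p - k)) x))), hDD _, ?_⟩
  rw [hTD, ← map_sub]
  have h1 : T (∑ k ∈ Finset.range p, ∑ j ∈ Finset.range k, (T ^ j) (e ((T ^ (p - k)) x)))
      - ∑ k ∈ Finset.range p, ∑ j ∈ Finset.range k, (T ^ j) (e ((T ^ (p - k)) x))
      = ∑ k ∈ Finset.range p, ((T ^ k) (e ((T ^ (p - k)) x)) - e ((T ^ (p - k)) x)) := by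
    rw [map_sum, ← Finset.sum_sub_distrib]
    exact Finset.sum_congr rfl fun k _ => zc404_telescope T _ k
  rw [h1, Finset.sum_sub_distrib, hsum]
  have h2 : ∑ k ∈ Finset.range p, e ((T ^ (p - k)) x) = 0 := by
    rw [← map_sum]
    have h3 : ∑ k ∈ Finset.range p, (T ^ (p - k)) x = ∑ k ∈ Finset.range p, (T ^ (k + 1)) x := by
      rw [← Finset.sum_range_reflect]
      refine Finset.sum_congr rfl fun k hk => ?_
      have hk' := Finset.mem_range.1 hk
      congr 2
      omega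
    rw [h3]
    have h4 : ∑ k ∈ Finset.range p, (T ^ (k + 1)) x = T (∑ k ∈ Finset.range p, (T ^ k) x) := by
      rw [map_sum]
      refine Finset.sum_congr rfl fun k _ => ?_
      rw [pow_succ', zc404_mul_apply]
    rw [h4, hx, map_zero, map_zero]
  rw [h2, sub_zero, hDx]

variable {P : Type} [Group P] (S : SBC P) {E : Type} [Ring E]

theorem zc404_s_one (i : S.I) : S.s 1 i = 1 := by
  have h1 := S.s_mul 1 1 i
  rw [map_one, Equiv.Perm.coe_one, id, mul_one, S.s_sq] at h1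
  exact h1

/-- the twisted translation operator -/
def zc404_T (y : P) (d : Eˣ) : AddMonoid.End (S.I → E) where
  toFun χ := fun i => S.s y (S.α y⁻¹ i) • ((d : E) * χ (S.α y⁻¹ i) * ((d⁻¹ : Eˣ) : E))
  map_zero' := by ext i; simp
  map_add' a b := by ext i; simp [mul_add, add_mul]

theorem zc404_T_apply (y : P) (d : Eˣ) (χ : S.I → E) (i : S.I) :
    zc404_T S y d χ i = S.s y (S.α y⁻¹ i) • ((d : E) * χ (S.α y⁻¹ i) * ((d⁻¹ : Eˣ) : E)) := rfl

theorem zc404_T_pow (y : P) (d : Eˣ) (k : ℕ) (χ : S.I → E) (i : S.I) :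
    (zc404_T S y d ^ k) χ i = S.s (y ^ k) (S.α (y ^ k)⁻¹ i) •
      (((d ^ k : Eˣ) : E) * χ (S.α (y ^ k)⁻¹ i) * (((d ^ k)⁻¹ : Eˣ) : E)) := by
  induction k generalizing i with
  | zero =>
    simp [zc404_s_one]
  | succ k ih =>
    rw [pow_succ', zc404_mul_apply, zc404_T_apply, ih]
    have h1 : S.α (y ^ (k + 1))⁻¹ i = S.α (y ^ k)⁻¹ (S.α y⁻¹ i) := by
      rw [pow_succ', mul_inv_rev, map_mul, Equiv.Perm.mul_apply]
    have h2 : S.s (y ^ (k + 1)) (S.α (y ^ k)⁻¹ (S.α y⁻¹ i)) =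
        S.s y (S.α y⁻¹ i) * S.s (y ^ k) (S.α (y ^ k)⁻¹ (S.α y⁻¹ i)) := by
      rw [pow_succ', S.s_mul]
      congr 2
      rw [← Equiv.Perm.mul_apply (S.α (y ^ k)), ← map_mul, mul_inv_cancel, map_one, Equiv.Perm.coe_one, id]
    rw [h1, h2, mul_smul]
    congr 1
    rw [mul_smul_comm, smul_mul_assoc]
    congr 1
    rw [pow_succ', mul_inv_rev]
    simp only [Units.val_mul, mul_assoc]

theorem zc404_T_pow_p (y : P) (d : Eˣ) (p : ℕ) (hy : y ^ p = 1) (hd : d ^ p = 1) : zc404_T S y d ^ p = (1 : AddMonoid.End (S.I → E)) := by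
  ext χ i
  rw [zc404_T_pow, hy, hd]
  simp [zc404_s_one]

/-- restriction to one degree -/
def zc404_D (E : Type) [Ring E] (j : ℕ) : AddMonoid.End (S.I → E) where
  toFun χ := fun i => if S.deg i = j then χ i else 0
  map_zero' := by ext i; simp
  map_add' a b := by
    ext i
    by_cases h : S.deg i = j <;> simp [h]

theorem zc404_D_apply (j : ℕ) (χ : S.I → E) (i : S.I) :
    zc404_D S E j χ i = if S.deg i = j then χ i else 0 := rfl

theorem zc404_DD (j : ℕ) (χ : S.I → E) : zc404_D S E j (zc404_D S E j χ) = zc404_D S E j χ := by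
  ext i
  rw [zc404_D_apply, zc404_D_apply]
  split_ifs <;> rfl

theorem zc404_TD (y : P) (d : Eˣ) (j : ℕ) (χ : S.I → E) :
    zc404_T S y d (zc404_D S E j χ) = zc404_D S E j (zc404_T S y d χ) := by
  ext i
  rw [zc404_T_apply, zc404_D_apply, zc404_D_apply, zc404_T_apply, S.deg_act]
  split_ifs with h
  · rfl
  · simp

/-- the coboundary -/
def zc404_δ (E : Type) [Ring E] : AddMonoid.End (S.I → E) where
  toFun χ := fun i => ∑ l, S.M i l • χ l
  map_zero' := by ext i; simp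
  map_add' a b := by
    ext i
    simp [smul_add, Finset.sum_add_distrib]

theorem zc404_δ_apply (χ : S.I → E) (i : S.I) : zc404_δ S E χ i = ∑ l, S.M i l • χ l := rfl

theorem zc404_δδ (χ : S.I → E) : zc404_δ S E (zc404_δ S E χ) = 0 := by
  ext i
  rw [zc404_δ_apply]
  simp only [zc404_δ_apply, Finset.smul_sum, smul_smul]
  rw [Finset.sum_comm]
  have h1 : ∀ l, ∑ j, (S.M i j * S.M j l) • χ l = 0 := by
    intro l
    rw [← Finset.sum_smul, S.M_sq, zero_smul]
  exact Finset.sum_eq_zero fun l _ => h1 l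

theorem zc404_δD (j : ℕ) (χ : S.I → E) :
    zc404_δ S E (zc404_D S E j χ) = zc404_D S E (j + 1) (zc404_δ S E χ) := by
  ext i
  rw [zc404_δ_apply, zc404_D_apply, zc404_δ_apply]
  split_ifs with h
  · refine Finset.sum_congr rfl fun l _ => ?_
    rw [zc404_D_apply]
    by_cases hM : S.M i l = 0
    · rw [hM, zero_smul, zero_smul]
    · have h2 := S.M_deg i l hM
      rw [if_pos (by omega)]
  · refine Finset.sum_eq_zero fun l _ => ?_
    rw [zc404_D_apply]
    by_cases hM : S.M i l = 0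
    · rw [hM, zero_smul]
    · have h2 := S.M_deg i l hM
      rw [if_neg (by omega), smul_zero]

theorem zc404_Tδ (y : P) (d : Eˣ) (χ : S.I → E) :
    zc404_T S y d (zc404_δ S E χ) = zc404_δ S E (zc404_T S y d χ) := by
  ext i
  rw [zc404_T_apply, zc404_δ_apply, zc404_δ_apply]
  simp only [zc404_T_apply]
  rw [Finset.mul_sum, Finset.sum_mul, Finset.smul_sum]
  rw [← Equiv.sum_comp (S.α y) (fun l => S.M i l • S.s y (S.α y⁻¹ l) • ((d : E) * χ (S.α y⁻¹ l) * ((d⁻¹ : Eˣ) : E)))]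
  refine Finset.sum_congr rfl fun l _ => ?_
  have h0 : S.α y⁻¹ (S.α y l) = l := by
    rw [← Equiv.Perm.mul_apply, ← map_mul, inv_mul_cancel, map_one, Equiv.Perm.coe_one, id]
  have h1 : S.α y (S.α y⁻¹ i) = i := by
    rw [← Equiv.Perm.mul_apply, ← map_mul, mul_inv_cancel, map_one, Equiv.Perm.coe_one, id]
  have h2 := S.M_act y (S.α y⁻¹ i) l
  rw [h1] at h2
  rw [h0, mul_smul_comm, smul_mul_assoc, smul_smul, smul_smul]
  rw [← h2]

end ZC404

section ZC404b

variable {P : Type} [Group P] (S : SBC P) {E : Type} [Ring E]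

/-- a representative of the cycle of a cell -/
noncomputable def zc404_r (y : P) (i : S.I) : S.I :=
  (Quotient.mk (Equiv.Perm.SameCycle.setoid (S.α y)) i).out

theorem zc404_r_eq (y : P) (i j : S.I) (h : Equiv.Perm.SameCycle (S.α y) i j) :
    zc404_r S y i = zc404_r S y j := by
  unfold zc404_r
  congr 1
  exact Quotient.sound h

theorem zc404_r_rel (y : P) (i : S.I) : Equiv.Perm.SameCycle (S.α y) (zc404_r S y i) i :=
  @Quotient.mk_out _ (Equiv.Perm.SameCycle.setoid (S.α y)) i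

open Classical in
/-- restriction to the representatives -/
noncomputable def zc404_e (E : Type) [Ring E] (y : P) : AddMonoid.End (S.I → E) where
  toFun χ := fun i => if zc404_r S y i = i then χ i else 0
  map_zero' := by ext i; simp
  map_add' a b := by
    ext i
    by_cases h : zc404_r S y i = i <;> simp [h]

open Classical in
theorem zc404_e_apply (y : P) (χ : S.I → E) (i : S.I) :
    zc404_e S E y χ i = if zc404_r S y i = i then χ i else 0 := rfl

theorem zc404_alpha_inv (y : P) (k : ℕ) : S.α (y ^ k)⁻¹ = ((S.α y) ^ k)⁻¹ := by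
  rw [map_inv, map_pow]

theorem zc404_exists_k (y : P) (p : ℕ) (hp : 0 < p) (hy : y ^ p = 1) (i : S.I) :
    ∃ k, k < p ∧ S.α (y ^ k)⁻¹ i = zc404_r S y i := by
  obtain ⟨n, hn⟩ := zc404_r_rel S y i
  have hp' : (0 : ℤ) < p := by exact_mod_cast hp
  refine ⟨(n % p).toNat, ?_, ?_⟩
  · have h1 := Int.emod_lt_of_pos n hp'
    have h2 := Int.emod_nonneg n hp'.ne'
    omega
  · rw [zc404_alpha_inv]
    have h2 := Int.emod_nonneg n hp'.ne'
    have hfp : (S.α y) ^ p = 1 := by rw [← map_pow, hy, map_one]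
    have h3 : (S.α y) ^ n = (S.α y) ^ (n % p).toNat := by
      have h4 : (S.α y) ^ n = (S.α y) ^ ((p : ℤ) * (n / p) + n % p) := by
        rw [Int.mul_ediv_add_emod]
      rw [h4, zpow_add, zpow_mul, zpow_natCast, hfp, one_zpow, one_mul]
      conv_lhs => rw [← Int.toNat_of_nonneg h2]
      rw [zpow_natCast]
    rw [h3] at hn
    rw [Equiv.Perm.inv_eq_iff_eq, hn]

theorem zc404_unique_k (y : P) (p : ℕ) (hp : p.Prime) (hy : y ^ p = 1) (i : S.I) (hi : S.α y i ≠ i)
    (k l : ℕ) (hkl : k < l) (hl : l < p) : S.α (y ^ k)⁻¹ i ≠ S.α (y ^ l)⁻¹ i := by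
  intro h
  apply hi
  have hfp : (S.α y) ^ p = 1 := by rw [← map_pow, hy, map_one]
  rw [zc404_alpha_inv, zc404_alpha_inv] at h
  have h1 : ((S.α y) ^ (l - k)) i = i := by
    have h2 : ((S.α y) ^ l) (((S.α y) ^ k)⁻¹ i) = i := by
      rw [h, ← Equiv.Perm.mul_apply, mul_inv_cancel, Equiv.Perm.coe_one, id]
    have h3 : (S.α y) ^ l = (S.α y) ^ (l - k) * (S.α y) ^ k := by
      rw [← pow_add]; congr 1; omega
    rw [h3, Equiv.Perm.mul_apply, ← Equiv.Perm.mul_apply ((S.α y) ^ k), mul_inv_cancel, Equiv.Perm.coe_one, id] at h2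
    exact h2
  have h4 : Function.IsPeriodicPt (S.α y) (l - k) i := by
    unfold Function.IsPeriodicPt Function.IsFixedPt
    rw [Equiv.Perm.iterate_eq_pow]
    exact h1
  have h5 : Function.IsPeriodicPt (S.α y) p i := by
    unfold Function.IsPeriodicPt Function.IsFixedPt
    rw [Equiv.Perm.iterate_eq_pow, hfp, Equiv.Perm.coe_one, id]
  have h6 := h4.gcd h5
  have h7 : Nat.gcd (l - k) p = 1 := by
    have : Nat.Coprime (l - k) p := by
      apply Nat.Coprime.symm
      rw [Nat.Prime.coprime_iff_not_dvd hp]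
      intro h8
      have := Nat.le_of_dvd (by omega) h8
      omega
    exact this
  rw [h7] at h6
  exact h6

theorem zc404_hsum (y : P) (d : Eˣ) (p : ℕ) (hp : p.Prime) (hy : y ^ p = 1) (hd : d ^ p = 1)
    (hfree : S.Free y) (j : ℕ) (hj1 : 1 ≤ j) (hjm : j ≤ S.m) (χ : S.I → E)
    (hχ : zc404_D S E j χ = χ) :
    ∑ k ∈ Finset.range p, (zc404_T S y d ^ k) (zc404_e S E y ((zc404_T S y d ^ (p - k)) χ)) = χ := by
  classical
  ext i
  rw [Finset.sum_apply]
  have h1 : ∀ k ∈ Finset.range p, ((zc404_T S y d ^ k) (zc404_e S E y ((zc404_T S y d ^ (p - k)) χ))) i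
      = if S.α (y ^ k)⁻¹ i = zc404_r S y i then χ i else 0 := by
    intro k hk
    have hk' := Finset.mem_range.1 hk
    have h2 : ((zc404_T S y d ^ k) ((zc404_T S y d ^ (p - k)) χ)) i = χ i := by
      rw [← zc404_mul_apply, ← pow_add, Nat.add_sub_cancel' hk'.le, zc404_T_pow_p S y d p hy hd]
      rfl
    have h3 : zc404_r S y (S.α (y ^ k)⁻¹ i) = zc404_r S y i := by
      apply zc404_r_eq
      rw [zc404_alpha_inv]
      refine ⟨k, ?_⟩
      rw [zpow_natCast, ← Equiv.Perm.mul_apply, mul_inv_cancel, Equiv.Perm.coe_one, id]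
    rw [zc404_T_pow, zc404_e_apply, h3]
    by_cases h4 : S.α (y ^ k)⁻¹ i = zc404_r S y i
    · rw [if_pos h4.symm, if_pos h4, ← zc404_T_pow, h2]
    · rw [if_neg (fun h => h4 h.symm), if_neg h4]
      simp
  rw [Finset.sum_congr rfl h1]
  by_cases hi : S.deg i = j
  · obtain ⟨k0, hk0, hk0'⟩ := zc404_exists_k S y p hp.pos hy i
    have hfi : S.α y i ≠ i := hfree i (by omega) (by omega)
    rw [Finset.sum_eq_single k0]
    · rw [if_pos hk0']
    · intro k hk hkk
      have hk' := Finset.mem_range.1 hk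
      rw [if_neg]
      intro h5
      rcases lt_or_gt_of_ne hkk with h6 | h6
      · exact zc404_unique_k S y p hp hy i hfi k k0 h6 hk0 (by rw [h5, hk0'])
      · exact zc404_unique_k S y p hp hy i hfi k0 k h6 hk' (by rw [h5, hk0'])
    · intro h7
      exact absurd (Finset.mem_range.2 hk0) h7
  · have h8 : χ i = 0 := by
      rw [← hχ, zc404_D_apply, if_neg hi]
    simp [h8]

/-- the chase through the degrees -/
theorem zc404_chase (y : P) (d : Eˣ) (p : ℕ) (hp : p.Prime) (hy : y ^ p = 1) (hd : d ^ p = 1)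
    (hfree : S.Free y) (ψ w0 : S.I → E)
    (hw0 : zc404_D S E 0 w0 = w0)
    (hbot : zc404_D S E 0 ψ = ∑ k ∈ Finset.range p, (zc404_T S y d ^ k) w0)
    (heven : ∀ j, 1 ≤ j → j ≤ S.m → Even j →
      zc404_D S E j (zc404_δ S E ψ) = zc404_D S E j (zc404_T S y d ψ - ψ))
    (hodd : ∀ j, 1 ≤ j → j ≤ S.m → ¬ Even j →
      zc404_D S E j (zc404_δ S E ψ) = zc404_D S E j (∑ k ∈ Finset.range p, (zc404_T S y d ^ k) ψ)) :
    ∀ j, j ≤ S.m → ∃ χ : S.I → E, zc404_D S E j χ = χ ∧
      zc404_δ S E (zc404_D S E j ψ) = if Even j then ∑ k ∈ Finset.range p, (zc404_T S y d ^ k) (zc404_δ S E χ)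
        else zc404_T S y d (zc404_δ S E χ) - zc404_δ S E χ := by
  have hTkδ : ∀ (k : ℕ) (χ : S.I → E), (zc404_T S y d ^ k) (zc404_δ S E χ) = zc404_δ S E ((zc404_T S y d ^ k) χ) :=
    fun k χ => zc404_pow_comm _ _ (zc404_Tδ S y d) k χ
  have hTkD : ∀ (j k : ℕ) (χ : S.I → E), (zc404_T S y d ^ k) (zc404_D S E j χ) = zc404_D S E j ((zc404_T S y d ^ k) χ) :=
    fun j k χ => zc404_pow_comm _ _ (zc404_TD S y d j) k χ
  intro j
  induction j with
  | zero =>
    intro _
    refine ⟨w0, hw0, ?_⟩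
    rw [if_pos (by decide), hbot, map_sum]
    exact Finset.sum_congr rfl fun k _ => (hTkδ k w0).symm
  | succ j ih =>
    intro hj
    obtain ⟨χ, hχ, hχ2⟩ := ih (by omega)
    have hδχ : zc404_D S E (j + 1) (zc404_δ S E χ) = zc404_δ S E χ := by
      rw [← zc404_δD, hχ]
    set x : S.I → E := zc404_D S E (j + 1) ψ - zc404_δ S E χ with hx
    have hDx : zc404_D S E (j + 1) x = x := by
      rw [hx, map_sub, zc404_DD, hδχ]
    have hsum := zc404_hsum S y d p hp hy hd hfree (j + 1) (by omega) hj x hDx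
    by_cases hev : Even j
    · have hnev : ¬ Even (j + 1) := by
        rw [Nat.even_add_one]; exact fun h => h hev
      rw [if_pos hev] at hχ2
      have h1 := hodd (j + 1) (by omega) hj hnev
      rw [← zc404_δD, hχ2] at h1
      have h2 : ∑ k ∈ Finset.range p, (zc404_T S y d ^ k) x = 0 := by
        have h3 : ∑ k ∈ Finset.range p, (zc404_T S y d ^ k) x =
            zc404_D S E (j + 1) (∑ k ∈ Finset.range p, (zc404_T S y d ^ k) ψ)
            - ∑ k ∈ Finset.range p, (zc404_T S y d ^ k) (zc404_δ S E χ) := by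
          rw [map_sum, ← Finset.sum_sub_distrib]
          refine Finset.sum_congr rfl fun k _ => ?_
          rw [hx, map_sub, hTkD]
        rw [h3, ← h1, sub_self]
      obtain ⟨z, hz1, hz2⟩ := zc404_H1 (zc404_T S y d) (zc404_e S E y) (zc404_D S E (j + 1)) p
        (zc404_DD S (j + 1)) (zc404_TD S y d (j + 1)) x hDx hsum h2
      refine ⟨z, hz1, ?_⟩
      rw [if_neg hnev]
      have h4 : zc404_D S E (j + 1) ψ = zc404_δ S E χ + (zc404_T S y d z - z) := by
        rw [← hz2, hx]; abel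
      rw [h4, map_add, zc404_δδ, zero_add, map_sub, zc404_Tδ]
    · have hnev : Even (j + 1) := by
        rw [Nat.even_add_one]; exact hev
      rw [if_neg hev] at hχ2
      have h1 := heven (j + 1) (by omega) hj hnev
      rw [← zc404_δD, hχ2] at h1
      have h2 : zc404_T S y d x = x := by
        have h3 : zc404_T S y d x - x = zc404_D S E (j + 1) (zc404_T S y d ψ - ψ)
            - (zc404_T S y d (zc404_δ S E χ) - zc404_δ S E χ) := by
          rw [hx, map_sub, map_sub, zc404_TD]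
          abel
        rw [← h1, sub_self] at h3
        exact sub_eq_zero.1 h3
      obtain ⟨z, hz1, hz2⟩ := zc404_H0 (zc404_T S y d) (zc404_e S E y) (zc404_D S E (j + 1)) p
        (zc404_DD S (j + 1)) (zc404_TD S y d (j + 1)) x hDx hsum h2
      refine ⟨z, hz1, ?_⟩
      rw [if_pos hnev]
      have h4 : zc404_D S E (j + 1) ψ = zc404_δ S E χ + ∑ k ∈ Finset.range p, (zc404_T S y d ^ k) z := by
        rw [← hz2, hx]; abel
      rw [h4, map_add, zc404_δδ, zero_add, map_sum]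
      exact Finset.sum_congr rfl fun k _ => (hTkδ k z).symm

end ZC404b

section ZC404c

variable {P : Type} [Group P] (S : SBC P) {E : Type} [Ring E]

theorem zc404_TrE_zsmul (n : ℕ) (d : Eˣ) (s : ℤ) (x : E) : TrE n d (s • x) = s • TrE n d x := by
  unfold TrE
  rw [Finset.smul_sum]
  refine Finset.sum_congr rfl fun i _ => ?_
  rw [mul_smul_comm, smul_mul_assoc]

theorem zc404_TrE_sum {ι : Type*} (n : ℕ) (d : Eˣ) (t : Finset ι) (F : ι → E) :
    TrE n d (∑ i ∈ t, F i) = ∑ i ∈ t, TrE n d (F i) := by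
  unfold TrE
  simp only [Finset.mul_sum, Finset.sum_mul]
  rw [Finset.sum_comm]

theorem zc404_TrE_tele (n : ℕ) (v : Eˣ) (x : E) :
    TrE n v ((v : E) * x * ((v⁻¹ : Eˣ) : E) - x) =
      ((v ^ n : Eˣ) : E) * x * (((v ^ n)⁻¹ : Eˣ) : E) - x := by
  unfold TrE
  have h1 : ∀ i : ℕ, ((v ^ i : Eˣ) : E) * ((v : E) * x * ((v⁻¹ : Eˣ) : E) - x) * (((v ^ i)⁻¹ : Eˣ) : E)
      = ((v ^ (i + 1) : Eˣ) : E) * x * (((v ^ (i + 1))⁻¹ : Eˣ) : E)
        - ((v ^ i : Eˣ) : E) * x * (((v ^ i)⁻¹ : Eˣ) : E) := by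
    intro i
    rw [mul_sub, sub_mul]
    congr 1
    have h2 : (v ^ (i + 1))⁻¹ = v⁻¹ * (v ^ i)⁻¹ := by rw [pow_succ, mul_inv_rev]
    rw [h2, pow_succ]
    simp only [Units.val_mul, mul_assoc]
  rw [Finset.sum_congr rfl fun i _ => h1 i]
  rw [Finset.sum_range_sub (fun i => ((v ^ i : Eˣ) : E) * x * (((v ^ i)⁻¹ : Eˣ) : E))]
  simp

theorem zc404_T_eq (y : P) (r v1 d : Eˣ) (hd : d = r * v1) (hrv : Commute r v1) (f : E) (hf : Commute (d : E) f)
    (ξ : S.I → E) (hξ : ∀ i, ξ (S.α y i) = S.s y i • ((r : E) * ξ i * ((r⁻¹ : Eˣ) : E))) :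
    zc404_T S y d (fun i => ξ i * f) = fun i => (v1 : E) * ξ i * ((v1⁻¹ : Eˣ) : E) * f := by
  ext i
  rw [zc404_T_apply]
  have h1 : S.α y (S.α y⁻¹ i) = i := by
    rw [← Equiv.Perm.mul_apply, ← map_mul, mul_inv_cancel, map_one, Equiv.Perm.coe_one, id]
  have h2 := hξ (S.α y⁻¹ i)
  rw [h1] at h2
  rw [h2, mul_smul_comm, smul_mul_assoc, smul_mul_assoc]
  congr 1
  have hf2 : Commute ((d⁻¹ : Eˣ) : E) f := hf.units_inv_left
  rw [mul_assoc ((d : E)), mul_assoc (ξ _) f, ← hf2.eq]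
  have h3 : d = v1 * r := by rw [hd, hrv.eq]
  have h4 : d⁻¹ = r⁻¹ * v1⁻¹ := by rw [h3, mul_inv_rev]
  rw [h4]
  conv_lhs => rw [h3]
  simp only [Units.val_mul, mul_assoc]

theorem zc404_Tk_eq (y : P) (r v1 d : Eˣ) (hd : d = r * v1) (hrv : Commute r v1) (f : E) (hf : Commute (d : E) f)
    (ξ : S.I → E) (hξ : ∀ i, ξ (S.α y i) = S.s y i • ((r : E) * ξ i * ((r⁻¹ : Eˣ) : E))) (k : ℕ) :
    (zc404_T S y d ^ k) (fun i => ξ i * f) =
      fun i => ((v1 ^ k : Eˣ) : E) * ξ i * (((v1 ^ k)⁻¹ : Eˣ) : E) * f := by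
  induction k with
  | zero => ext i; simp
  | succ k ih =>
    rw [pow_succ', zc404_mul_apply, ih]
    rw [zc404_T_eq S y r v1 d hd hrv f hf (fun i => ((v1 ^ k : Eˣ) : E) * ξ i * (((v1 ^ k)⁻¹ : Eˣ) : E))]
    · ext i
      have h2 : (v1 ^ (k + 1))⁻¹ = (v1 ^ k)⁻¹ * v1⁻¹ := by rw [pow_succ', mul_inv_rev]
      rw [h2, pow_succ' v1 k]
      simp only [Units.val_mul, mul_assoc]
    · intro i
      have h5 : Commute (r : Eˣ) (v1 ^ k) := hrv.pow_right k
      have h6 : Commute ((r : Eˣ) : E) ((v1 ^ k : Eˣ) : E) := by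
        have := h5.eq
        unfold Commute SemiconjBy
        rw [← Units.val_mul, ← Units.val_mul, this]
      have h7 : Commute (((r⁻¹ : Eˣ)) : E) (((v1 ^ k)⁻¹ : Eˣ) : E) := by
        have := (h5.inv_inv).eq
        unfold Commute SemiconjBy
        rw [← Units.val_mul, ← Units.val_mul, this]
      rw [hξ, mul_smul_comm, smul_mul_assoc]
      congr 1
      calc ((v1 ^ k : Eˣ) : E) * ((r : E) * ξ i * ((r⁻¹ : Eˣ) : E)) * (((v1 ^ k)⁻¹ : Eˣ) : E)
          = (((v1 ^ k : Eˣ) : E) * (r : E)) * ξ i * (((r⁻¹ : Eˣ) : E) * (((v1 ^ k)⁻¹ : Eˣ) : E)) := by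
            simp only [mul_assoc]
        _ = ((r : E) * ((v1 ^ k : Eˣ) : E)) * ξ i * ((((v1 ^ k)⁻¹ : Eˣ) : E) * ((r⁻¹ : Eˣ) : E)) := by
            rw [h6.eq, h7.eq]
        _ = (r : E) * (((v1 ^ k : Eˣ) : E) * ξ i * (((v1 ^ k)⁻¹ : Eˣ) : E)) * ((r⁻¹ : Eˣ) : E) := by
            simp only [mul_assoc]

theorem zc404_alpha_bot (g : P) : S.α g S.bot = S.bot := by
  rw [← S.deg_bot, S.deg_act, S.deg_bot]

theorem zc404_alpha_top (g : P) : S.α g S.top = S.top := by
  rw [← S.deg_top, S.deg_act, S.deg_top]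

end ZC404c

theorem zig_chase {P : Type} [Group P] (S : SBC P) {E : Type} [Ring E]
    (ρ : P →* Eˣ) (v : Eˣ) (hv : ∀ g, Commute (ρ g) v) (p a : ℕ) (hp : p.Prime) (ha : 1 ≤ a)
    (hc : v ^ p ^ a = 1) (φ : S.I → E) (hφ : Zig S ρ v (p ^ a) φ) (y : P) (hy : y ^ p = 1)
    (hfree : S.Free y) (f w : E) (hf : Commute ((ρ y * v ^ p ^ (a - 1) : Eˣ) : E) f)
    (hw : φ S.bot * f = TrE p (ρ y * v ^ p ^ (a - 1)) w) :
    ∃ w', f = TrE p (ρ y * v ^ p ^ (a - 1)) w' := by
  set q : ℕ := p ^ (a - 1) with hq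
  set v1 : Eˣ := v ^ q with hv1
  set d : Eˣ := ρ y * v1 with hd
  have hpa : p ^ a = p * q := by
    rw [hq, ← pow_succ']; congr 1; omega
  have hrv : Commute (ρ y) v1 := (hv y).pow_right q
  have hdp : d ^ p = 1 := by
    rw [hd, hrv.mul_pow, ← map_pow, hy, map_one, one_mul, hv1, ← pow_mul, mul_comm q p, ← hpa, hc]
  obtain ⟨hφ1, hφ2, hφ3⟩ := hφ
  -- the modified solution
  set φ' : S.I → E := fun i => if Even (S.m - S.deg i) then φ i else TrE q v (φ i) with hφ'
  have hφ'e : ∀ i, Even (S.m - S.deg i) → φ' i = φ i := fun i hi => by simp only [hφ', if_pos hi]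
  have hφ'o : ∀ i, ¬ Even (S.m - S.deg i) → φ' i = TrE q v (φ i) := fun i hi => by
    simp only [hφ', if_neg hi]
  have heq : ∀ g i, φ' (S.α g i) = S.s g i • ((ρ g : E) * φ' i * (((ρ g)⁻¹ : Eˣ) : E)) := by
    intro g i
    by_cases hi : Even (S.m - S.deg i)
    · rw [hφ'e i hi, hφ'e (S.α g i) (by rw [S.deg_act]; exact hi), hφ1]
    · rw [hφ'o i hi, hφ'o (S.α g i) (by rw [S.deg_act]; exact hi), hφ1, zc404_TrE_zsmul, TrE_conj]
      have h1 : ρ g * v * (ρ g)⁻¹ = v := by rw [(hv g).eq, mul_assoc, mul_inv_cancel, mul_one]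
      rw [h1]
  have hbotφ : φ' S.bot = φ S.bot := by
    apply hφ'e
    rw [(S.deg_bot S.bot).2 rfl, Nat.sub_zero]
    exact S.hm
  have htopφ : ∑ j, S.M S.top j • φ' j = 1 := by
    rw [← hφ2]
    refine Finset.sum_congr rfl fun j _ => ?_
    by_cases hM : S.M S.top j = 0
    · rw [hM, zero_smul, zero_smul]
    · have h2 := S.M_deg _ _ hM
      rw [(S.deg_top S.top).2 rfl] at h2
      rw [hφ'e j]
      have : S.m - S.deg j = 0 := by omega
      rw [this]
      exact Even.zero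
  have hmide : ∀ i, 1 ≤ S.deg i → S.deg i ≤ S.m → Even (S.m - S.deg i) →
      ∑ j, S.M i j • φ' j = (v1 : E) * φ' i * ((v1⁻¹ : Eˣ) : E) - φ' i := by
    intro i h1 h2 h3
    have h4 : ∑ j, S.M i j • φ' j = TrE q v (∑ j, S.M i j • φ j) := by
      rw [zc404_TrE_sum]
      refine Finset.sum_congr rfl fun j _ => ?_
      by_cases hM : S.M i j = 0
      · rw [hM, zero_smul, zero_smul, TrE_zero]
      · have h5 := S.M_deg _ _ hM
        have h6 : ¬ Even (S.m - S.deg j) := by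
          have h7 : S.m - S.deg j = (S.m - S.deg i) + 1 := by omega
          rw [h7, Nat.even_add_one]
          exact fun h => h h3
        rw [hφ'o j h6, zc404_TrE_zsmul]
    rw [h4, hφ3 i h1 h2, if_pos h3, zc404_TrE_tele, hφ'e i h3]
  have hmido : ∀ i, 1 ≤ S.deg i → S.deg i ≤ S.m → ¬ Even (S.m - S.deg i) →
      ∑ j, S.M i j • φ' j = TrE p v1 (φ' i) := by
    intro i h1 h2 h3
    have h4 : ∑ j, S.M i j • φ' j = ∑ j, S.M i j • φ j := by
      refine Finset.sum_congr rfl fun j _ => ?_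
      by_cases hM : S.M i j = 0
      · rw [hM, zero_smul, zero_smul]
      · have h5 := S.M_deg _ _ hM
        have h6 : Even (S.m - S.deg j) := by
          have h7 : S.m - S.deg j = (S.m - S.deg i) + 1 := by omega
          rw [h7, Nat.even_add_one]
          exact h3
        rw [hφ'e j h6]
    rw [h4, hφ3 i h1 h2, if_neg h3, hφ'o i h3, hv1, TrE_nest, hpa]
  -- the function to be analysed
  set ψ : S.I → E := fun i => φ' i * f with hψ
  have hδψ : ∀ i, zc404_δ S E ψ i = (∑ j, S.M i j • φ' j) * f := by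
    intro i
    rw [zc404_δ_apply, Finset.sum_mul]
    refine Finset.sum_congr rfl fun j _ => ?_
    rw [smul_mul_assoc]
  have hTk : ∀ k, (zc404_T S y d ^ k) ψ =
      fun i => ((v1 ^ k : Eˣ) : E) * φ' i * (((v1 ^ k)⁻¹ : Eˣ) : E) * f :=
    fun k => zc404_Tk_eq S y (ρ y) v1 d hd hrv f hf φ' (fun i => heq y i) k
  have hTpar : ∀ j, j ≤ S.m → (Even (S.m - j) ↔ Even j) := by
    intro j hj
    rw [Nat.even_sub hj]
    exact ⟨fun h => h.1 S.hm, fun h => ⟨fun _ => h, fun _ => S.hm⟩⟩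
  classical
  set w0 : S.I → E := fun i => if i = S.bot then w else 0 with hw0
  obtain ⟨χ, -, hχ⟩ := zc404_chase S y d p hp hy hdp hfree ψ w0
    (by
      ext i
      rw [zc404_D_apply]
      by_cases h : S.deg i = 0
      · rw [if_pos h]
      · rw [if_neg h, hw0]
        have : i ≠ S.bot := fun h' => h ((S.deg_bot i).2 h')
        simp only [if_neg this])
    (by
      ext i
      rw [zc404_D_apply, Finset.sum_apply]
      by_cases h : S.deg i = 0
      · rw [if_pos h]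
        have hi := (S.deg_bot i).1 h
        subst hi
        simp only [hψ]
        rw [hbotφ, hw]
        unfold TrE
        refine Finset.sum_congr rfl fun k _ => ?_
        rw [zc404_T_pow, zc404_alpha_bot, S.s_bot, one_smul, hw0]
        simp only [if_true]
      · rw [if_neg h]
        symm
        refine Finset.sum_eq_zero fun k _ => ?_
        rw [zc404_T_pow, hw0]
        have : S.α (y ^ k)⁻¹ i ≠ S.bot := by
          intro h'
          apply h
          rw [← S.deg_act (y ^ k)⁻¹ i, h']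
          exact (S.deg_bot _).2 rfl
        simp only [if_neg this, mul_zero, zero_mul, smul_zero])
    (by
      intro j hj1 hj2 hj3
      ext i
      rw [zc404_D_apply, zc404_D_apply]
      by_cases h : S.deg i = j
      · rw [if_pos h, if_pos h, hδψ, hmide i (by omega) (by omega) (by rw [h, hTpar j hj2]; exact hj3)]
        have h1 := hTk 1
        rw [pow_one, pow_one] at h1
        rw [Pi.sub_apply, h1, sub_mul]
      · rw [if_neg h, if_neg h])
    (by
      intro j hj1 hj2 hj3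
      ext i
      rw [zc404_D_apply, zc404_D_apply]
      by_cases h : S.deg i = j
      · rw [if_pos h, if_pos h, hδψ, hmido i (by omega) (by omega) (by rw [h, hTpar j hj2]; exact hj3)]
        rw [Finset.sum_apply]
        unfold TrE
        rw [Finset.sum_mul]
        refine Finset.sum_congr rfl fun k _ => ?_
        rw [hTk]
      · rw [if_neg h, if_neg h])
    S.m le_rfl
  refine ⟨zc404_δ S E χ S.top, ?_⟩
  rw [if_pos S.hm, zc404_δD] at hχ
  have h1 := congrFun hχ S.top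
  rw [zc404_D_apply, if_pos ((S.deg_top S.top).2 rfl), hδψ, htopφ, one_mul, Finset.sum_apply] at h1
  rw [h1]
  unfold TrE
  refine Finset.sum_congr rfl fun k _ => ?_
  rw [zc404_T_pow, zc404_alpha_top, S.s_top, one_smul]

end Pool.Agent.Helper495_PQ
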