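import Mathlib
import Pool.Agent.Helper495_PQ.Defs
import Pool.Agent.Helper495_PQ.PA1
set_option autoImplicit false
namespace Pool.Agent.Helper495_PQ

section A1
variable {E : Type*} [Ring E]

end A1

/-- `TrE` as an additive map -/
def h45_trHom {E : Type*} [Ring E] (n : ℕ) (d : Eˣ) : E →+ E where
  toFun := TrE n d
  map_zero' := TrE_zero n d
  map_add' := TrE_add n d

theorem h45_bezout {P : Type} [Group P] (S : SBC P) :
    ∃ h : S.I → ℤ, ∑ i, h i * S.M i S.bot = 1 := by
  classical
  let A : Ideal ℤ := Ideal.span (Set.range (fun i => S.M i S.bot))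
  have h1 : (1 : ℤ) ∈ A := by
    have hex := S.exact (ℤ ⧸ A) 0 (Pi.single S.bot (Ideal.Quotient.mk A 1)) (by
      intro i hi
      rw [Pi.single_apply, if_neg]
      intro hib
      exact hi ((S.deg_bot i).mpr hib)) (by
      intro i
      rw [Finset.sum_eq_single S.bot]
      · rw [Pi.single_eq_same, ← map_zsmul, Ideal.Quotient.eq_zero_iff_mem]
        simp only [smul_eq_mul, mul_one]
        exact Ideal.subset_span ⟨i, rfl⟩
      · intro l _ hl
        rw [Pi.single_eq_of_ne hl, smul_zero]
      · intro hh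
        exact absurd (Finset.mem_univ _) hh)
    obtain ⟨ψ, hψ0, hψ⟩ := hex
    have h2 := hψ S.bot
    have h3 : ∀ l, ψ l = 0 := fun l => hψ0 l (by omega)
    simp only [h3, smul_zero, Finset.sum_const_zero, Pi.single_eq_same] at h2
    exact Ideal.Quotient.eq_zero_iff_mem.mp h2.symm
  exact Ideal.mem_span_range_iff_exists_fun.mp h1

theorem zig_bot {P : Type} [Group P] (S : SBC P) {E : Type} [Ring E]
    (ρ : P →* Eˣ) (v : Eˣ) (c : ℕ) (hc : v ^ c = 1) (φ : S.I → E) (hφ : Zig S ρ v c φ) :
    (∀ g, Commute (ρ g : E) (φ S.bot)) ∧ Commute (v : E) (φ S.bot) ∧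
      ∃ x, φ S.bot = TrE c v x := by
  obtain ⟨hequi, -, hmid⟩ := hφ
  have hbot0 : S.deg S.bot = 0 := (S.deg_bot _).mpr rfl
  have hα : ∀ g, S.α g S.bot = S.bot := by
    intro g
    rw [← S.deg_bot, S.deg_act, hbot0]
  have hcomm : ∀ g, Commute (ρ g : E) (φ S.bot) := by
    intro g
    have h1 := hequi g S.bot
    rw [hα, S.s_bot, one_smul] at h1
    have h2 : φ S.bot * (ρ g : E) = (ρ g : E) * φ S.bot := by
      conv_lhs => rw [h1]
      rw [mul_assoc, Units.inv_mul, mul_one]
    exact h2.symm
  have hi : ∀ i, ∃ y : E, S.M i S.bot • φ S.bot = TrE c v y := by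
    intro i
    by_cases hM : S.M i S.bot = 0
    · exact ⟨0, by rw [hM, zero_smul, TrE_zero]⟩
    · have hdeg : S.deg i = 1 := by rw [S.M_deg i S.bot hM, hbot0]
      have hm1 : 1 ≤ S.m := Nat.one_le_iff_ne_zero.mpr S.hm0
      have h1 := hmid i (by omega) (by omega)
      rw [hdeg, if_neg] at h1
      · refine ⟨φ i, ?_⟩
        rw [← h1]
        symm
        apply Finset.sum_eq_single S.bot
        · intro j _ hj
          by_cases hMj : S.M i j = 0
          · rw [hMj, zero_smul]
          · exfalso
            have := S.M_deg i j hMj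
            exact hj ((S.deg_bot j).mp (by omega))
        · intro hh
          exact absurd (Finset.mem_univ _) hh
      · have hm := S.hm
        intro hev
        rw [Nat.even_sub hm1] at hev
        exact absurd (hev.mp hm) (by decide)
  choose y hy using hi
  obtain ⟨h, hh⟩ := h45_bezout S
  have hx : φ S.bot = TrE c v (∑ i, h i • y i) := by
    have h1 : TrE c v (∑ i, h i • y i) = ∑ i, h i • TrE c v (y i) := by
      have h2 := map_sum (h45_trHom c v) (fun i => h i • y i) Finset.univ
      simp only [map_zsmul] at h2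
      exact h2
    rw [h1]
    simp only [← hy, smul_smul]
    rw [← Finset.sum_smul, hh, one_smul]
  refine ⟨hcomm, ?_, _, hx⟩
  rw [hx]
  exact TrE_comm c v hc _

end Pool.Agent.Helper495_PQ
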