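import Mathlib
import Pool.Agent.Helper495_PQ.Defs
import Pool.Agent.Helper495_PQ.PA1
import Pool.Agent.Helper495_PQ.PA2
import Pool.Agent.Helper495_PQ.PA3
import Pool.Agent.Helper495_PQ.PA3b
set_option autoImplicit false
namespace Pool.Agent.Helper495_PQ

section A1
variable {E : Type*} [Ring E]

end A1

theorem lemma_S {P : Type} [Group P] [Fintype P] (S : SBC P) {E : Type} [Ring E] [Finite E]
    (ρ : P →* Eˣ) (v : Eˣ) (hv : ∀ g, Commute (ρ g) v) (p a : ℕ) (hp : p.Prime) (ha : 1 ≤ a)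
    (hc : v ^ p ^ a = 1) (β : E)
    (hβ : ∑ g : P, (ρ g : E) * β * (((ρ g)⁻¹ : Eˣ) : E) = 1) (y : P)
    (hy : y ^ p = 1) (hfree : S.Free y) :
    ∃ s : E, (∀ g, Commute (ρ g : E) s) ∧ Commute (v : E) s ∧
      (∃ η, s = TrE p (v ^ p ^ (a - 1)) η) ∧ ∃ η, 1 - s = TrE p (ρ y * v ^ p ^ (a - 1)) η := by
  classical
  obtain ⟨φ, hφ⟩ := zig_exists S ρ v hv (p ^ a) hc β hβ
  obtain ⟨ht1, ht2, x, hx⟩ := zig_bot S ρ v (p ^ a) hc φ hφ
  set t : E := φ S.bot with ht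
  have hpa : p * p ^ (a - 1) = p ^ a := by
    rw [← pow_succ']
    congr 1
    omega
  have hv1 : Commute (((v ^ p ^ (a - 1) : Eˣ)) : E) t := by
    rw [Units.val_pow_eq_pow_val]
    exact ht2.pow_left _
  have hd : Commute ((ρ y * v ^ p ^ (a - 1) : Eˣ) : E) t := by
    rw [Units.val_mul]
    exact (ht1 y).mul_left hv1
  have hx' : t = TrE p (v ^ p ^ (a - 1)) (TrE (p ^ (a - 1)) v x) := by
    rw [TrE_nest, hpa]
    exact hx
  obtain ⟨i, j, hij, hEq⟩ := Finite.exists_ne_map_eq_of_infinite (fun n : ℕ => t ^ n)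
  obtain ⟨i, N, hN, hEq⟩ : ∃ i N : ℕ, 1 ≤ N ∧ t ^ i = t ^ (i + N) := by
    rcases lt_or_gt_of_ne hij with h | h
    · exact ⟨i, j - i, by omega, by rw [Nat.add_sub_cancel' h.le]; exact hEq⟩
    · exact ⟨j, i - j, by omega, by rw [Nat.add_sub_cancel' h.le]; exact hEq.symm⟩
  have hdf : ∀ k : ℕ, Commute ((ρ y * v ^ p ^ (a - 1) : Eˣ) : E) (t ^ k * (1 - t ^ N)) := by
    intro k
    exact (hd.pow_right k).mul_right ((Commute.one_right _).sub_right (hd.pow_right N))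
  have key : ∀ k : ℕ, (∃ w, t ^ k * (1 - t ^ N) = TrE p (ρ y * v ^ p ^ (a - 1)) w) →
      ∃ w, (1 - t ^ N) = TrE p (ρ y * v ^ p ^ (a - 1)) w := by
    intro k
    induction k with
    | zero =>
      rintro ⟨w, hw⟩
      exact ⟨w, by simpa using hw⟩
    | succ k ih =>
      rintro ⟨w, hw⟩
      apply ih
      refine zig_chase S ρ v hv p a hp ha hc φ hφ y hy hfree (t ^ k * (1 - t ^ N)) w (hdf k) ?_
      rw [← hw, ← ht, pow_succ', mul_assoc]
  refine ⟨t ^ N, fun g => (ht1 g).pow_right N, ht2.pow_right N,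
    ⟨TrE (p ^ (a - 1)) v x * t ^ (N - 1), ?_⟩, key i ⟨0, ?_⟩⟩
  · rw [TrE_mul_right _ _ _ _ (hv1.pow_right _), ← hx', ← pow_succ']
    congr 1
    omega
  · rw [TrE_zero, mul_sub, mul_one, ← pow_add, ← hEq, sub_self]

end Pool.Agent.Helper495_PQ

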