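import Mathlib
import Pool.Agent.Helper495_PQ.Defs
import Pool.Agent.Helper495_PQ.PA1
set_option autoImplicit false
namespace Pool.Agent.Helper495_PQ

section A1
variable {E : Type*} [Ring E]

end A1

theorem ml_P {P : Type} [Group P] [Finite P] {E : Type} [Ring E]
    (ρ : P →* Eˣ) (v v1 : Eˣ) (hv1 : ∀ x : E, Commute (v : E) x → Commute (v1 : E) x) (p : ℕ)
    (h : ∀ y : P, orderOf y = p → ∃ s : E, (∀ g, Commute (ρ g : E) s) ∧ Commute (v : E) s ∧
      (∃ η, s = TrE p v1 η) ∧ ∃ η, 1 - s = TrE p (ρ y * v1) η) :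
    ∃ s : E, (∀ g, Commute (ρ g : E) s) ∧ Commute (v : E) s ∧ (∃ η, s = TrE p v1 η) ∧
      ∀ y : P, orderOf y = p → ∃ η, 1 - s = TrE p (ρ y * v1) η := by
  classical
  have _i : Fintype P := Fintype.ofFinite P
  have key : ∀ Y : Finset P, (∀ y ∈ Y, orderOf y = p) → ∃ s : E, (∀ g, Commute (ρ g : E) s) ∧
      Commute (v : E) s ∧ (∃ η, s = TrE p v1 η) ∧ ∀ y ∈ Y, ∃ η, 1 - s = TrE p (ρ y * v1) η := by
    intro Y
    induction Y using Finset.induction_on with
    | empty =>
      intro _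
      exact ⟨0, fun g => Commute.zero_right _, Commute.zero_right _, ⟨0, (TrE_zero p v1).symm⟩,
        fun y hy => absurd hy (Finset.notMem_empty y)⟩
    | insert y Y hy ih =>
      intro hY
      obtain ⟨s, h1, h2, ⟨η, h3⟩, h4⟩ := ih fun z hz => hY z (Finset.mem_insert_of_mem hz)
      obtain ⟨s', h1', h2', ⟨η', h3'⟩, ⟨η'', h4'⟩⟩ := h y (hY y (Finset.mem_insert_self _ _))
      have e1 : 1 - (s + s' - s * s') = (1 - s) * (1 - s') := by noncomm_ring
      refine ⟨s + s' - s * s', fun g => ((h1 g).add_right (h1' g)).sub_right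
        ((h1 g).mul_right (h1' g)), (h2.add_right h2').sub_right (h2.mul_right h2'),
        ⟨η + η' - η * s', ?_⟩, fun z hz => ?_⟩
      · rw [TrE_sub, TrE_add, TrE_mul_right p v1 η s' (hv1 s' h2'), ← h3, ← h3']
      · have c : ∀ (t : E), (∀ g, Commute (ρ g : E) t) → Commute (v : E) t →
            Commute ((ρ z * v1 : Eˣ) : E) (1 - t) := by
          intro t ht ht'
          rw [Units.val_mul]
          exact (Commute.one_right _).sub_right ((ht z).mul_left (hv1 t ht'))
        rw [e1]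
        rcases Finset.mem_insert.1 hz with hz | hz
        · subst hz
          refine ⟨(1 - s) * η'', ?_⟩
          rw [TrE_mul_left p (ρ z * v1) η'' (1 - s) (c s h1 h2), ← h4']
        · obtain ⟨ζ, hζ⟩ := h4 z hz
          refine ⟨ζ * (1 - s'), ?_⟩
          rw [TrE_mul_right p (ρ z * v1) ζ (1 - s') (c s' h1' h2'), ← hζ]
  obtain ⟨s, h1, h2, h3, h4⟩ := key (Finset.univ.filter fun y => orderOf y = p)
    (fun y hy => (Finset.mem_filter.1 hy).2)
  exact ⟨s, h1, h2, h3, fun y hy => h4 y (Finset.mem_filter.2 ⟨Finset.mem_univ y, hy⟩)⟩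

end Pool.Agent.Helper495_PQ
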