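import Mathlib
import Pool.Agent.Helper495_PQ.Defs
import Pool.Agent.Helper495_PQ.PA1
set_option autoImplicit false
namespace Pool.Agent.Helper495_PQ

section A1
variable {E : Type*} [Ring E]

end A1

section H585

variable {E : Type*} [Ring E]

/-- H585: the values of the relative trace form an additive subgroup -/
def h585T (n : ℕ) (d : Eˣ) : AddSubgroup E where
  carrier := {x | ∃ η, x = TrE n d η}
  zero_mem' := ⟨0, (TrE_zero n d).symm⟩
  add_mem' := by
    rintro a b ⟨η, rfl⟩ ⟨θ, rfl⟩
    exact ⟨η + θ, (TrE_add n d η θ).symm⟩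
  neg_mem' := by
    rintro a ⟨η, rfl⟩
    refine ⟨0 - η, ?_⟩
    rw [TrE_sub, TrE_zero, zero_sub]

theorem h585_mem (n : ℕ) (d : Eˣ) (x : E) : x ∈ h585T n d ↔ ∃ η, x = TrE n d η := Iff.rfl

end H585

section H585b

variable {G : Type} [Group G] {E : Type} [Ring E]

/-- H585: conjugation by a group element -/
def h585c (ρ : G →* Eˣ) (g : G) (x : E) : E := (ρ g : E) * x * (((ρ g)⁻¹ : Eˣ) : E)

theorem h585c_mul (ρ : G →* Eˣ) (g h : G) (x : E) : h585c ρ (g * h) x = h585c ρ g (h585c ρ h x) := by
  unfold h585c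
  rw [map_mul, mul_inv_rev]
  push_cast
  noncomm_ring

theorem h585c_one (ρ : G →* Eˣ) (x : E) : h585c ρ 1 x = x := by
  unfold h585c
  simp

theorem h585c_fix (ρ : G →* Eˣ) (g : G) (x : E) (h : Commute (ρ g : E) x) : h585c ρ g x = x := by
  unfold h585c
  rw [h.eq, mul_assoc, Units.mul_inv, mul_one]

theorem h585c_comm (ρ : G →* Eˣ) (g : G) (x : E) (h : h585c ρ g x = x) : Commute (ρ g : E) x := by
  unfold h585c at h
  have : (ρ g : E) * x * (((ρ g)⁻¹ : Eˣ) : E) * (ρ g : E) = x * (ρ g : E) := by rw [h]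
  rw [mul_assoc, Units.inv_mul, mul_one] at this
  exact this

theorem h585c_commute (ρ : G →* Eˣ) (g : G) (w : Eˣ) (x : E) (h1 : Commute (ρ g) w)
    (h2 : Commute (w : E) x) : Commute (w : E) (h585c ρ g x) := by
  unfold h585c
  have e1 : Commute (w : E) (ρ g : E) := by
    have := h1.symm
    exact this.units_val
  have e2 : Commute (w : E) (((ρ g)⁻¹ : Eˣ) : E) := by
    have := h1.inv_left.symm
    exact this.units_val
  exact (e1.mul_right h2).mul_right e2

end H585b

theorem transfer_G {G : Type} [Group G] [Finite G] {E : Type} [Ring E] (ρ : G →* Eˣ) (v v1 : Eˣ)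
    (hv : ∀ g, Commute (ρ g) v) (hv' : ∀ g, Commute (ρ g) v1)
    (hv1 : ∀ x : E, Commute (v : E) x → Commute (v1 : E) x) (p : ℕ) [Fact p.Prime]
    (P : Subgroup G) (hv1p : v1 ^ p = 1) (s : E)
    (hs : ∀ g ∈ P, Commute (ρ g : E) s) (hsv : Commute (v : E) s) (h1 : ∃ η, s = TrE p v1 η)
    (h2 : ∀ y ∈ P, orderOf y = p → ∃ η, 1 - s = TrE p (ρ y * v1) η) :
    ∃ s' : E, (∀ g, Commute (ρ g : E) s') ∧ Commute (v : E) s' ∧ (∃ η, s' = TrE p v1 η) ∧
      ∀ y : G, orderOf y = p → ∃ η, (P.index : E) - s' = TrE p (ρ y * v1) η := by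
  classical
  have : Fintype (G ⧸ P) := Fintype.ofFinite _
  -- the conjugates
  have hS : ∀ a b : G, (QuotientGroup.mk a : G ⧸ P) = QuotientGroup.mk b → h585c ρ a s = h585c ρ b s := by
    intro a b hab
    rw [QuotientGroup.eq] at hab
    have : b = a * (a⁻¹ * b) := by group
    rw [this, h585c_mul, h585c_fix ρ _ s (hs _ hab)]
  let F : G ⧸ P → E := fun q => h585c ρ q.out s
  have hF : ∀ g : G, F (QuotientGroup.mk g) = h585c ρ g s := by
    intro g
    exact hS _ _ (QuotientGroup.out_eq' _)
  have hFact : ∀ (h : G) (q : G ⧸ P), F (h • q) = h585c ρ h (F q) := by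
    intro h q
    induction q using QuotientGroup.induction_on with
    | H g =>
      rw [hF g, ← h585c_mul, ← hF (h * g)]
      rfl
  have hFv : ∀ q, Commute (v : E) (F q) := fun q => h585c_commute ρ _ v s (hv _) hsv
  have hFv1 : ∀ q, Commute (v1 : E) (F q) := fun q => hv1 _ (hFv q)
  refine ⟨∑ q, F q, ?_, ?_, ?_, ?_⟩
  · intro h
    apply h585c_comm
    have e1 : h585c ρ h (∑ q, F q) = ∑ q, h585c ρ h (F q) := by
      unfold h585c
      rw [Finset.mul_sum, Finset.sum_mul]
    rw [e1]
    rw [← Equiv.sum_comp (MulAction.toPerm h) F]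
    exact Finset.sum_congr rfl (fun q _ => (hFact h q).symm)
  · exact Commute.sum_right _ _ _ (fun q _ => hFv q)
  · rw [← h585_mem]
    apply AddSubgroup.sum_mem
    intro q _
    rw [h585_mem]
    obtain ⟨η, hη⟩ := h1
    refine ⟨h585c ρ q.out η, ?_⟩
    show h585c ρ q.out s = _
    rw [hη]
    unfold h585c
    rw [TrE_conj, (hv' q.out).eq, mul_assoc, mul_inv_cancel, mul_one]
  · intro y hy
    set d : Eˣ := ρ y * v1 with hd
    rw [← h585_mem]
    have hcard : (P.index : E) - ∑ q, F q = ∑ q, (1 - F q) := by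
      rw [Finset.sum_sub_distrib, Finset.sum_const, Finset.card_univ, nsmul_eq_mul, mul_one,
        ← Nat.card_eq_fintype_card]
      rfl
    rw [hcard]
    -- the orbits
    let π : G ⧸ P → MulAction.orbitRel.Quotient (Subgroup.zpowers y) (G ⧸ P) := fun q => Quotient.mk _ q
    have : Fintype (MulAction.orbitRel.Quotient (Subgroup.zpowers y) (G ⧸ P)) := Fintype.ofFinite _
    rw [← Finset.sum_fiberwise Finset.univ π]
    apply AddSubgroup.sum_mem
    intro ω _
    induction ω using Quotient.inductionOn with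
    | h q0 =>
    have hmem : ∀ q, π q = Quotient.mk _ q0 ↔ ∃ i < p, y ^ i • q0 = q := by
      intro q
      have e1 : π q = Quotient.mk _ q0 ↔ q ∈ MulAction.orbit (Subgroup.zpowers y) q0 := Quotient.eq
      rw [e1, MulAction.mem_orbit_iff]
      constructor
      · rintro ⟨⟨g, hg⟩, hgq⟩
        have hfin : IsOfFinOrder y := by
          rw [← orderOf_pos_iff, hy]; exact (Fact.out : p.Prime).pos
        rw [← hfin.mem_powers_iff_mem_zpowers, hfin.mem_powers_iff_mem_range_orderOf] at hg
        obtain ⟨i, hi, rfl⟩ := Finset.mem_image.1 hg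
        rw [Finset.mem_range, hy] at hi
        exact ⟨i, hi, hgq⟩
      · rintro ⟨i, hi, hq⟩
        exact ⟨⟨y ^ i, Subgroup.pow_mem _ (Subgroup.mem_zpowers y) i⟩, hq⟩
    by_cases hfix : y • q0 = q0
    · have hfib : (Finset.univ.filter (fun q => π q = Quotient.mk _ q0)) = {q0} := by
        ext q
        rw [Finset.mem_filter, hmem, Finset.mem_singleton]
        constructor
        · rintro ⟨-, i, -, rfl⟩
          have : ∀ i : ℕ, y ^ i • q0 = q0 := by
            intro i
            induction i with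
            | zero => simp
            | succ i ih => rw [pow_succ, mul_smul, hfix, ih]
          exact this i
        · rintro rfl
          exact ⟨Finset.mem_univ _, 0, (Fact.out : p.Prime).pos, by simp⟩
      rw [hfib, Finset.sum_singleton, h585_mem]
      induction q0 using QuotientGroup.induction_on with
      | H g =>
      rw [hF g]
      have hfix' : (QuotientGroup.mk (y * g) : G ⧸ P) = QuotientGroup.mk g := hfix
      rw [QuotientGroup.eq] at hfix'
      have hy' : g⁻¹ * y * g ∈ P := by
        have := P.inv_mem hfix'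
        have e : ((y * g)⁻¹ * g)⁻¹ = g⁻¹ * y * g := by group
        rwa [e] at this
      have hord : orderOf (g⁻¹ * y * g) = p := by
        have := (MulAut.conj g⁻¹).orderOf_eq y
        rw [MulAut.conj_apply, inv_inv] at this
        rw [this, hy]
      obtain ⟨η, hη⟩ := h2 _ hy' hord
      refine ⟨h585c ρ g η, ?_⟩
      have e1 : 1 - h585c ρ g s = h585c ρ g (1 - s) := by
        unfold h585c
        rw [mul_sub, sub_mul, mul_one, Units.mul_inv]
      rw [e1, hη]
      unfold h585c
      rw [TrE_conj]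
      congr 1
      rw [hd, map_mul, map_mul, map_inv]
      have e2 : (ρ g) * ((ρ g)⁻¹ * ρ y * ρ g * v1) * (ρ g)⁻¹ = ρ y * (ρ g * v1 * (ρ g)⁻¹) := by group
      rw [e2, (hv' g).eq, mul_assoc, mul_inv_cancel, mul_one]
    · have hinj : Set.InjOn (fun i : ℕ => y ^ i • q0) (Finset.range p : Set ℕ) := by
        have key : ∀ i j : ℕ, i < j → j < p → y ^ i • q0 ≠ y ^ j • q0 := by
          intro i j hij hj h
          have e1 : y ^ j = y ^ i * y ^ (j - i) := by
            rw [← pow_add]; congr 1; omega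
          rw [e1, mul_smul] at h
          have e2 : q0 = y ^ (j - i) • q0 := MulAction.injective (y ^ i) h
          have hcop : (j - i).Coprime (orderOf y) := by
            rw [hy]
            exact ((Nat.Prime.coprime_iff_not_dvd (Fact.out : p.Prime)).2
              (Nat.not_dvd_of_pos_of_lt (by omega) (by omega))).symm
          obtain ⟨m, hm⟩ := exists_pow_eq_self_of_coprime hcop
          apply hfix
          have e3 : y ^ (j - i) ∈ MulAction.stabilizer G q0 := e2.symm
          have e4 := Subgroup.pow_mem _ e3 m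
          rw [hm] at e4
          exact e4
        intro i hi j hj h
        simp only [Finset.coe_range, Set.mem_Iio] at hi hj
        rcases lt_trichotomy i j with hij | hij | hij
        · exact absurd h (key i j hij hj)
        · exact hij
        · exact absurd h.symm (key j i hij hi)
      have hfib : (Finset.univ.filter (fun q => π q = Quotient.mk _ q0)) =
          (Finset.range p).image (fun i : ℕ => y ^ i • q0) := by
        ext q
        rw [Finset.mem_filter, hmem, Finset.mem_image]
        simp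
      rw [hfib, Finset.sum_image hinj, h585_mem]
      refine ⟨1 - F q0, ?_⟩
      unfold TrE
      apply Finset.sum_congr rfl
      intro i _
      rw [hFact]
      have hc : Commute (ρ y) v1 := hv' y
      have e1 : d ^ i = ρ (y ^ i) * v1 ^ i := by
        rw [hd, hc.mul_pow, map_pow]
      rw [e1]
      unfold h585c
      have e2 : Commute ((v1 ^ i : Eˣ) : E) (1 - F q0) := by
        push_cast
        exact ((Commute.one_right _).sub_right (hFv1 q0)).pow_left i
      have e3 : (((ρ (y ^ i) * v1 ^ i : Eˣ)⁻¹ : Eˣ) : E) = (((v1 ^ i)⁻¹ : Eˣ) : E) * (((ρ (y ^ i))⁻¹ : Eˣ) : E) := by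
        rw [mul_inv_rev]; push_cast; rfl
      rw [e3, Units.val_mul]
      have e4 : (ρ (y ^ i) : E) * ((v1 ^ i : Eˣ) : E) * (1 - F q0) *
          ((((v1 ^ i)⁻¹ : Eˣ) : E) * (((ρ (y ^ i))⁻¹ : Eˣ) : E)) =
          (ρ (y ^ i) : E) * (((v1 ^ i : Eˣ) : E) * (1 - F q0) * (((v1 ^ i)⁻¹ : Eˣ) : E)) *
            (((ρ (y ^ i))⁻¹ : Eˣ) : E) := by
        simp only [mul_assoc]
      rw [e4, e2.eq, mul_assoc (1 - F q0), Units.mul_inv, mul_one, mul_sub, sub_mul, mul_one,
        Units.mul_inv]

end Pool.Agent.Helper495_PQ
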