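import Mathlib
set_option autoImplicit false
namespace Pool.Agent.Helper495_PQ

theorem idem_of {E : Type*} [Ring E] [Finite E] (p K : ℕ) (hp : p.Prime) (hK : (p : E) ^ K = 0)
    (s : E) (r : ℕ) (hr : ¬ p ∣ r) :
    ∃ N : ℕ, 0 < N ∧ s ^ N * s ^ N = s ^ N ∧
      ∃ s2 : E, (∀ x : E, Commute x s → Commute x s2) ∧ ((r : E) - s) * s2 = 1 - s ^ N := by
  classical
  -- idempotent power
  obtain ⟨N, hN0, hNid⟩ : ∃ N : ℕ, 0 < N ∧ s ^ N * s ^ N = s ^ N := by
    have hni : ¬ Function.Injective (fun n : ℕ => s ^ n) := not_injective_infinite_finite _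
    have hij : ∃ i j : ℕ, i < j ∧ s ^ i = s ^ j := by
      by_contra hcon
      push Not at hcon
      apply hni
      intro a b hab
      rcases lt_trichotomy a b with h | h | h
      · exact absurd hab (hcon a b h)
      · exact h
      · exact absurd hab.symm (hcon b a h)
    obtain ⟨i, j, hlt, he⟩ := hij
    obtain ⟨k, rfl⟩ : ∃ k, j = i + k := ⟨j - i, by omega⟩
    have hk : 0 < k := by omega
    have h1 : ∀ n, i ≤ n → s ^ (n + k) = s ^ n := by
      intro n hn
      obtain ⟨m, rfl⟩ : ∃ m, n = i + m := ⟨n - i, by omega⟩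
      have : i + m + k = (i + k) + m := by ring
      rw [this, pow_add, ← he, ← pow_add]
    have h2 : ∀ m n, i ≤ n → s ^ (n + m * k) = s ^ n := by
      intro m
      induction m with
      | zero => intro n _; simp
      | succ m ih =>
        intro n hn
        have : n + (m + 1) * k = (n + m * k) + k := by ring
        rw [this, h1 _ (by omega), ih n hn]
    refine ⟨(i + 1) * k, by positivity, ?_⟩
    rw [← pow_add]
    apply h2
    calc i ≤ i + 1 := by omega
      _ = (i + 1) * 1 := by ring
      _ ≤ (i + 1) * k := Nat.mul_le_mul_left _ hk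
  -- inverse of r
  obtain ⟨a, ha⟩ : ∃ a : ℤ, (a : E) * (r : E) = 1 := by
    have hcop : IsCoprime (r : ℤ) ((p : ℤ) ^ K) := by
      apply IsCoprime.pow_right
      rw [Nat.isCoprime_iff_coprime]
      exact ((Nat.Prime.coprime_iff_not_dvd hp).2 hr).symm
    obtain ⟨a, b, hab⟩ := hcop
    refine ⟨a, ?_⟩
    have := congrArg (fun z : ℤ => (z : E)) hab
    simp only [Int.cast_add, Int.cast_mul, Int.cast_pow, Int.cast_natCast, Int.cast_one, hK,
      mul_zero, add_zero] at this
    exact this
  have hcomm : Commute (r : E) s := Nat.cast_commute r s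
  refine ⟨N, hN0, hNid, (a : E) ^ N * (∑ i ∈ Finset.range N, (r : E) ^ i * s ^ (N - 1 - i)) *
    (1 - s ^ N), ?_, ?_⟩
  · intro x hx
    refine Commute.mul_right (Commute.mul_right ?_ ?_) ?_
    · exact ((Int.cast_commute a x).symm).pow_right N
    · apply Commute.sum_right
      intro i _
      exact ((Nat.cast_commute r x).symm.pow_right i).mul_right (hx.pow_right _)
    · exact (Commute.one_right x).sub_right (hx.pow_right N)
  · have h3 : ((r : E) - s) * (∑ i ∈ Finset.range N, (r : E) ^ i * s ^ (N - 1 - i)) =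
        (r : E) ^ N - s ^ N := hcomm.mul_geom_sum₂ N
    have h4 : ((r : E) - s) * (a : E) ^ N = (a : E) ^ N * ((r : E) - s) :=
      (((Int.cast_commute a ((r : E) - s)).symm).pow_right N).eq
    calc ((r : E) - s) * ((a : E) ^ N * (∑ i ∈ Finset.range N, (r : E) ^ i * s ^ (N - 1 - i)) *
          (1 - s ^ N))
        = (((r : E) - s) * (a : E) ^ N) * (∑ i ∈ Finset.range N, (r : E) ^ i * s ^ (N - 1 - i)) *
          (1 - s ^ N) := by simp only [mul_assoc]
      _ = (a : E) ^ N * (((r : E) - s) * (∑ i ∈ Finset.range N, (r : E) ^ i * s ^ (N - 1 - i))) *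
          (1 - s ^ N) := by rw [h4]; simp only [mul_assoc]
      _ = (a : E) ^ N * (((r : E) ^ N - s ^ N) * (1 - s ^ N)) := by rw [h3, mul_assoc]
      _ = (a : E) ^ N * ((r : E) ^ N * (1 - s ^ N)) := by
          congr 1
          rw [sub_mul ((r : E) ^ N), mul_sub (s ^ N), mul_one, hNid, sub_self, sub_zero]
      _ = ((a : E) ^ N * (r : E) ^ N) * (1 - s ^ N) := by rw [mul_assoc]
      _ = 1 - s ^ N := by
          have hc : Commute (a : E) (r : E) := Int.cast_commute a _
          rw [← hc.mul_pow, ha, one_pow, one_mul]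

end Pool.Agent.Helper495_PQ

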