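import Mathlib
import Pool.Agent.Helper495_PQ.Defs
import Pool.Agent.Helper495_PQ.PA1
import Pool.Agent.Helper495_PQ.PA4
import Pool.Agent.Helper495_PQ.PA5
import Pool.Agent.Helper495_PQ.PA6
import Pool.Agent.Helper495_PQ.PA7
set_option autoImplicit false
namespace Pool.Agent.Helper495_PQ

section A1
variable {E : Type*} [Ring E]

end A1

theorem h209_coset {G : Type} [Group G] [Fintype G] {M : Type} [AddCommMonoid M] (P : Subgroup G)
    [Fintype P] [Fintype (G ⧸ P)] (F : G → M) :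
    ∑ x : G, F x = ∑ h : P, ∑ q : G ⧸ P, F ((h : G) * (q.out)⁻¹) := by
  have hb : Function.Bijective (fun z : P × (G ⧸ P) => (z.1 : G) * (z.2.out)⁻¹) := by
    constructor
    · rintro ⟨h, q⟩ ⟨h', q'⟩ he
      simp only at he
      have e1 : q.out * (h : G)⁻¹ = q'.out * (h' : G)⁻¹ := by
        have := congrArg (fun z => z⁻¹) he
        simpa using this
      have e2 : q = q' := by
        have k1 : ((q.out * (h : G)⁻¹ : G) : G ⧸ P) = q := by
          rw [QuotientGroup.mk_mul_of_mem _ (P.inv_mem h.2)]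
          exact QuotientGroup.out_eq' q
        have k2 : ((q'.out * (h' : G)⁻¹ : G) : G ⧸ P) = q' := by
          rw [QuotientGroup.mk_mul_of_mem _ (P.inv_mem h'.2)]
          exact QuotientGroup.out_eq' q'
        rw [← k1, ← k2, e1]
      subst e2
      have e3 : (h : G) = h' := mul_right_cancel he
      rw [Subtype.ext e3]
    · intro x
      obtain ⟨h, hh⟩ := QuotientGroup.mk_out_eq_mul P x⁻¹
      refine ⟨⟨h, ((x⁻¹ : G) : G ⧸ P)⟩, ?_⟩
      simp only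
      rw [hh]
      group
  rw [← hb.sum_comp F, Fintype.sum_prod_type]

theorem main_idem {G : Type} [Group G] [Fintype G] {E : Type} [Ring E] [Finite E]
    (ρ : G →* Eˣ) (v : Eˣ) (hv : ∀ g, Commute (ρ g) v) (p a K : ℕ) [Fact p.Prime] (ha : 1 ≤ a)
    (hK : (p : E) ^ K = 0) (hc : v ^ p ^ a = 1) (β : E)
    (hβ : ∑ g : G, (ρ g : E) * β * (((ρ g)⁻¹ : Eˣ) : E) = 1)
    (hS : ∀ (P : Subgroup G), IsPGroup p P → ∀ y : P, orderOf y = p → ∃ S : SBC P, S.Free y) :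
    ∃ ε : E, ε * ε = ε ∧ (∀ g, Commute (ρ g : E) ε) ∧ Commute (v : E) ε ∧
      (∃ η, ε = TrE p (v ^ p ^ (a - 1)) η) ∧
      ∀ y : G, orderOf y = p → ∃ η, 1 - ε = TrE p (ρ y * v ^ p ^ (a - 1)) η := by
  classical
  have hp : p.Prime := Fact.out
  obtain ⟨v1, hv1d⟩ : ∃ v1 : Eˣ, v1 = v ^ p ^ (a - 1) := ⟨_, rfl⟩
  have hv1p : v1 ^ p = 1 := by
    rw [hv1d, ← pow_mul, ← pow_succ, Nat.sub_add_cancel ha, hc]
  have hv1 : ∀ x : E, Commute (v : E) x → Commute (v1 : E) x := by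
    intro x hx
    rw [hv1d, Units.val_pow_eq_pow_val]
    exact hx.pow_left _
  have hv' : ∀ g, Commute (ρ g) v1 := by
    intro g
    rw [hv1d]
    exact (hv g).pow_right _
  -- Sylow subgroup
  obtain ⟨S0, -⟩ : ∃ S0 : Sylow p G, True := ⟨default, trivial⟩
  obtain ⟨P, hPd⟩ : ∃ P : Subgroup G, P = (S0 : Subgroup G) := ⟨_, rfl⟩
  have hPp : IsPGroup p P := by rw [hPd]; exact S0.isPGroup'
  have hPi : ¬ p ∣ P.index := by rw [hPd]; exact S0.not_dvd_index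
  -- the element `β_P`
  obtain ⟨βP, hβPd⟩ : ∃ βP : E, βP = ∑ q : G ⧸ P, (ρ (q.out)⁻¹ : E) * β * (((ρ (q.out)⁻¹)⁻¹ : Eˣ) : E) :=
    ⟨_, rfl⟩
  have hβP : ∑ g : P, ((ρ.comp P.subtype) g : E) * βP * ((((ρ.comp P.subtype) g)⁻¹ : Eˣ) : E) = 1 := by
    rw [← hβ, h209_coset P (fun x => (ρ x : E) * β * (((ρ x)⁻¹ : Eˣ) : E))]
    apply Finset.sum_congr rfl
    intro g _
    rw [hβPd, Finset.mul_sum, Finset.sum_mul]
    apply Finset.sum_congr rfl
    intro q _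
    have e : (ρ.comp P.subtype) g = ρ (g : G) := rfl
    rw [e, map_mul, mul_inv_rev, Units.val_mul, Units.val_mul]
    simp only [mul_assoc]
  have hvP : ∀ g : P, Commute ((ρ.comp P.subtype) g) v := fun g => hv _
  -- local elements
  have hloc : ∀ y : P, orderOf y = p → ∃ s : E, (∀ g, Commute ((ρ.comp P.subtype) g : E) s) ∧
      Commute (v : E) s ∧ (∃ η, s = TrE p v1 η) ∧
      ∃ η, 1 - s = TrE p ((ρ.comp P.subtype) y * v1) η := by
    intro y hy
    obtain ⟨S, hfree⟩ := hS P hPp y hy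
    have := lemma_S S (ρ.comp P.subtype) v hvP p a hp ha hc βP hβP y
      (by rw [← hy]; exact pow_orderOf_eq_one y) hfree
    rw [hv1d]
    exact this
  obtain ⟨s, hs1, hs2, hs3, hs4⟩ := ml_P (ρ.comp P.subtype) v v1 hv1 p hloc
  obtain ⟨s', h1, h2, ⟨η1, h3⟩, h4⟩ := transfer_G ρ v v1 hv hv' hv1 p P hv1p s
    (fun g hg => hs1 ⟨g, hg⟩) hs2 hs3 (fun y hy hyp => hs4 ⟨y, hy⟩ (by
      rw [← hyp]; exact Subgroup.orderOf_mk y hy))
  obtain ⟨N, hN, hidem, s2, hs2c, hs2e⟩ := idem_of p K hp hK s' P.index hPi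
  rw [← hv1d]
  refine ⟨s' ^ N, hidem, fun g => (h1 g).pow_right N, h2.pow_right N, ?_, ?_⟩
  · refine ⟨η1 * s' ^ (N - 1), ?_⟩
    rw [TrE_mul_right p v1 η1 (s' ^ (N - 1)) ((hv1 s' h2).pow_right _), ← h3, ← pow_succ',
      Nat.sub_add_cancel hN]
  · intro y hy
    obtain ⟨η, hη⟩ := h4 y hy
    refine ⟨η * s2, ?_⟩
    have hc2 : Commute ((ρ y * v1 : Eˣ) : E) s2 := by
      apply hs2c
      rw [Units.val_mul]
      exact (h1 y).mul_left (hv1 s' h2)
    rw [TrE_mul_right p (ρ y * v1) η s2 hc2, ← hη, hs2e]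

end Pool.Agent.Helper495_PQ
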