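import Mathlib
import Pool.Agent.Helper495_PQ.Defs
set_option autoImplicit false
namespace Pool.Agent.Helper495_PQ

theorem j3562_prod {Ω : Type} [LinearOrder Ω] (g : Equiv.Perm Ω) (σ : Finset Ω) :
    sgn g σ = ∏ q ∈ (σ ×ˢ σ).filter (fun q => q.1 < q.2),
      (if g q.2 < g q.1 then (-1 : ℤ) else 1) := by
  unfold sgn
  rw [Finset.prod_ite, Finset.prod_const_one, mul_one, Finset.prod_const, Finset.filter_filter]

theorem j3562_bij {Ω : Type} [LinearOrder Ω] (g h : Equiv.Perm Ω) (σ : Finset Ω) :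
    ∏ q ∈ ((σ.map h.toEmbedding) ×ˢ (σ.map h.toEmbedding)).filter (fun q => q.1 < q.2),
      (if g q.2 < g q.1 then (-1 : ℤ) else 1)
    = ∏ q ∈ (σ ×ˢ σ).filter (fun q => q.1 < q.2),
      (if g (max (h q.1) (h q.2)) < g (min (h q.1) (h q.2)) then (-1 : ℤ) else 1) := by
  symm
  refine Finset.prod_bij' (fun q _ => (min (h q.1) (h q.2), max (h q.1) (h q.2)))
    (fun q _ => (min (h.symm q.1) (h.symm q.2), max (h.symm q.1) (h.symm q.2))) ?_ ?_ ?_ ?_ ?_
  · rintro ⟨x, y⟩ hq
    simp only [Finset.mem_filter, Finset.mem_product] at hq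
    obtain ⟨⟨hx, hy⟩, hxy⟩ := hq
    have hne : h x ≠ h y := fun e => hxy.ne (h.injective e)
    simp only [Finset.mem_filter, Finset.mem_product, Finset.mem_map]
    rcases lt_or_gt_of_ne hne with hl | hl
    · rw [min_eq_left hl.le, max_eq_right hl.le]
      exact ⟨⟨⟨x, hx, rfl⟩, ⟨y, hy, rfl⟩⟩, hl⟩
    · rw [min_eq_right hl.le, max_eq_left hl.le]
      exact ⟨⟨⟨y, hy, rfl⟩, ⟨x, hx, rfl⟩⟩, hl⟩
  · rintro ⟨x, y⟩ hq
    simp only [Finset.mem_filter, Finset.mem_product, Finset.mem_map] at hq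
    obtain ⟨⟨⟨a, ha, hax⟩, ⟨b, hb, hby⟩⟩, hxy⟩ := hq
    have hax' : h a = x := hax
    have hby' : h b = y := hby
    subst hax'
    subst hby'
    simp only [Finset.mem_filter, Finset.mem_product, Equiv.symm_apply_apply]
    have hne : a ≠ b := fun e => hxy.ne (by rw [e])
    rcases lt_or_gt_of_ne hne with hl | hl
    · rw [min_eq_left hl.le, max_eq_right hl.le]
      exact ⟨⟨ha, hb⟩, hl⟩
    · rw [min_eq_right hl.le, max_eq_left hl.le]
      exact ⟨⟨hb, ha⟩, hl⟩
  · rintro ⟨x, y⟩ hq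
    simp only [Finset.mem_filter, Finset.mem_product] at hq
    obtain ⟨⟨hx, hy⟩, hxy⟩ := hq
    simp only
    rcases le_total (h x) (h y) with hl | hl
    · rw [min_eq_left hl, max_eq_right hl, Equiv.symm_apply_apply, Equiv.symm_apply_apply,
        min_eq_left hxy.le, max_eq_right hxy.le]
    · rw [min_eq_right hl, max_eq_left hl, Equiv.symm_apply_apply, Equiv.symm_apply_apply,
        min_eq_right hxy.le, max_eq_left hxy.le]
  · rintro ⟨x, y⟩ hq
    simp only [Finset.mem_filter] at hq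
    obtain ⟨_, hxy⟩ := hq
    simp only
    rcases le_total (h.symm x) (h.symm y) with hl | hl
    · rw [min_eq_left hl, max_eq_right hl, Equiv.apply_symm_apply, Equiv.apply_symm_apply,
        min_eq_left hxy.le, max_eq_right hxy.le]
    · rw [min_eq_right hl, max_eq_left hl, Equiv.apply_symm_apply, Equiv.apply_symm_apply,
        min_eq_right hxy.le, max_eq_left hxy.le]
  · rintro ⟨x, y⟩ hq
    rfl

theorem sgn_mul {Ω : Type} [LinearOrder Ω] (g h : Equiv.Perm Ω) (σ : Finset Ω) :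
    sgn (g * h) σ = sgn g (σ.map h.toEmbedding) * sgn h σ := by
  rw [j3562_prod (g * h), j3562_prod g, j3562_prod h, j3562_bij, ← Finset.prod_mul_distrib]
  apply Finset.prod_congr rfl
  rintro ⟨x, y⟩ hq
  simp only [Finset.mem_filter] at hq
  obtain ⟨_, hxy⟩ := hq
  simp only [Equiv.Perm.mul_apply]
  have hne : h x ≠ h y := fun e => hxy.ne (h.injective e)
  have hgne : g (h x) ≠ g (h y) := fun e => hne (g.injective e)
  rcases lt_or_gt_of_ne hne with hl | hl
  · rw [min_eq_left hl.le, max_eq_right hl.le, if_neg (not_lt_of_gt hl), mul_one]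
    rfl
  · rw [min_eq_right hl.le, max_eq_left hl.le, if_pos hl]
    rcases lt_or_gt_of_ne hgne with hg | hg
    · rw [if_pos hg, if_neg (not_lt_of_gt hg)]
      norm_num
    · rw [if_neg (not_lt_of_gt hg), if_pos hg]
      norm_num

end Pool.Agent.Helper495_PQ
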