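import Mathlib
import Pool.Agent.Helper495_PQ.Defs
set_option autoImplicit false
namespace Pool.Agent.Helper495_PQ

theorem h23_inv_split {Ω : Type} [LinearOrder Ω] (g : Equiv.Perm Ω) (σ : Finset Ω) (y : Ω)
    (hy : y ∈ σ) :
    ((σ ×ˢ σ).filter (fun q => q.1 < q.2 ∧ g q.2 < g q.1)).card
      = (((σ.erase y) ×ˢ (σ.erase y)).filter (fun q => q.1 < q.2 ∧ g q.2 < g q.1)).card
        + (σ.filter (fun x => x < y ∧ g y < g x)).card
        + (σ.filter (fun x => y < x ∧ g x < g y)).card := by
  classical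
  have h1 : (σ ×ˢ σ).filter (fun q => q.1 < q.2 ∧ g q.2 < g q.1)
      = (((σ.erase y) ×ˢ (σ.erase y)).filter (fun q => q.1 < q.2 ∧ g q.2 < g q.1))
        ∪ ((σ.filter (fun x => x < y ∧ g y < g x)).image (fun x => (x, y)))
        ∪ ((σ.filter (fun x => y < x ∧ g x < g y)).image (fun x => (y, x))) := by
    ext ⟨a, b⟩
    simp only [Finset.mem_filter, Finset.mem_product, Finset.mem_union, Finset.mem_erase,
      Finset.mem_image, Prod.mk.injEq]
    constructor
    · rintro ⟨⟨ha, hb⟩, hab, hg⟩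
      by_cases hay : a = y
      · subst hay
        right
        exact ⟨b, ⟨hb, hab, hg⟩, rfl, rfl⟩
      · by_cases hby : b = y
        · subst hby
          left; right
          exact ⟨a, ⟨ha, hab, hg⟩, rfl, rfl⟩
        · left; left
          exact ⟨⟨⟨hay, ha⟩, hby, hb⟩, hab, hg⟩
    · rintro ((⟨⟨⟨_, ha⟩, _, hb⟩, hab, hg⟩ | ⟨x, ⟨hx, hxy, hg⟩, rfl, rfl⟩) | ⟨x, ⟨hx, hxy, hg⟩, rfl, rfl⟩)
      · exact ⟨⟨ha, hb⟩, hab, hg⟩
      · exact ⟨⟨hx, hy⟩, hxy, hg⟩
      · exact ⟨⟨hy, hx⟩, hxy, hg⟩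
  rw [h1, Finset.card_union_of_disjoint, Finset.card_union_of_disjoint,
    Finset.card_image_of_injective, Finset.card_image_of_injective]
  · intro a b h; exact (Prod.mk.inj h).2
  · intro a b h; exact (Prod.mk.inj h).1
  · rw [Finset.disjoint_left]
    rintro ⟨a, b⟩ h2 h3
    simp only [Finset.mem_filter, Finset.mem_product, Finset.mem_erase,
      Finset.mem_image, Prod.mk.injEq] at h2 h3
    obtain ⟨x, _, _, h4⟩ := h3
    exact h2.1.2.1 h4.symm
  · rw [Finset.disjoint_left]
    rintro ⟨a, b⟩ h2 h3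
    simp only [Finset.mem_filter, Finset.mem_product, Finset.mem_erase,
      Finset.mem_image, Prod.mk.injEq, Finset.mem_union] at h2 h3
    obtain ⟨x, ⟨_, hx1, _⟩, h4, h5⟩ := h3
    rcases h2 with h2 | ⟨z, ⟨_, hz1, _⟩, h6, h7⟩
    · exact h2.1.1.1 h4.symm
    · subst h4; subst h6
      exact lt_irrefl _ hz1

theorem h23_key {Ω : Type} [LinearOrder Ω] (g : Equiv.Perm Ω) (σ : Finset Ω) (y : Ω)
    (hy : y ∈ σ) :
    eps (σ.map g.toEmbedding) (g y) * sgn g (σ.erase y) = sgn g σ * eps σ y := by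
  classical
  unfold eps sgn
  have hL' : ((σ.map g.toEmbedding).filter (· < g y)).card
      = (σ.filter (fun x => x < y ∧ g x < g y)).card
        + (σ.filter (fun x => y < x ∧ g x < g y)).card := by
    rw [Finset.filter_map, Finset.card_map, ← Finset.card_union_of_disjoint]
    · congr 1
      ext x
      simp only [Finset.mem_filter, Finset.mem_union, Function.comp, Equiv.coe_toEmbedding]
      constructor
      · rintro ⟨hx, h⟩
        rcases lt_trichotomy x y with h1 | h1 | h1
        · exact Or.inl ⟨hx, h1, h⟩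
        · subst h1; exact absurd h (lt_irrefl _)
        · exact Or.inr ⟨hx, h1, h⟩
      · rintro (⟨hx, _, h⟩ | ⟨hx, _, h⟩) <;> exact ⟨hx, h⟩
    · rw [Finset.disjoint_left]
      intro x h1 h2
      simp only [Finset.mem_filter] at h1 h2
      exact lt_asymm h1.2.1 h2.2.1
  have hL : (σ.filter (· < y)).card
      = (σ.filter (fun x => x < y ∧ g y < g x)).card
        + (σ.filter (fun x => x < y ∧ g x < g y)).card := by
    rw [← Finset.card_union_of_disjoint]
    · congr 1
      ext x
      simp only [Finset.mem_filter, Finset.mem_union]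
      constructor
      · rintro ⟨hx, h⟩
        rcases lt_trichotomy (g x) (g y) with h1 | h1 | h1
        · exact Or.inr ⟨hx, h, h1⟩
        · have := g.injective h1
          subst this; exact absurd h (lt_irrefl _)
        · exact Or.inl ⟨hx, h, h1⟩
      · rintro (⟨hx, h, _⟩ | ⟨hx, h, _⟩) <;> exact ⟨hx, h⟩
    · rw [Finset.disjoint_left]
      intro x h1 h2
      simp only [Finset.mem_filter] at h1 h2
      exact lt_asymm h1.2.2 h2.2.2
  rw [hL', hL, h23_inv_split g σ y hy, ← pow_add, ← pow_add]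
  generalize (((σ.erase y) ×ˢ (σ.erase y)).filter (fun q => q.1 < q.2 ∧ g q.2 < g q.1)).card = i
  generalize (σ.filter (fun x => x < y ∧ g y < g x)).card = A
  generalize (σ.filter (fun x => y < x ∧ g x < g y)).card = B
  generalize (σ.filter (fun x => x < y ∧ g x < g y)).card = C
  have : i + A + B + (A + C) = (C + B + i) + 2 * A := by ring
  rw [this, pow_add _ _ (2 * A), pow_mul]
  simp

theorem bd_act {Ω : Type} [LinearOrder Ω] (g : Equiv.Perm Ω) (σ τ : Finset Ω) :
    bd (σ.map g.toEmbedding) (τ.map g.toEmbedding) * sgn g τ = sgn g σ * bd σ τ := by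
  classical
  unfold bd
  rw [Finset.sum_map, Finset.sum_mul, Finset.mul_sum]
  refine Finset.sum_congr rfl fun y hy => ?_
  have h1 : (σ.map g.toEmbedding).erase (g.toEmbedding y) = (σ.erase y).map g.toEmbedding :=
    (Finset.map_erase g.toEmbedding σ y).symm
  rw [h1]
  by_cases h : σ.erase y = τ
  · subst h
    rw [if_pos rfl, if_pos rfl]
    exact h23_key g σ y hy
  · rw [if_neg h, if_neg (fun h2 => h (Finset.map_injective _ h2))]
    simp

end Pool.Agent.Helper495_PQ
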