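import Mathlib
import Pool.Agent.Helper495_PQ.Defs
set_option autoImplicit false
namespace Pool.Agent.Helper495_PQ

theorem bd_sq {Ω : Type} [LinearOrder Ω] [Fintype Ω] (σ τ : Finset Ω) :
    ∑ ρ, bd σ ρ * bd ρ τ = 0 := by
  have h493_lt : ∀ y z : Ω, y ∈ σ → y < z → eps (σ.erase y) z = - eps σ z := by
    intro y z hy hyz
    unfold eps
    have h1 : (σ.erase y).filter (· < z) = (σ.filter (· < z)).erase y := by
      ext a
      simp only [Finset.mem_filter, Finset.mem_erase]
      tauto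
    have h2 : y ∈ σ.filter (· < z) := by
      rw [Finset.mem_filter]; exact ⟨hy, hyz⟩
    rw [h1, ← Finset.card_erase_add_one h2, pow_succ]
    ring
  have h493_gt : ∀ y z : Ω, z < y → eps (σ.erase y) z = eps σ z := by
    intro y z hyz
    unfold eps
    have h1 : (σ.erase y).filter (· < z) = σ.filter (· < z) := by
      ext a
      simp only [Finset.mem_filter, Finset.mem_erase]
      constructor
      · rintro ⟨⟨_, h2⟩, h3⟩
        exact ⟨h2, h3⟩
      · rintro ⟨h2, h3⟩
        refine ⟨⟨?_, h2⟩, h3⟩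
        rintro rfl
        exact absurd (lt_trans h3 hyz) (lt_irrefl _)
    rw [h1]
  have h493_sum : ∑ ρ, bd σ ρ * bd ρ τ = ∑ y ∈ σ, eps σ y * bd (σ.erase y) τ := by
    have e1 : ∀ ρ : Finset Ω, bd σ ρ * bd ρ τ =
        ∑ y ∈ σ, if σ.erase y = ρ then eps σ y * bd ρ τ else 0 := by
      intro ρ
      rw [bd, Finset.sum_mul]
      apply Finset.sum_congr rfl
      intro y _
      split_ifs
      · rfl
      · rw [zero_mul]
    rw [Finset.sum_congr rfl (fun ρ _ => e1 ρ), Finset.sum_comm]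
    apply Finset.sum_congr rfl
    intro y _
    rw [Finset.sum_ite_eq]
    simp
  have h493_dbl : ∀ y ∈ σ, eps σ y * bd (σ.erase y) τ =
      ∑ z ∈ σ, if z ≠ y ∧ (σ.erase y).erase z = τ then eps σ y * eps (σ.erase y) z else 0 := by
    intro y hy
    have hg : ∀ g : Ω → ℤ, ∑ z ∈ σ.erase y, g z = ∑ z ∈ σ, if z ≠ y then g z else 0 := by
      intro g
      rw [← Finset.filter_ne', Finset.sum_filter]
    rw [bd, Finset.mul_sum, hg]
    apply Finset.sum_congr rfl
    intro z _
    by_cases h1 : z ≠ y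
    · by_cases h2 : (σ.erase y).erase z = τ
      · rw [if_pos h1, if_pos h2, if_pos ⟨h1, h2⟩]
      · rw [if_pos h1, if_neg h2, if_neg (fun h => h2 h.2), mul_zero]
    · rw [if_neg h1, if_neg (fun h => h1 h.1)]
  have h493_anti : ∀ y ∈ σ, ∀ z ∈ σ,
      (if z ≠ y ∧ (σ.erase y).erase z = τ then eps σ y * eps (σ.erase y) z else 0) =
      -(if y ≠ z ∧ (σ.erase z).erase y = τ then eps σ z * eps (σ.erase z) y else 0) := by
    intro y hy z hz
    have hc : (σ.erase z).erase y = (σ.erase y).erase z := Finset.erase_right_comm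
    rw [hc]
    by_cases h2 : (σ.erase y).erase z = τ
    · rcases lt_trichotomy y z with h | h | h
      · rw [if_pos ⟨h.ne', h2⟩, if_pos ⟨h.ne, h2⟩, h493_lt y z hy h, h493_gt z y h]
        ring
      · subst h
        simp
      · rw [if_pos ⟨h.ne, h2⟩, if_pos ⟨h.ne', h2⟩, h493_lt z y hz h, h493_gt y z h]
        ring
    · rw [if_neg (fun h => h2 h.2), if_neg (fun h => h2 h.2), neg_zero]
  rw [h493_sum, Finset.sum_congr rfl h493_dbl]
  have hS : ∑ y ∈ σ, ∑ z ∈ σ,
      (if z ≠ y ∧ (σ.erase y).erase z = τ then eps σ y * eps (σ.erase y) z else 0) =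
      -∑ y ∈ σ, ∑ z ∈ σ,
      (if z ≠ y ∧ (σ.erase y).erase z = τ then eps σ y * eps (σ.erase y) z else 0) := by
    conv_rhs => rw [Finset.sum_comm, ← Finset.sum_neg_distrib]
    apply Finset.sum_congr rfl
    intro y hy
    rw [← Finset.sum_neg_distrib]
    apply Finset.sum_congr rfl
    intro z hz
    exact h493_anti y hy z hz
  linarith

end Pool.Agent.Helper495_PQ
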