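import Mathlib
import Pool.Agent.Helper495_PQ.Defs
import Pool.Agent.Helper495_PQ.PB3
set_option autoImplicit false
namespace Pool.Agent.Helper495_PQ

section H508

variable {Ω : Type} [LinearOrder Ω]

/-- sign of a comparison -/
def h508s (a y : Ω) : ℤ := if a < y then -1 else 1

theorem h508s_sq (a y : Ω) : h508s a y * h508s a y = 1 := by
  unfold h508s; split_ifs <;> norm_num

theorem h508s_self (a : Ω) : h508s a a = 1 := by simp [h508s]

theorem h508s_swap {a y : Ω} (h : a ≠ y) : h508s a y = - h508s y a := by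
  unfold h508s
  rcases lt_or_gt_of_ne h with h1 | h1
  · rw [if_pos h1, if_neg (not_lt.2 h1.le)]
  · rw [if_neg (not_lt.2 h1.le), if_pos h1]; norm_num

theorem h508_eps (σ : Finset Ω) (y : Ω) : eps σ y = ∏ a ∈ σ, h508s a y := by
  unfold eps h508s
  rw [Finset.prod_ite, Finset.prod_const, Finset.prod_const_one, mul_one]

theorem h508_eps_insert {σ : Finset Ω} {w : Ω} (hw : w ∉ σ) (y : Ω) :
    eps (insert w σ) y = h508s w y * eps σ y := by
  rw [h508_eps, h508_eps, Finset.prod_insert hw]

theorem h508_eps_erase {σ : Finset Ω} {w : Ω} (hw : w ∈ σ) (y : Ω) :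
    eps (σ.erase w) y = h508s w y * eps σ y := by
  have h := h508_eps_insert (Finset.notMem_erase w σ) y
  rw [Finset.insert_erase hw] at h
  rw [h, ← mul_assoc, h508s_sq, one_mul]

theorem h508_eps_sq (σ : Finset Ω) (y : Ω) : eps σ y * eps σ y = 1 := by
  rw [h508_eps, ← Finset.prod_mul_distrib]
  exact Finset.prod_eq_one fun a _ => h508s_sq a y

variable {U : Type} [AddCommGroup U]

/-- the coboundary -/
def h508d (f : Finset Ω → U) (σ : Finset Ω) : U := ∑ y ∈ σ, eps σ y • f (σ.erase y)

theorem h508_sum_bd [Fintype Ω] (f : Finset Ω → U) (σ : Finset Ω) :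
    ∑ τ, bd σ τ • f τ = h508d f σ := by
  unfold bd h508d
  simp_rw [Finset.sum_smul, ite_smul, zero_smul]
  rw [Finset.sum_comm]
  refine Finset.sum_congr rfl fun y _ => ?_
  rw [Finset.sum_ite_eq, if_pos (Finset.mem_univ _)]

theorem h508_dd [Fintype Ω] (f : Finset Ω → U) (σ : Finset Ω) : h508d (h508d f) σ = 0 := by
  rw [← h508_sum_bd]
  have h : ∀ τ, bd σ τ • h508d f τ = ∑ ρ, (bd σ τ * bd τ ρ) • f ρ := by
    intro τ
    rw [← h508_sum_bd, Finset.smul_sum]
    exact Finset.sum_congr rfl fun ρ _ => by rw [mul_smul]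
  simp_rw [h]
  rw [Finset.sum_comm]
  refine Finset.sum_eq_zero fun ρ _ => ?_
  rw [← Finset.sum_smul, bd_sq, zero_smul]

theorem h508d_congr {f g : Finset Ω → U} {σ : Finset Ω}
    (h : ∀ y ∈ σ, f (σ.erase y) = g (σ.erase y)) : h508d f σ = h508d g σ :=
  Finset.sum_congr rfl fun y hy => by rw [h y hy]

theorem h508d_add (f g : Finset Ω → U) (σ : Finset Ω) :
    h508d (fun τ => f τ + g τ) σ = h508d f σ + h508d g σ := by
  unfold h508d
  rw [← Finset.sum_add_distrib]
  exact Finset.sum_congr rfl fun y _ => smul_add _ _ _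

theorem h508d_sub (f g : Finset Ω → U) (σ : Finset Ω) :
    h508d (fun τ => f τ - g τ) σ = h508d f σ - h508d g σ := by
  unfold h508d
  rw [← Finset.sum_sub_distrib]
  exact Finset.sum_congr rfl fun y _ => smul_sub _ _ _

theorem h508d_zero {f : Finset Ω → U} {σ : Finset Ω} (h : ∀ y ∈ σ, f (σ.erase y) = 0) :
    h508d f σ = 0 := Finset.sum_eq_zero fun y hy => by rw [h y hy, smul_zero]

/-- the cone homotopy -/
def h508h (w : Ω) (f : Finset Ω → U) (σ : Finset Ω) : U :=
  if w ∈ σ then 0 else eps (insert w σ) w • f (insert w σ)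

theorem h508_hom (w : Ω) (f : Finset Ω → U) (σ : Finset Ω) :
    h508d (h508h w f) σ + h508h w (h508d f) σ = f σ := by
  by_cases hw : w ∈ σ
  · have h1 : h508h w (h508d f) σ = 0 := if_pos hw
    rw [h1, add_zero]
    unfold h508d
    rw [Finset.sum_eq_single_of_mem w hw]
    · have h2 : h508h w f (σ.erase w) = eps σ w • f σ := by
        unfold h508h
        rw [if_neg (Finset.notMem_erase w σ), Finset.insert_erase hw]
      rw [h2, ← mul_smul, h508_eps_sq, one_smul]
    · intro y hy hyw
      have h2 : h508h w f (σ.erase y) = 0 := if_pos (Finset.mem_erase.2 ⟨fun h => hyw h.symm, hw⟩)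
      rw [h2, smul_zero]
  · have h1 : h508h w (h508d f) σ = eps σ w • (eps σ w • f σ +
        ∑ y ∈ σ, (h508s w y * eps σ y) • f ((insert w σ).erase y)) := by
      have h2 : eps (insert w σ) w = eps σ w := by
        rw [h508_eps_insert hw, h508s_self, one_mul]
      unfold h508h
      rw [if_neg hw, h2]
      congr 1
      unfold h508d
      rw [Finset.sum_insert hw, h2, Finset.erase_insert hw]
      congr 1
      exact Finset.sum_congr rfl fun y _ => by rw [h508_eps_insert hw]
    rw [h1, smul_add, ← mul_smul, h508_eps_sq, one_smul, Finset.smul_sum]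
    have h3 : h508d (h508h w f) σ =
        ∑ y ∈ σ, (eps σ y * (h508s y w * eps σ w)) • f ((insert w σ).erase y) := by
      unfold h508d
      refine Finset.sum_congr rfl fun y hy => ?_
      have hyw : w ≠ y := fun h => hw (h ▸ hy)
      have h4 : w ∉ σ.erase y := fun h => hw (Finset.mem_of_mem_erase h)
      have h5 : h508h w f (σ.erase y) = (h508s y w * eps σ w) • f ((insert w σ).erase y) := by
        unfold h508h
        rw [if_neg h4, h508_eps_insert h4, h508s_self, one_mul, h508_eps_erase hy,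
          Finset.erase_insert_of_ne hyw]
      rw [h5, ← mul_smul]
    have h6 : ∑ y ∈ σ, (eps σ y * (h508s y w * eps σ w)) • f ((insert w σ).erase y) +
        ∑ y ∈ σ, eps σ w • (h508s w y * eps σ y) • f ((insert w σ).erase y) = 0 := by
      rw [← Finset.sum_add_distrib]
      refine Finset.sum_eq_zero fun y hy => ?_
      have hyw : w ≠ y := fun h => hw (h ▸ hy)
      rw [← mul_smul, ← add_smul, h508s_swap hyw]
      have : eps σ y * (h508s y w * eps σ w) + eps σ w * (-h508s y w * eps σ y) = 0 := by ring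
      rw [this, zero_smul]
    rw [h3, add_left_comm, h6, add_zero]

end H508

section H508b

variable {Ω B : Type} [Fintype Ω] [LinearOrder Ω]

/-- sets over `T` containing no fibre over `T` -/
def h508g (π : Ω → B) (T : Finset B) (σ : Finset Ω) : Prop :=
  (∀ ω ∈ σ, π ω ∈ T) ∧ ∀ b ∈ T, ∃ ω, π ω = b ∧ ω ∉ σ

theorem h508g_mono {π : Ω → B} {T : Finset B} {σ τ : Finset Ω} (h : h508g π T σ) (hs : τ ⊆ σ) :
    h508g π T τ :=
  ⟨fun ω hω => h.1 ω (hs hω), fun b hb => by
    obtain ⟨ω, h1, h2⟩ := h.2 b hb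
    exact ⟨ω, h1, fun h3 => h2 (hs h3)⟩⟩

open Classical in
/-- the fibre -/
noncomputable def h508Y (π : Ω → B) (b : B) : Finset Ω := Finset.univ.filter (fun ω => π ω = b)

theorem h508Y_mem {π : Ω → B} {b : B} {ω : Ω} : ω ∈ h508Y π b ↔ π ω = b := by
  simp [h508Y]

/-- the size of the facets -/
noncomputable def h508m (π : Ω → B) (T : Finset B) : ℕ := ∑ b ∈ T, ((h508Y π b).card - 1)

theorem h508_low (π : Ω → B) (hπ : Function.Surjective π) (T : Finset B) :
    ∀ (U : Type) [AddCommGroup U] (f : Finset Ω → U),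
      (∀ σ, f σ ≠ 0 → h508g π T σ ∧ σ.card < h508m π T) →
      (∀ σ, h508g π T σ → h508d f σ = 0) →
      ∃ ψ : Finset Ω → U, (∀ σ, ψ σ ≠ 0 → h508g π T σ) ∧
        ∀ σ, h508g π T σ → h508d ψ σ = f σ := by
  classical
  induction T using Finset.induction_on with
  | empty =>
    intro U _ f hf _
    have h0 : ∀ σ, f σ = 0 := by
      intro σ
      by_contra h
      have := (hf σ h).2
      simp [h508m] at this
    refine ⟨fun _ => 0, fun σ h => absurd rfl h, fun σ _ => ?_⟩
    rw [h0, h508d_zero fun _ _ => rfl]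
  | insert b T hb ih =>
    intro U _ f hf hd
    obtain ⟨w, hw⟩ := hπ b
    set Yw := (h508Y π b).erase w with hYw
    have hYmem : ∀ y, y ∈ Yw ↔ π y = b ∧ y ≠ w := by
      intro y
      rw [hYw, Finset.mem_erase, h508Y_mem, and_comm]
    have hwY : w ∉ Yw := fun h => ((hYmem w).1 h).2 rfl
    have hYcard : Yw.card = (h508Y π b).card - 1 := by
      rw [hYw, Finset.card_erase_of_mem (h508Y_mem.2 hw)]
    have hm : h508m π (insert b T) = h508m π T + Yw.card := by
      unfold h508m
      rw [Finset.sum_insert hb, hYcard, add_comm]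
    -- type 0 sets
    have add_w : ∀ σ, h508g π (insert b T) σ → ¬ Yw ⊆ σ → h508g π (insert b T) (insert w σ) := by
      intro σ hσ hY
      refine ⟨fun ω hω => ?_, fun b' hb' => ?_⟩
      · rcases Finset.mem_insert.1 hω with rfl | h
        · rw [hw]; exact Finset.mem_insert_self _ _
        · exact hσ.1 ω h
      · by_cases hbb : b' = b
        · subst hbb
          obtain ⟨y, hy1, hy2⟩ := Finset.not_subset.1 hY
          obtain ⟨hy3, hy4⟩ := (hYmem y).1 hy1
          exact ⟨y, hy3, fun h => (Finset.mem_insert.1 h).elim hy4 hy2⟩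
        · obtain ⟨ω, h1, h2⟩ := hσ.2 b' hb'
          refine ⟨ω, h1, fun h => ?_⟩
          rcases Finset.mem_insert.1 h with rfl | h
          · exact hbb (h1.symm.trans hw)
          · exact h2 h
    set ψ0 : Finset Ω → U := fun ρ =>
      if h508g π (insert b T) ρ ∧ ¬ Yw ⊆ ρ then h508h w f ρ else 0 with hψ0
    have hψ0d : ∀ σ, h508g π (insert b T) σ → ¬ Yw ⊆ σ → h508d ψ0 σ = f σ := by
      intro σ hσ hY
      have h1 : h508d ψ0 σ = h508d (h508h w f) σ := by
        refine h508d_congr fun y hy => ?_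
        simp only [hψ0]
        rw [if_pos ⟨h508g_mono hσ (Finset.erase_subset _ _),
          fun h => hY (h.trans (Finset.erase_subset _ _))⟩]
      have h2 : h508h w (h508d f) σ = 0 := by
        unfold h508h
        by_cases hws : w ∈ σ
        · rw [if_pos hws]
        · rw [if_neg hws, hd _ (add_w σ hσ hY), smul_zero]
      have h3 := h508_hom w f σ
      rw [h2, add_zero] at h3
      rw [h1, h3]
    have hψ0c : ∀ ρ, ψ0 ρ ≠ 0 → h508g π (insert b T) ρ ∧ ρ.card + 1 < h508m π (insert b T) := by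
      intro ρ hρ
      simp only [hψ0] at hρ
      by_cases h1 : h508g π (insert b T) ρ ∧ ¬ Yw ⊆ ρ
      · rw [if_pos h1] at hρ
        unfold h508h at hρ
        by_cases h2 : w ∈ ρ
        · rw [if_pos h2] at hρ; exact absurd rfl hρ
        · rw [if_neg h2] at hρ
          have h3 : f (insert w ρ) ≠ 0 := fun h => hρ (by rw [h, smul_zero])
          have h4 := (hf _ h3).2
          rw [Finset.card_insert_of_notMem h2] at h4
          exact ⟨h1.1, h4⟩
      · rw [if_neg h1] at hρ; exact absurd rfl hρ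
    set f1 : Finset Ω → U := fun σ =>
      if h508g π (insert b T) σ then f σ - h508d ψ0 σ else 0 with hf1
    have hf1_0 : ∀ σ, ¬ Yw ⊆ σ → f1 σ = 0 := by
      intro σ hY
      simp only [hf1]
      by_cases h1 : h508g π (insert b T) σ
      · rw [if_pos h1, hψ0d σ h1 hY, sub_self]
      · rw [if_neg h1]
    have hf1_c : ∀ σ, f1 σ ≠ 0 → σ.card < h508m π (insert b T) := by
      intro σ hσ
      by_contra hc
      apply hσ
      simp only [hf1]
      by_cases h1 : h508g π (insert b T) σ
      · rw [if_pos h1]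
        have h2 : f σ = 0 := by
          by_contra h
          exact hc (hf σ h).2
        have h3 : h508d ψ0 σ = 0 := by
          refine h508d_zero fun y hy => ?_
          by_contra h
          have h4 := (hψ0c _ h).2
          rw [Finset.card_erase_add_one hy] at h4
          exact hc h4
        rw [h2, h3, sub_self]
      · rw [if_neg h1]
    have hf1_d : ∀ σ, h508g π (insert b T) σ → h508d f1 σ = 0 := by
      intro σ hσ
      have h1 : h508d f1 σ = h508d (fun τ => f τ - h508d ψ0 τ) σ := by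
        refine h508d_congr fun y hy => ?_
        simp only [hf1]
        rw [if_pos (h508g_mono hσ (Finset.erase_subset _ _))]
      rw [h1, h508d_sub, hd σ hσ, h508_dd, sub_self]
    -- signs
    set u : Finset Ω → ℤ := fun τ => ∏ x ∈ τ, eps Yw x with hu
    have hu_sq : ∀ τ, u τ * u τ = 1 := by
      intro τ
      simp only [hu]
      rw [← Finset.prod_mul_distrib]
      exact Finset.prod_eq_one fun a _ => h508_eps_sq Yw a
    have hu_erase : ∀ τ y, y ∈ τ → u τ = eps Yw y * u (τ.erase y) := by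
      intro τ y hy
      simp only [hu]
      rw [← Finset.mul_prod_erase τ _ hy]
    have hdisj : ∀ τ, h508g π T τ → Disjoint τ Yw := by
      intro τ hτ
      rw [Finset.disjoint_left]
      intro a ha haY
      exact hb (((hYmem a).1 haY).1 ▸ hτ.1 a ha)
    have heps : ∀ τ, h508g π T τ → ∀ y, eps (τ ∪ Yw) y = eps τ y * eps Yw y := by
      intro τ hτ y
      rw [h508_eps, h508_eps, h508_eps, Finset.prod_union (hdisj τ hτ)]
    have hgood1 : ∀ τ, h508g π T τ → h508g π (insert b T) (τ ∪ Yw) := by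
      intro τ hτ
      refine ⟨fun ω hω => ?_, fun b' hb' => ?_⟩
      · rcases Finset.mem_union.1 hω with h | h
        · exact Finset.mem_insert_of_mem (hτ.1 ω h)
        · rw [((hYmem ω).1 h).1]; exact Finset.mem_insert_self _ _
      · rcases Finset.mem_insert.1 hb' with rfl | hb''
        · refine ⟨w, hw, fun h => ?_⟩
          rcases Finset.mem_union.1 h with h | h
          · exact hb (hw ▸ hτ.1 w h)
          · exact hwY h
        · obtain ⟨ω, h1, h2⟩ := hτ.2 b' hb''
          refine ⟨ω, h1, fun h => ?_⟩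
          rcases Finset.mem_union.1 h with h | h
          · exact h2 h
          · have h3 := ((hYmem ω).1 h).1
            rw [h1] at h3
            exact hb (h3 ▸ hb'')
    have hgood2 : ∀ σ, h508g π (insert b T) σ → Yw ⊆ σ → h508g π T (σ \ Yw) ∧ σ \ Yw ∪ Yw = σ := by
      intro σ hσ hY
      have hwσ : w ∉ σ := by
        intro h
        obtain ⟨ω, h1, h2⟩ := hσ.2 b (Finset.mem_insert_self _ _)
        by_cases hωw : ω = w
        · exact h2 (hωw ▸ h)
        · exact h2 (hY ((hYmem ω).2 ⟨h1, hωw⟩))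
      refine ⟨⟨fun ω hω => ?_, fun b' hb' => ?_⟩, Finset.sdiff_union_of_subset hY⟩
      · obtain ⟨h1, h2⟩ := Finset.mem_sdiff.1 hω
        rcases Finset.mem_insert.1 (hσ.1 ω h1) with h | h
        · exfalso
          exact h2 ((hYmem ω).2 ⟨h, fun h3 => hwσ (h3 ▸ h1)⟩)
        · exact h
      · obtain ⟨ω, h1, h2⟩ := hσ.2 b' (Finset.mem_insert_of_mem hb')
        exact ⟨ω, h1, fun h => h2 (Finset.mem_sdiff.1 h).1⟩
    have herase1 : ∀ τ, h508g π T τ → ∀ y ∈ τ, (τ ∪ Yw).erase y = τ.erase y ∪ Yw := by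
      intro τ hτ y hy
      have hy' : y ∉ Yw := Finset.disjoint_left.1 (hdisj τ hτ) hy
      rw [Finset.erase_union_distrib, Finset.erase_eq_of_notMem hy']
    have herase2 : ∀ τ, h508g π T τ → ∀ y ∈ Yw, ¬ Yw ⊆ (τ ∪ Yw).erase y := by
      intro τ _ y hy h
      exact Finset.notMem_erase y _ (h hy)
    -- transfer of coboundaries
    have key : ∀ (F : Finset Ω → U) (G : Finset Ω → U), (∀ σ, ¬ Yw ⊆ σ → F σ = 0) →
        (∀ τ, h508g π T τ → G τ = u τ • F (τ ∪ Yw)) → ∀ τ, h508g π T τ →
        h508d G τ = u τ • h508d F (τ ∪ Yw) := by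
      intro F G hF hG τ hτ
      unfold h508d
      rw [Finset.sum_union (hdisj τ hτ), Finset.sum_eq_zero (s := Yw), add_zero, Finset.smul_sum]
      · refine Finset.sum_congr rfl fun y hy => ?_
        rw [hG _ (h508g_mono hτ (Finset.erase_subset _ _)), herase1 τ hτ y hy, heps τ hτ,
          ← mul_smul, ← mul_smul, hu_erase τ y hy]
        congr 1
        have := h508_eps_sq Yw y
        calc eps τ y * u (τ.erase y) = eps τ y * u (τ.erase y) * (eps Yw y * eps Yw y) := by
              rw [this, mul_one]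
          _ = eps Yw y * u (τ.erase y) * (eps τ y * eps Yw y) := by ring
      · intro y hy
        rw [hF _ (herase2 τ hτ y hy), smul_zero]
    set g : Finset Ω → U := fun τ => if h508g π T τ then u τ • f1 (τ ∪ Yw) else 0 with hg
    have hgT : ∀ τ, h508g π T τ → g τ = u τ • f1 (τ ∪ Yw) := fun τ hτ => if_pos hτ
    have hg_c : ∀ τ, g τ ≠ 0 → h508g π T τ ∧ τ.card < h508m π T := by
      intro τ hτ
      have h1 : h508g π T τ := by
        by_contra h
        exact hτ (if_neg h)
      refine ⟨h1, ?_⟩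
      rw [hgT τ h1] at hτ
      have h2 : f1 (τ ∪ Yw) ≠ 0 := fun h => hτ (by rw [h, smul_zero])
      have h3 := hf1_c _ h2
      rw [Finset.card_union_of_disjoint (hdisj τ h1), hm] at h3
      omega
    have hg_d : ∀ τ, h508g π T τ → h508d g τ = 0 := by
      intro τ hτ
      rw [key f1 g hf1_0 hgT τ hτ, hf1_d _ (hgood1 τ hτ), smul_zero]
    obtain ⟨ψ1, hψ1, hψ1d⟩ := ih U g hg_c hg_d
    set ψ2 : Finset Ω → U := fun σ =>
      if h508g π (insert b T) σ ∧ Yw ⊆ σ then u (σ \ Yw) • ψ1 (σ \ Yw) else 0 with hψ2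
    have hψ2_0 : ∀ σ, ¬ Yw ⊆ σ → ψ2 σ = 0 := fun σ h => if_neg fun h' => h h'.2
    have hψ2_1 : ∀ τ, h508g π T τ → ψ1 τ = u τ • ψ2 (τ ∪ Yw) := by
      intro τ hτ
      have h1 : (τ ∪ Yw) \ Yw = τ := Finset.union_sdiff_cancel_right (hdisj τ hτ)
      have h2 : ψ2 (τ ∪ Yw) = u τ • ψ1 τ := by
        simp only [hψ2]
        rw [if_pos ⟨hgood1 τ hτ, Finset.subset_union_right⟩, h1]
      rw [h2, ← mul_smul, hu_sq, one_smul]
    have hψ2d : ∀ σ, h508g π (insert b T) σ → h508d ψ2 σ = f1 σ := by
      intro σ hσ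
      by_cases hY : Yw ⊆ σ
      · obtain ⟨h1, h2⟩ := hgood2 σ hσ hY
        have h3 := key ψ2 ψ1 hψ2_0 hψ2_1 _ h1
        rw [hψ1d _ h1, hgT _ h1, h2] at h3
        have h4 := congrArg (fun v => u (σ \ Yw) • v) h3
        simp only [← mul_smul, hu_sq, one_smul] at h4
        exact h4.symm
      · rw [hf1_0 σ hY]
        exact h508d_zero fun y _ => hψ2_0 _ fun h => hY (h.trans (Finset.erase_subset _ _))
    refine ⟨fun σ => ψ0 σ + ψ2 σ, fun σ hσ => ?_, fun σ hσ => ?_⟩
    · by_contra h
      apply hσ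
      have h1 : ψ0 σ = 0 := by
        by_contra h'
        exact h (hψ0c σ h').1
      have h2 : ψ2 σ = 0 := if_neg fun h' => h h'.1
      show ψ0 σ + ψ2 σ = 0
      rw [h1, h2, add_zero]
    · rw [h508d_add, hψ2d σ hσ]
      simp only [hf1]
      rw [if_pos hσ, add_sub_cancel]

end H508b

section H508c

variable {Ω B : Type} [Fintype Ω] [LinearOrder Ω]

/-- sign of a pair -/
def h508c (q : Ω → ℕ) (z z' : Ω) : ℤ := if z < z' ∧ q z' < q z then -1 else 1

/-- total sign of a position -/
def h508A (y : Ω) : ℤ := ∏ ω : Ω, h508s ω y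

/-- sign of the complement of a facet -/
def h508k (q : Ω → ℕ) (X : Finset Ω) : ℤ := ∏ z ∈ X, (h508A z * ∏ z' ∈ X, h508c q z z')

theorem h508c_sq (q : Ω → ℕ) (z z' : Ω) : h508c q z z' * h508c q z z' = 1 := by
  unfold h508c; split_ifs <;> norm_num

theorem h508A_sq (y : Ω) : h508A y * h508A y = 1 := by
  unfold h508A
  rw [← Finset.prod_mul_distrib]
  exact Finset.prod_eq_one fun a _ => h508s_sq a y

theorem h508k_sq (q : Ω → ℕ) (X : Finset Ω) : h508k q X * h508k q X = 1 := by
  unfold h508k
  rw [← Finset.prod_mul_distrib]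
  refine Finset.prod_eq_one fun z _ => ?_
  rw [mul_mul_mul_comm, h508A_sq, one_mul, ← Finset.prod_mul_distrib]
  exact Finset.prod_eq_one fun a _ => h508c_sq q z a

theorem h508k_insert (q : Ω → ℕ) {a : Ω} {Z : Finset Ω} (ha : a ∉ Z) :
    h508k q (insert a Z) =
      h508A a * (∏ z ∈ Z, (h508c q a z * h508c q z a)) * h508k q Z := by
  have h0 : h508c q a a = 1 := by simp [h508c]
  unfold h508k
  rw [Finset.prod_insert ha, Finset.prod_insert ha, h0, one_mul]
  have h1 : ∏ z ∈ Z, (h508A z * ∏ z' ∈ insert a Z, h508c q z z') =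
      (∏ z ∈ Z, h508c q z a) * ∏ z ∈ Z, (h508A z * ∏ z' ∈ Z, h508c q z z') := by
    rw [← Finset.prod_mul_distrib]
    refine Finset.prod_congr rfl fun z _ => ?_
    rw [Finset.prod_insert ha]
    ring
  have h2 : ∏ z ∈ Z, (h508c q a z * h508c q z a) =
      (∏ z ∈ Z, h508c q a z) * ∏ z ∈ Z, h508c q z a := Finset.prod_mul_distrib
  rw [h1, h2]
  ring

theorem h508_cc (q : Ω → ℕ) {a z : Ω} (h1 : z ≠ a) (h2 : q z ≠ q a) :
    h508c q a z * h508c q z a = h508s z a * (if q z < q a then -1 else 1) := by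
  unfold h508c h508s
  rcases lt_or_gt_of_ne h1 with h | h <;> rcases lt_or_gt_of_ne h2 with h' | h'
  · simp [h, h', not_lt.2 h.le, not_lt.2 h'.le]
  · simp [h, h', not_lt.2 h.le, not_lt.2 h'.le]
  · simp [h, h', not_lt.2 h.le, not_lt.2 h'.le]
  · simp [h, h', not_lt.2 h.le, not_lt.2 h'.le]

/-- the sign computation at a ridge -/
theorem h508_ridge (q : Ω → ℕ) {a b : Ω} {Z τ : Finset Ω} (hab : a ≠ b) (hq : q a = q b)
    (ha : a ∉ Z) (hb : b ∉ Z) (hZ : ∀ z ∈ Z, q z ≠ q a) (hτ : τᶜ = insert a (insert b Z)) :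
    h508k q (insert b Z) * eps (insert a τ) a + h508k q (insert a Z) * eps (insert b τ) b = 0 := by
  have haτ : a ∉ τ := by
    rw [← Finset.mem_compl, hτ]; exact Finset.mem_insert_self _ _
  have hbτ : b ∉ τ := by
    rw [← Finset.mem_compl, hτ]; exact Finset.mem_insert_of_mem (Finset.mem_insert_self _ _)
  have hA : ∀ y, h508A y = eps τ y * (h508s a y * (h508s b y * ∏ z ∈ Z, h508s z y)) := by
    intro y
    unfold h508A
    rw [← Finset.prod_mul_prod_compl τ, hτ, h508_eps, Finset.prod_insert, Finset.prod_insert hb]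
    simp only [Finset.mem_insert, not_or]
    exact ⟨hab, ha⟩
  have hsq : ∀ y, (∏ z ∈ Z, h508s z y) * ∏ z ∈ Z, h508s z y = 1 := by
    intro y
    rw [← Finset.prod_mul_distrib]
    exact Finset.prod_eq_one fun z _ => h508s_sq z y
  have e1 : ∏ z ∈ Z, (h508c q a z * h508c q z a) =
      (∏ z ∈ Z, h508s z a) * ∏ z ∈ Z, (if q z < q a then -1 else 1) := by
    rw [← Finset.prod_mul_distrib]
    exact Finset.prod_congr rfl fun z hz =>
      h508_cc q (by rintro rfl; exact ha hz) (hZ z hz)
  have e2 : ∏ z ∈ Z, (h508c q b z * h508c q z b) =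
      (∏ z ∈ Z, h508s z b) * ∏ z ∈ Z, (if q z < q a then -1 else 1) := by
    rw [← Finset.prod_mul_distrib]
    refine Finset.prod_congr rfl fun z hz => ?_
    rw [h508_cc q (by rintro rfl; exact hb hz) (hq ▸ hZ z hz), hq]
  rw [h508k_insert q ha, h508k_insert q hb, e1, e2, h508_eps_insert haτ, h508_eps_insert hbτ,
    hA a, hA b, h508s_self, h508s_self, h508s_swap hab]
  have s1 := hsq a
  have s2 := hsq b
  have s3 := h508_eps_sq τ a
  have s4 := h508_eps_sq τ b
  generalize (∏ z ∈ Z, h508s z a) = Pa at *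
  generalize (∏ z ∈ Z, h508s z b) = Pb at *
  generalize (∏ z ∈ Z, (if q z < q a then (-1 : ℤ) else 1)) = Q
  generalize eps τ a = ea at *
  generalize eps τ b = eb at *
  generalize h508s b a = sba
  generalize h508k q Z = K
  linear_combination (-sba * Q * K * ea * eb) * s2 + (sba * Q * K * ea * eb) * s1

theorem h508_bd_insert {a : Ω} {τ : Finset Ω} (ha : a ∉ τ) :
    bd (insert a τ) τ = eps (insert a τ) a := by
  unfold bd
  rw [Finset.sum_eq_single_of_mem a (Finset.mem_insert_self a τ)]
  · rw [if_pos (Finset.erase_insert ha)]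
  · intro y hy hya
    rw [if_neg]
    intro h
    have h1 : y ∈ τ := (Finset.mem_insert.1 hy).resolve_left hya
    rw [← h] at h1
    exact Finset.notMem_erase y _ h1

theorem h508_bd_ne {σ τ : Finset Ω} (h : bd σ τ ≠ 0) : ∃ y, y ∉ τ ∧ σ = insert y τ := by
  unfold bd at h
  obtain ⟨y, hy, hne⟩ := Finset.exists_ne_zero_of_sum_ne_zero h
  have h1 : σ.erase y = τ := by
    by_contra h'
    exact hne (if_neg h')
  refine ⟨y, ?_, ?_⟩
  · rw [← h1]; exact Finset.notMem_erase y σ
  · rw [← h1, Finset.insert_erase hy]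

variable [Fintype B]

/-- the facet given by a section -/
def h508F (π : Ω → B) (x : B → Ω) : Finset Ω := Finset.univ.filter (fun ω => x (π ω) ≠ ω)

theorem h508F_mem {π : Ω → B} {x : B → Ω} {ω : Ω} : ω ∈ h508F π x ↔ x (π ω) ≠ ω := by
  simp [h508F]

/-- facets -/
def h508f (π : Ω → B) (σ : Finset Ω) : Prop :=
  good π σ ∧ σ.card + Fintype.card B = Fintype.card Ω

theorem h508_card_le {π : Ω → B} {σ : Finset Ω} (h : good π σ) :
    σ.card + Fintype.card B ≤ Fintype.card Ω := by
  classical
  choose x hx1 hx2 using h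
  have hinj : Function.Injective x := fun b b' hb => by rw [← hx1 b, ← hx1 b', hb]
  have h1 : (Finset.univ.image x) ⊆ σᶜ := by
    intro ω hω
    obtain ⟨b, -, rfl⟩ := Finset.mem_image.1 hω
    exact Finset.mem_compl.2 (hx2 b)
  have h2 := Finset.card_le_card h1
  rw [Finset.card_image_of_injective _ hinj, Finset.card_univ, Finset.card_compl] at h2
  have h3 := Finset.card_le_univ σ
  omega

theorem h508f_exists {π : Ω → B} {σ : Finset Ω} (h : h508f π σ) :
    ∃ x : B → Ω, (∀ b, π (x b) = b) ∧ σ = h508F π x := by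
  classical
  obtain ⟨hg, hc⟩ := h
  choose x hx1 hx2 using hg
  refine ⟨x, hx1, ?_⟩
  have hinj : Function.Injective x := fun b b' hb => by rw [← hx1 b, ← hx1 b', hb]
  have h1 : (Finset.univ.image x) ⊆ σᶜ := by
    intro ω hω
    obtain ⟨b, -, rfl⟩ := Finset.mem_image.1 hω
    exact Finset.mem_compl.2 (hx2 b)
  have h2 : Finset.univ.image x = σᶜ := by
    refine Finset.eq_of_subset_of_card_le h1 ?_
    rw [Finset.card_image_of_injective _ hinj, Finset.card_univ, Finset.card_compl]
    omega
  ext ω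
  rw [h508F_mem]
  constructor
  · intro hω h
    exact hx2 (π ω) (by rw [h]; exact hω)
  · intro hω
    by_contra hc'
    have h3 : ω ∈ Finset.univ.image x := by
      rw [h2]; exact Finset.mem_compl.2 hc'
    obtain ⟨b, -, rfl⟩ := Finset.mem_image.1 h3
    exact hω (by rw [hx1])

theorem h508f_F {π : Ω → B} {x : B → Ω} (hx : ∀ b, π (x b) = b) : h508f π (h508F π x) := by
  classical
  have hinj : Function.Injective x := fun b b' hb => by rw [← hx b, ← hx b', hb]
  refine ⟨fun b => ⟨x b, hx b, ?_⟩, ?_⟩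
  · rw [h508F_mem, hx]
    exact fun h => h rfl
  · have h1 : (h508F π x)ᶜ = Finset.univ.image x := by
      ext ω
      rw [Finset.mem_compl, h508F_mem, not_not, Finset.mem_image]
      constructor
      · intro h; exact ⟨π ω, Finset.mem_univ _, h⟩
      · rintro ⟨b, -, rfl⟩
        rw [hx]
    have h2 := congrArg Finset.card h1
    rw [Finset.card_image_of_injective _ hinj, Finset.card_univ, Finset.card_compl] at h2
    have h3 := Finset.card_le_univ (h508F π x)
    omega

/-- the two facets at a ridge -/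
theorem h508_two (π : Ω → B) (r : B → ℕ) (hr : Function.Injective r) {x : B → Ω}
    (hx : ∀ b, π (x b) = b) {a : Ω} (ha : x (π a) ≠ a) [DecidableEq B] :
    let σ0 := h508F π x
    let σ1 := h508F π (Function.update x (π a) a)
    let τ := σ0.erase a
    (∀ b, π (Function.update x (π a) a b) = b) ∧ σ0 ≠ σ1 ∧
    (∀ σ, good π σ → bd σ τ ≠ 0 → σ = σ0 ∨ σ = σ1) ∧
    h508k (fun ω => r (π ω)) σ0ᶜ * bd σ0 τ + h508k (fun ω => r (π ω)) σ1ᶜ * bd σ1 τ = 0 ∧
    bd σ0 τ * bd σ0 τ = 1 := by
  intro σ0 σ1 τ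
  set b := x (π a) with hb
  have hπb : π b = π a := hx (π a)
  have hx' : ∀ c, π (Function.update x (π a) a c) = c := by
    intro c
    by_cases hc : c = π a
    · rw [hc, Function.update_self]
    · rw [Function.update_of_ne hc, hx]
  have haσ : a ∈ σ0 := h508F_mem.2 ha
  have hbσ : b ∉ σ0 := by
    intro h
    exact h508F_mem.1 h (by rw [hπb])
  have hbτ : b ∉ τ := fun h => hbσ (Finset.mem_of_mem_erase h)
  have haτ : a ∉ τ := Finset.notMem_erase a σ0
  have hσ0 : σ0 = insert a τ := (Finset.insert_erase haσ).symm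
  have hσ1 : σ1 = insert b τ := by
    ext ω
    rw [h508F_mem, Finset.mem_insert, Finset.mem_erase, h508F_mem]
    by_cases hω : π ω = π a
    · rw [hω, Function.update_self]
      constructor
      · intro h
        by_cases h' : ω = b
        · exact Or.inl h'
        · exact Or.inr ⟨fun h'' => h h''.symm, fun h'' => h' h''.symm⟩
      · rintro (h | h)
        · rw [h]; exact fun h' => ha h'.symm
        · exact fun h' => h.1 h'.symm
    · rw [Function.update_of_ne hω]
      constructor
      · intro h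
        exact Or.inr ⟨fun h' => hω (by rw [h']), h⟩
      · rintro (h | h)
        · exact absurd (by rw [h, hπb]) hω
        · exact h.2
  refine ⟨hx', ?_, ?_, ?_, ?_⟩
  · intro h
    rw [hσ1] at h
    have : b ∈ σ0 := by rw [h]; exact Finset.mem_insert_self _ _
    exact hbσ this
  · intro σ hg hne
    obtain ⟨c, hc, rfl⟩ := h508_bd_ne hne
    by_cases hca : c = a
    · left; rw [hca, ← hσ0]
    · right
      have hcσ : c ∉ σ0 := fun h => hc (Finset.mem_erase.2 ⟨hca, h⟩)
      have hxc : x (π c) = c := by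
        by_contra h
        exact hcσ (h508F_mem.2 h)
      by_cases hπc : π c = π a
      · have : c = b := by rw [← hxc, hπc]
        rw [this, hσ1]
      · exfalso
        obtain ⟨ω, h1, h2⟩ := hg (π c)
        rw [Finset.mem_insert, not_or, Finset.mem_erase, not_and_or, not_not] at h2
        rcases h2.2 with h3 | h3
        · exact hπc (by rw [← h1, h3])
        · have h4 : x (π ω) = ω := by
            by_contra h
            exact h3 (h508F_mem.2 h)
          rw [h1, hxc] at h4
          exact h2.1 h4.symm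
  · set Z := (σ0ᶜ).erase b with hZ
    have hbc : b ∈ σ0ᶜ := Finset.mem_compl.2 hbσ
    have e0 : σ0ᶜ = insert b Z := (Finset.insert_erase hbc).symm
    have haZ : a ∉ Z := fun h => (Finset.mem_compl.1 (Finset.mem_of_mem_erase h)) haσ
    have hbZ : b ∉ Z := Finset.notMem_erase b _
    have e1 : σ1ᶜ = insert a Z := by
      rw [hσ1]
      ext ω
      rw [Finset.mem_compl, Finset.mem_insert, Finset.mem_insert, Finset.mem_erase,
        Finset.mem_erase, Finset.mem_compl, not_or, not_and_or, not_not]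
      constructor
      · rintro ⟨h1, h2 | h2⟩
        · exact Or.inl h2
        · exact Or.inr ⟨h1, h2⟩
      · rintro (h | ⟨h1, h2⟩)
        · exact ⟨fun h' => ha (h' ▸ h), Or.inl h⟩
        · exact ⟨h1, Or.inr h2⟩
    have e2 : τᶜ = insert a (insert b Z) := by
      rw [← e0]
      ext ω
      rw [Finset.mem_compl, Finset.mem_erase, Finset.mem_insert, Finset.mem_compl, not_and_or,
        not_not]
    have hq : ∀ z ∈ Z, r (π z) ≠ r (π a) := by
      intro z hz h
      have h1 : π z = π a := hr h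
      obtain ⟨h2, h3⟩ := Finset.mem_erase.1 hz
      have h4 : x (π z) = z := by
        by_contra h'
        exact (Finset.mem_compl.1 h3) (h508F_mem.2 h')
      exact h2 (by rw [← h4, h1])
    have h1 := h508_ridge (fun ω => r (π ω)) (a := a) (b := b) (Z := Z) (τ := τ)
      (fun h => ha h.symm) (by simp only [hπb]) haZ hbZ hq e2
    rw [← e0, ← e1, ← h508_bd_insert haτ, ← h508_bd_insert hbτ, ← hσ0, ← hσ1] at h1
    exact h1
  · have h1 := h508_bd_insert haτ
    rw [← hσ0] at h1
    rw [h1, h508_eps_sq]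

end H508c

section H508d

variable {Ω B : Type} [Fintype Ω] [LinearOrder Ω] [Fintype B]

/-- exactness in the top degree -/
def h508E (π : Ω → B) {U : Type} [AddCommGroup U] (f : Finset Ω → U) : Prop :=
  ∃ ψ : Finset Ω → U, (∀ σ, ψ σ ≠ 0 → good π σ ∧ σ.card + 1 + Fintype.card B = Fintype.card Ω) ∧
    ∀ σ, good π σ → ∑ τ, bd σ τ • ψ τ = f σ

theorem h508E_zero (π : Ω → B) {U : Type} [AddCommGroup U] :
    h508E π (fun _ : Finset Ω => (0 : U)) :=
  ⟨fun _ => 0, fun _ h => absurd rfl h, fun _ _ => Finset.sum_eq_zero fun _ _ => smul_zero _⟩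

theorem h508E_congr {π : Ω → B} {U : Type} [AddCommGroup U] {f g : Finset Ω → U}
    (h : h508E π f) (hfg : ∀ σ, good π σ → f σ = g σ) : h508E π g := by
  obtain ⟨ψ, h1, h2⟩ := h
  exact ⟨ψ, h1, fun σ hσ => (h2 σ hσ).trans (hfg σ hσ)⟩

theorem h508E_add {π : Ω → B} {U : Type} [AddCommGroup U] {f g : Finset Ω → U}
    (h : h508E π f) (h' : h508E π g) : h508E π (fun σ => f σ + g σ) := by
  obtain ⟨ψ, h1, h2⟩ := h
  obtain ⟨ψ', h1', h2'⟩ := h'
  refine ⟨fun σ => ψ σ + ψ' σ, fun σ hσ => ?_, fun σ hσ => ?_⟩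
  · by_cases h0 : ψ σ = 0
    · by_cases h0' : ψ' σ = 0
      · exact absurd (show ψ σ + ψ' σ = 0 by rw [h0, h0', add_zero]) hσ
      · exact h1' σ h0'
    · exact h1 σ h0
  · show ∑ τ, bd σ τ • (ψ τ + ψ' τ) = f σ + g σ
    rw [← h2 σ hσ, ← h2' σ hσ, ← Finset.sum_add_distrib]
    exact Finset.sum_congr rfl fun τ _ => smul_add _ _ _

theorem h508E_sum {π : Ω → B} {U ι : Type} [AddCommGroup U] (s : Finset ι)
    (f : ι → Finset Ω → U) (h : ∀ i ∈ s, h508E π (f i)) :
    h508E π (fun σ => ∑ i ∈ s, f i σ) := by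
  classical
  induction s using Finset.induction_on with
  | empty => simpa using h508E_zero π
  | insert a s ha ih =>
    have h1 := h508E_add (h a (Finset.mem_insert_self a s))
      (ih fun i hi => h i (Finset.mem_insert_of_mem hi))
    exact h508E_congr h1 fun σ _ => by rw [Finset.sum_insert ha]

theorem h508_step (π : Ω → B) (r : B → ℕ) (hr : Function.Injective r) {x : B → Ω}
    (hx : ∀ b, π (x b) = b) {a : Ω} (ha : x (π a) ≠ a) [DecidableEq B] {U : Type}
    [AddCommGroup U] (v : U) :
    h508E π (fun σ => (if σ = h508F π x then v else 0) -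
      (if σ = h508F π (Function.update x (π a) a) then
        (h508k (fun ω => r (π ω)) (h508F π x)ᶜ *
          h508k (fun ω => r (π ω)) (h508F π (Function.update x (π a) a))ᶜ) • v else 0)) := by
  obtain ⟨hx', hne, honly, hrel, hsq⟩ := h508_two π r hr hx ha
  set σ0 := h508F π x with hσ0
  set σ1 := h508F π (Function.update x (π a) a) with hσ1
  have hf0 : h508f π σ0 := h508f_F hx
  have haσ : a ∈ σ0 := h508F_mem.2 ha
  refine ⟨fun ρ => if ρ = σ0.erase a then bd σ0 (σ0.erase a) • v else 0, fun ρ hρ => ?_,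
    fun σ hσ => ?_⟩
  · have h1 : ρ = σ0.erase a := by
      by_contra h
      exact hρ (if_neg h)
    subst h1
    refine ⟨fun b => ?_, ?_⟩
    · obtain ⟨ω, h1, h2⟩ := hf0.1 b
      exact ⟨ω, h1, fun h => h2 (Finset.mem_of_mem_erase h)⟩
    · rw [Finset.card_erase_add_one haσ]
      exact hf0.2
  · show ∑ τ, bd σ τ • (if τ = σ0.erase a then bd σ0 (σ0.erase a) • v else 0) =
      (if σ = σ0 then v else 0) - (if σ = σ1 then
        (h508k (fun ω => r (π ω)) σ0ᶜ * h508k (fun ω => r (π ω)) σ1ᶜ) • v else 0)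
    rw [Finset.sum_eq_single (σ0.erase a) (fun τ _ hτ => by rw [if_neg hτ, smul_zero])
      (fun h => absurd (Finset.mem_univ _) h), if_pos rfl, ← mul_smul]
    by_cases h0 : σ = σ0
    · subst h0
      rw [hsq, one_smul, if_pos rfl, if_neg hne, sub_zero]
    · rw [if_neg h0, zero_sub]
      by_cases h1 : σ = σ1
      · subst h1
        rw [if_pos rfl, ← neg_smul]
        congr 1
        have k1 := h508k_sq (fun ω => r (π ω)) σ1ᶜ
        have k0 := h508k_sq (fun ω => r (π ω)) σ0ᶜ
        generalize h508k (fun ω => r (π ω)) σ1ᶜ = K1 at *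
        generalize h508k (fun ω => r (π ω)) σ0ᶜ = K0 at *
        generalize bd σ1 (σ0.erase a) = b1 at *
        generalize bd σ0 (σ0.erase a) = b0 at *
        linear_combination (K1 * b0) * hrel - (b1 * b0) * k1 - (K0 * K1) * hsq
      · rw [if_neg h1, neg_zero]
        have h2 : bd σ (σ0.erase a) = 0 := by
          by_contra h
          rcases honly σ hσ h with h' | h'
          · exact h0 h'
          · exact h1 h'
        rw [h2, zero_mul, zero_smul]

theorem h508_path (π : Ω → B) (r : B → ℕ) (hr : Function.Injective r) {x x' : B → Ω}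
    (hx : ∀ b, π (x b) = b) (hx' : ∀ b, π (x' b) = b) {U : Type} [AddCommGroup U] (v : U) :
    h508E π (fun σ => (if σ = h508F π x then v else 0) -
      (if σ = h508F π x' then
        (h508k (fun ω => r (π ω)) (h508F π x)ᶜ *
          h508k (fun ω => r (π ω)) (h508F π x')ᶜ) • v else 0)) := by
  classical
  have key : ∀ T : Finset B, h508E π (fun σ => (if σ = h508F π x then v else 0) -
      (if σ = h508F π (fun b => if b ∈ T then x' b else x b) then
        (h508k (fun ω => r (π ω)) (h508F π x)ᶜ *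
          h508k (fun ω => r (π ω)) (h508F π (fun b => if b ∈ T then x' b else x b))ᶜ) • v
        else 0)) := by
    intro T
    induction T using Finset.induction_on with
    | empty =>
      refine h508E_congr (h508E_zero π) fun σ _ => ?_
      simp only [Finset.notMem_empty, if_false, h508k_sq, one_smul, sub_self]
    | insert b T hb ih =>
      set xT : B → Ω := fun c => if c ∈ T then x' c else x c with hxT
      have hxTs : ∀ c, π (xT c) = c := by
        intro c
        simp only [hxT]
        split_ifs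
        · exact hx' c
        · exact hx c
      have hupd : (fun c => if c ∈ insert b T then x' c else x c) =
          Function.update xT b (x' b) := by
        funext c
        by_cases hc : c = b
        · subst hc
          rw [Function.update_self, if_pos (Finset.mem_insert_self _ _)]
        · rw [Function.update_of_ne hc]
          simp only [hxT, Finset.mem_insert, hc, false_or]
      rw [hupd]
      by_cases hbb : xT b = x' b
      · have : Function.update xT b (x' b) = xT := by rw [← hbb, Function.update_eq_self]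
        rw [this]
        exact ih
      · have h1 : xT (π (x' b)) ≠ x' b := by rw [hx' b]; exact hbb
        have h2 := h508_step π r hr hxTs h1 ((h508k (fun ω => r (π ω)) (h508F π x)ᶜ *
          h508k (fun ω => r (π ω)) (h508F π xT)ᶜ) • v)
        rw [hx' b] at h2
        refine h508E_congr (h508E_add ih h2) fun σ _ => ?_
        rw [sub_add_sub_cancel]
        congr 1
        split_ifs
        · rw [← mul_smul]
          congr 1
          have k1 := h508k_sq (fun ω => r (π ω)) (h508F π xT)ᶜ
          linear_combination (h508k (fun ω => r (π ω)) (h508F π x)ᶜ *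
            h508k (fun ω => r (π ω)) (h508F π (Function.update xT b (x' b)))ᶜ) * k1
        · rfl
  have h := key Finset.univ
  simpa using h

theorem h508_low' (π : Ω → B) (hπ : Function.Surjective π) {U : Type} [AddCommGroup U] (j : ℕ)
    (f : Finset Ω → U) (hj : j + Fintype.card B < Fintype.card Ω)
    (hf : ∀ σ, f σ ≠ 0 → good π σ ∧ σ.card = j)
    (hd : ∀ σ, good π σ → ∑ τ, bd σ τ • f τ = 0) :
    ∃ ψ : Finset Ω → U, (∀ σ, ψ σ ≠ 0 → good π σ ∧ σ.card + 1 = j) ∧
      ∀ σ, good π σ → ∑ τ, bd σ τ • ψ τ = f σ := by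
  classical
  have hg : ∀ σ, h508g π Finset.univ σ ↔ good π σ := by
    intro σ
    constructor
    · intro h b; exact h.2 b (Finset.mem_univ _)
    · intro h; exact ⟨fun _ _ => Finset.mem_univ _, fun b _ => h b⟩
  have hm : h508m π Finset.univ + Fintype.card B = Fintype.card Ω := by
    unfold h508m
    have h1 : Fintype.card Ω = ∑ b : B, (h508Y π b).card := by
      rw [← Finset.card_univ, Finset.card_eq_sum_card_fiberwise (f := π) (t := Finset.univ)
        (fun _ _ => Finset.mem_univ _)]
      refine Finset.sum_congr rfl fun b _ => ?_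
      refine congrArg Finset.card ?_
      ext ω
      simp [h508Y]
    have h2 : ∀ b : B, (h508Y π b).card = ((h508Y π b).card - 1) + 1 := by
      intro b
      obtain ⟨ω, hω⟩ := hπ b
      have : 0 < (h508Y π b).card := Finset.card_pos.2 ⟨ω, h508Y_mem.2 hω⟩
      omega
    rw [h1, Finset.sum_congr rfl fun b _ => h2 b, Finset.sum_add_distrib]
    simp
  obtain ⟨ψ, h1, h2⟩ := h508_low π hπ Finset.univ U f
    (fun σ hσ => ⟨(hg σ).2 (hf σ hσ).1, by rw [(hf σ hσ).2]; omega⟩)
    (fun σ hσ => by rw [← h508_sum_bd]; exact hd σ ((hg σ).1 hσ))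
  refine ⟨fun σ => if σ.card + 1 = j then ψ σ else 0, fun σ hσ => ?_, fun σ hσ => ?_⟩
  · by_cases hc : σ.card + 1 = j
    · simp only [if_pos hc] at hσ
      exact ⟨(hg σ).1 (h1 σ hσ), hc⟩
    · simp only [if_neg hc] at hσ
      exact absurd rfl hσ
  · rw [h508_sum_bd]
    by_cases hc : σ.card = j
    · rw [← h2 σ ((hg σ).2 hσ)]
      refine h508d_congr fun y hy => ?_
      rw [if_pos]
      rw [Finset.card_erase_add_one hy, hc]
    · have h3 : f σ = 0 := by
        by_contra h
        exact hc (hf σ h).2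
      rw [h3]
      refine h508d_zero fun y hy => ?_
      rw [if_neg]
      rw [Finset.card_erase_add_one hy]
      exact hc

end H508d

theorem ex_good {Ω B : Type} [Fintype Ω] [LinearOrder Ω] [Fintype B] (π : Ω → B)
    (hπ : Function.Surjective π) :
    ∃ κ : Finset Ω → ℤ,
      (∀ σ, κ σ ≠ 0 → good π σ ∧ σ.card + Fintype.card B = Fintype.card Ω) ∧
      (∀ τ, ∑ σ, κ σ * bd σ τ = 0) ∧
      (∃ e : Finset Ω → ℤ, (∀ σ, e σ ≠ 0 → good π σ ∧ σ.card + Fintype.card B = Fintype.card Ω) ∧
        ∑ σ, κ σ * e σ = 1) ∧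
      ∀ (U : Type) [AddCommGroup U] (j : ℕ) (f : Finset Ω → U),
        (∀ σ, f σ ≠ 0 → good π σ ∧ σ.card = j) →
        (∀ σ, good π σ → ∑ τ, bd σ τ • f τ = 0) → (∑ σ, κ σ • f σ = 0) →
        ∃ ψ : Finset Ω → U, (∀ σ, ψ σ ≠ 0 → good π σ ∧ σ.card + 1 = j) ∧
          ∀ σ, good π σ → ∑ τ, bd σ τ • ψ τ = f σ := by
  classical
  obtain ⟨r, hr⟩ : ∃ r : B → ℕ, Function.Injective r :=
    ⟨fun b => (Fintype.equivFin B b : ℕ), fun a b h => (Fintype.equivFin B).injective (Fin.ext h)⟩
  set K : Finset Ω → ℤ := fun X => h508k (fun ω => r (π ω)) X with hK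
  have hKsq : ∀ X, K X * K X = 1 := fun X => h508k_sq _ X
  set κ : Finset Ω → ℤ := fun σ => if h508f π σ then K σᶜ else 0 with hκ
  have hκ1 : ∀ σ, κ σ ≠ 0 → h508f π σ := by
    intro σ h
    by_contra h'
    exact h (if_neg h')
  have hκ2 : ∀ σ, h508f π σ → κ σ = K σᶜ := fun σ h => if_pos h
  obtain ⟨xs, hxs⟩ : ∃ x : B → Ω, ∀ b, π (x b) = b :=
    ⟨fun b => (hπ b).choose, fun b => (hπ b).choose_spec⟩
  have hfs := h508f_F hxs
  refine ⟨κ, fun σ h => hκ1 σ h, fun τ => ?_, ⟨fun σ => if σ = h508F π xs then κ σ else 0,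
    fun σ hσ => ?_, ?_⟩, fun U _ j f hf hd h0 => ?_⟩
  · by_cases hex : ∃ σ, κ σ * bd σ τ ≠ 0
    · obtain ⟨σ0, h1⟩ := hex
      obtain ⟨x, hx, rfl⟩ := h508f_exists (hκ1 σ0 (left_ne_zero_of_mul h1))
      obtain ⟨a, haτ, hσ0⟩ := h508_bd_ne (right_ne_zero_of_mul h1)
      have haσ : a ∈ h508F π x := by rw [hσ0]; exact Finset.mem_insert_self _ _
      have hτ : τ = (h508F π x).erase a := by rw [hσ0, Finset.erase_insert haτ]
      obtain ⟨hx', hne, honly, hrel, -⟩ := h508_two π r hr hx (h508F_mem.1 haσ)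
      rw [hτ]
      rw [Finset.sum_eq_add (h508F π x) (h508F π (Function.update x (π a) a)) hne]
      · rw [hκ2 _ (h508f_F hx), hκ2 _ (h508f_F hx')]
        exact hrel
      · intro σ _ hσ
        by_contra h
        rcases honly σ (hκ1 σ (left_ne_zero_of_mul h)).1 (right_ne_zero_of_mul h) with h' | h'
        · exact hσ.1 h'
        · exact hσ.2 h'
      · intro h; exact absurd (Finset.mem_univ _) h
      · intro h; exact absurd (Finset.mem_univ _) h
    · push Not at hex
      exact Finset.sum_eq_zero fun σ _ => hex σ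
  · by_cases h : σ = h508F π xs
    · rw [h]; exact hfs
    · simp only [if_neg h] at hσ
      exact absurd rfl hσ
  · show ∑ σ, κ σ * (if σ = h508F π xs then κ σ else 0) = 1
    rw [Finset.sum_eq_single (h508F π xs) (fun σ _ hσ => by rw [if_neg hσ, mul_zero])
      (fun h => absurd (Finset.mem_univ _) h), if_pos rfl, hκ2 _ hfs, hKsq]
  · rcases lt_trichotomy (j + Fintype.card B) (Fintype.card Ω) with hj | hj | hj
    · exact h508_low' π hπ j f hj hf hd
    · -- top degree
      have hfac : ∀ σ, f σ ≠ 0 → h508f π σ := by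
        intro σ hσ
        obtain ⟨h1, h2⟩ := hf σ hσ
        exact ⟨h1, by rw [h2]; exact hj⟩
      have h1 : ∀ ρ : Finset Ω, h508E π (fun σ => (if σ = ρ then f ρ else 0) -
          (if σ = h508F π xs then (κ ρ * K (h508F π xs)ᶜ) • f ρ else 0)) := by
        intro ρ
        by_cases hρ : f ρ = 0
        · refine h508E_congr (h508E_zero π) fun σ _ => ?_
          simp [hρ]
        · have hfρ := hfac ρ hρ
          obtain ⟨x, hx, rfl⟩ := h508f_exists hfρ
          rw [hκ2 _ hfρ]
          exact h508_path π r hr hx hxs (f (h508F π x))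
      have h2 := h508E_sum Finset.univ _ fun ρ _ => h1 ρ
      have h3 : h508E π f := by
        refine h508E_congr h2 fun σ _ => ?_
        rw [Finset.sum_sub_distrib, Finset.sum_ite_eq, if_pos (Finset.mem_univ _)]
        have h4 : ∑ ρ, (if σ = h508F π xs then (κ ρ * K (h508F π xs)ᶜ) • f ρ else 0) = 0 := by
          by_cases h5 : σ = h508F π xs
          · simp only [if_pos h5]
            have h6 : ∀ ρ, (κ ρ * K (h508F π xs)ᶜ) • f ρ = K (h508F π xs)ᶜ • (κ ρ • f ρ) := by
              intro ρ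
              rw [← mul_smul, mul_comm]
            simp_rw [h6]
            rw [← Finset.smul_sum, h0, smul_zero]
          · simp only [if_neg h5, Finset.sum_const_zero]
        rw [h4, sub_zero]
      obtain ⟨ψ, h4, h5⟩ := h3
      refine ⟨ψ, fun σ hσ => ?_, h5⟩
      obtain ⟨h6, h7⟩ := h4 σ hσ
      exact ⟨h6, by omega⟩
    · have hf0 : ∀ σ, f σ = 0 := by
        intro σ
        by_contra h
        obtain ⟨h1, h2⟩ := hf σ h
        have := h508_card_le h1
        omega
      refine ⟨fun _ => 0, fun σ h => absurd rfl h, fun σ _ => ?_⟩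
      rw [hf0]
      exact Finset.sum_eq_zero fun τ _ => smul_zero _

end Pool.Agent.Helper495_PQ
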