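import Mathlib
import Pool.Agent.Helper495_PQ.Defs
import Pool.Agent.Helper495_PQ.PB1
import Pool.Agent.Helper495_PQ.PB2
set_option autoImplicit false
namespace Pool.Agent.Helper495_PQ

theorem pq316_good_card {Ω B : Type} [Fintype Ω] [LinearOrder Ω] [Fintype B] {π : Ω → B}
    {σ : Finset Ω} (h : good π σ) : σ.card + Fintype.card B ≤ Fintype.card Ω := by
  choose w hw1 hw2 using h
  have hinj : Function.Injective w := fun b b' e => by rw [← hw1 b, ← hw1 b', e]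
  have hsub : (Finset.univ.image w) ⊆ σᶜ := by
    intro x hx
    rw [Finset.mem_image] at hx
    obtain ⟨b, _, rfl⟩ := hx
    rw [Finset.mem_compl]
    exact hw2 b
  have hc := Finset.card_le_card hsub
  rw [Finset.card_image_of_injective _ hinj, Finset.card_compl, Finset.card_univ] at hc
  have := Finset.card_le_univ σ
  omega

theorem pq316_bd_card {Ω : Type} [LinearOrder Ω] {σ τ : Finset Ω} (h : bd σ τ ≠ 0) :
    σ.card = τ.card + 1 := by
  unfold bd at h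
  obtain ⟨y, hy, hne⟩ := Finset.exists_ne_zero_of_sum_ne_zero h
  split_ifs at hne with e
  · rw [← e, Finset.card_erase_of_mem hy]
    have := Finset.card_pos.mpr ⟨y, hy⟩
    omega
  · exact absurd rfl hne

theorem pq316_claim1 {Ω B : Type} [Fintype Ω] [LinearOrder Ω] [Fintype B] (π : Ω → B)
    (κ κ' e : Finset Ω → ℤ)
    (h1 : ∀ σ, κ σ ≠ 0 → good π σ ∧ σ.card + Fintype.card B = Fintype.card Ω)
    (he : ∀ σ, e σ ≠ 0 → good π σ ∧ σ.card + Fintype.card B = Fintype.card Ω)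
    (he1 : ∑ σ, κ σ * e σ = 1)
    (h4 : ∀ (j : ℕ) (f : Finset Ω → ℤ),
        (∀ σ, f σ ≠ 0 → good π σ ∧ σ.card = j) →
        (∀ σ, good π σ → ∑ τ, bd σ τ • f τ = 0) → (∑ σ, κ σ • f σ = 0) →
        ∃ ψ : Finset Ω → ℤ, (∀ σ, ψ σ ≠ 0 → good π σ ∧ σ.card + 1 = j) ∧
          ∀ σ, good π σ → ∑ τ, bd σ τ • ψ τ = f σ)
    (h1' : ∀ σ, κ' σ ≠ 0 → good π σ ∧ σ.card + Fintype.card B = Fintype.card Ω)
    (h2' : ∀ τ, ∑ σ, κ' σ * bd σ τ = 0) :
    ∃ o : ℤ, ∀ σ, κ' σ = o * κ σ := by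
  classical
  refine ⟨∑ σ, κ' σ * e σ, ?_⟩
  have key : ∀ f : Finset Ω → ℤ,
      (∀ σ, f σ ≠ 0 → good π σ ∧ σ.card + Fintype.card B = Fintype.card Ω) →
      ∑ σ, κ' σ * f σ = (∑ σ, κ' σ * e σ) * ∑ σ, κ σ * f σ := by
    intro f hf
    set c : ℤ := ∑ σ, κ σ * f σ with hc
    have hF : ∀ σ, (f σ - c * e σ) ≠ 0 →
        good π σ ∧ σ.card + Fintype.card B = Fintype.card Ω := by
      intro σ hσ
      by_cases h : f σ = 0
      · by_cases h' : e σ = 0
        · exact absurd (by rw [h, h']; ring) hσ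
        · exact he σ h'
      · exact hf σ h
    obtain ⟨ψ, -, hψ⟩ := h4 (Fintype.card Ω - Fintype.card B) (fun σ => f σ - c * e σ) (by
        intro σ hσ
        have := hF σ hσ
        exact ⟨this.1, by omega⟩) (by
        intro σ hσ
        refine Finset.sum_eq_zero fun τ _ => ?_
        by_cases hb : bd σ τ = 0
        · rw [hb, zero_smul]
        · by_cases hτ : f τ - c * e τ = 0
          · rw [hτ, smul_zero]
          · exfalso
            have a1 := pq316_bd_card hb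
            have a2 := (hF τ hτ).2
            have a3 := pq316_good_card hσ
            omega) (by
        simp only [smul_eq_mul, mul_sub, Finset.sum_sub_distrib]
        have : ∀ σ, κ σ * (c * e σ) = c * (κ σ * e σ) := fun σ => by ring
        simp only [this]
        rw [← Finset.mul_sum, he1, ← hc]
        ring)
    have h5 : ∑ σ, κ' σ * (f σ - c * e σ) = 0 := by
      have h6 : ∀ σ, κ' σ * (f σ - c * e σ) = ∑ τ, (κ' σ * bd σ τ) * ψ τ := by
        intro σ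
        by_cases h : κ' σ = 0
        · rw [h]; simp
        · rw [← hψ σ (h1' σ h).1, Finset.mul_sum]
          refine Finset.sum_congr rfl fun τ _ => ?_
          rw [smul_eq_mul]
          ring
      simp only [h6]
      rw [Finset.sum_comm]
      refine Finset.sum_eq_zero fun τ _ => ?_
      rw [← Finset.sum_mul, h2' τ, zero_mul]
    simp only [mul_sub, Finset.sum_sub_distrib] at h5
    have : ∀ σ, κ' σ * (c * e σ) = c * (κ' σ * e σ) := fun σ => by ring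
    simp only [this] at h5
    rw [← Finset.mul_sum] at h5
    linarith
  intro σ₀
  by_cases ht : good π σ₀ ∧ σ₀.card + Fintype.card B = Fintype.card Ω
  · have h5 := key (fun σ => if σ = σ₀ then 1 else 0) (by
      intro σ hσ
      by_cases e' : σ = σ₀
      · rw [e']; exact ht
      · simp [e'] at hσ)
    simpa using h5
  · have a1 : κ' σ₀ = 0 := by
      by_contra h
      exact ht (h1' σ₀ h)
    have a2 : κ σ₀ = 0 := by
      by_contra h
      exact ht (h1 σ₀ h)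
    rw [a1, a2, mul_zero]

theorem pq316_claim2 {Ω B : Type} [Fintype Ω] [LinearOrder Ω] [Fintype B] (π : Ω → B)
    (κ e : Finset Ω → ℤ)
    (h1 : ∀ σ, κ σ ≠ 0 → good π σ ∧ σ.card + Fintype.card B = Fintype.card Ω)
    (h2 : ∀ τ, ∑ σ, κ σ * bd σ τ = 0)
    (he : ∀ σ, e σ ≠ 0 → good π σ ∧ σ.card + Fintype.card B = Fintype.card Ω)
    (he1 : ∑ σ, κ σ * e σ = 1)
    (h4 : ∀ (j : ℕ) (f : Finset Ω → ℤ),
        (∀ σ, f σ ≠ 0 → good π σ ∧ σ.card = j) →
        (∀ σ, good π σ → ∑ τ, bd σ τ • f τ = 0) → (∑ σ, κ σ • f σ = 0) →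
        ∃ ψ : Finset Ω → ℤ, (∀ σ, ψ σ ≠ 0 → good π σ ∧ σ.card + 1 = j) ∧
          ∀ σ, good π σ → ∑ τ, bd σ τ • ψ τ = f σ)
    (g : Equiv.Perm Ω) (hg : ∀ ω ω', π ω = π ω' ↔ π (g ω) = π (g ω')) :
    ∃ o : ℤ, ∀ σ, κ (σ.map g.toEmbedding) * sgn g σ = o * κ σ := by
  refine pq316_claim1 π κ (fun σ => κ (σ.map g.toEmbedding) * sgn g σ) e h1 he he1 h4 ?_ ?_
  · intro σ hσ
    have hκ : κ (σ.map g.toEmbedding) ≠ 0 := left_ne_zero_of_mul hσ
    obtain ⟨a1, a2⟩ := h1 _ hκ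
    rw [Finset.card_map] at a2
    refine ⟨?_, a2⟩
    intro b
    obtain ⟨ω₀, hω₀, _⟩ := a1 b
    obtain ⟨ω', hω', hn⟩ := a1 (π (g ω₀))
    refine ⟨g.symm ω', ?_, ?_⟩
    · rw [← hω₀, hg, Equiv.apply_symm_apply]
      exact hω'
    · intro hmem
      apply hn
      rw [Finset.mem_map]
      exact ⟨g.symm ω', hmem, by simp⟩
  · intro τ
    have h5 : ∀ σ : Finset Ω, κ (σ.map g.toEmbedding) * sgn g σ * bd σ τ =
        sgn g τ * (κ (σ.map g.toEmbedding) *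
          bd (σ.map g.toEmbedding) (τ.map g.toEmbedding)) := by
      intro σ
      rw [mul_assoc, ← bd_act g σ τ]
      ring
    simp only [h5]
    rw [← Finset.mul_sum]
    have h6 : ∑ σ : Finset Ω, (κ (σ.map g.toEmbedding) *
          bd (σ.map g.toEmbedding) (τ.map g.toEmbedding)) =
        ∑ σ : Finset Ω, κ σ * bd σ (τ.map g.toEmbedding) :=
      Fintype.sum_equiv (Equiv.finsetCongr g) _ _ (fun σ => by
        simp [Equiv.finsetCongr])
    rw [h6, h2, mul_zero]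

theorem pq316_sgn_one {Ω : Type} [LinearOrder Ω] (σ : Finset Ω) :
    sgn (1 : Equiv.Perm Ω) σ = 1 := by
  unfold sgn
  have : (σ ×ˢ σ).filter
      (fun q => q.1 < q.2 ∧ (1 : Equiv.Perm Ω) q.2 < (1 : Equiv.Perm Ω) q.1) = ∅ := by
    rw [Finset.filter_eq_empty_iff]
    rintro q _ ⟨a, b⟩
    exact lt_asymm a b
  rw [this]
  simp

theorem kappa_act {Ω B : Type} [Fintype Ω] [LinearOrder Ω] [Fintype B] (π : Ω → B)
    (κ : Finset Ω → ℤ)
    (h1 : ∀ σ, κ σ ≠ 0 → good π σ ∧ σ.card + Fintype.card B = Fintype.card Ω)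
    (h2 : ∀ τ, ∑ σ, κ σ * bd σ τ = 0)
    (h3 : ∃ e : Finset Ω → ℤ,
      (∀ σ, e σ ≠ 0 → good π σ ∧ σ.card + Fintype.card B = Fintype.card Ω) ∧
      ∑ σ, κ σ * e σ = 1)
    (h4 : ∀ (j : ℕ) (f : Finset Ω → ℤ),
        (∀ σ, f σ ≠ 0 → good π σ ∧ σ.card = j) →
        (∀ σ, good π σ → ∑ τ, bd σ τ • f τ = 0) → (∑ σ, κ σ • f σ = 0) →
        ∃ ψ : Finset Ω → ℤ, (∀ σ, ψ σ ≠ 0 → good π σ ∧ σ.card + 1 = j) ∧
          ∀ σ, good π σ → ∑ τ, bd σ τ • ψ τ = f σ)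
    (g : Equiv.Perm Ω) (hg : ∀ ω ω', π ω = π ω' ↔ π (g ω) = π (g ω')) :
    ∃ o : ℤ, (o = 1 ∨ o = -1) ∧ ∀ σ, κ (σ.map g.toEmbedding) * sgn g σ = o * κ σ := by
  obtain ⟨e, he, he1⟩ := h3
  obtain ⟨o, ho⟩ := pq316_claim2 π κ e h1 h2 he he1 h4 g hg
  have hg' : ∀ ω ω', π ω = π ω' ↔ π (g⁻¹ ω) = π (g⁻¹ ω') := by
    intro ω ω'
    rw [hg (g⁻¹ ω) (g⁻¹ ω')]
    simp
  obtain ⟨o', ho'⟩ := pq316_claim2 π κ e h1 h2 he he1 h4 g⁻¹ hg'
  refine ⟨o, ?_, ho⟩
  obtain ⟨σ, hσ⟩ : ∃ σ, κ σ ≠ 0 := by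
    by_contra hcon
    push Not at hcon
    simp [hcon] at he1
  have a1 := ho (σ.map (g⁻¹).toEmbedding)
  have a2 := ho' σ
  have a3 := sgn_mul g g⁻¹ σ
  rw [mul_inv_cancel, pq316_sgn_one] at a3
  have a4 : (σ.map (g⁻¹).toEmbedding).map g.toEmbedding = σ := by
    ext x
    have hx : (Equiv.symm g⁻¹) ((Equiv.symm g) x) = x := g.apply_symm_apply x
    simp [hx]
  rw [a4] at a1
  have a5 : κ σ = o * o' * κ σ := by
    calc κ σ = κ σ * (sgn g (σ.map (g⁻¹).toEmbedding) * sgn g⁻¹ σ) := by rw [← a3, mul_one]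
      _ = (κ σ * sgn g (σ.map (g⁻¹).toEmbedding)) * sgn g⁻¹ σ := by ring
      _ = o * (κ (σ.map (g⁻¹).toEmbedding) * sgn g⁻¹ σ) := by rw [a1]; ring
      _ = o * o' * κ σ := by rw [a2]; ring
  have a6 : o * o' = 1 := by
    have : (o * o' - 1) * κ σ = 0 := by linear_combination -a5
    rcases mul_eq_zero.mp this with h | h
    · linarith
    · exact absurd h hσ
  exact Int.eq_one_or_neg_one_of_mul_eq_one a6

end Pool.Agent.Helper495_PQ
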