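import Mathlib
import Pool.Agent.Helper495_PQ.Defs
import Pool.Agent.Helper495_PQ.PB1
set_option autoImplicit false
namespace Pool.Agent.Helper495_PQ

theorem kappa_double {P B : Type} [Group P] [Finite P] [Fintype (P × Bool)] [LinearOrder (P × Bool)]
    (π : P × Bool → B) (c : P → P → Prop)
    (hπ : ∀ x y, π x = π y ↔ (x.2 = y.2 ∧ c x.1 y.1))
    (hc : ∀ g x y, c x y ↔ c (g * x) (g * y)) (hc1 : ∀ x, c x x)
    (κ : Finset (P × Bool) → ℤ) (hκ : ∃ σ, κ σ ≠ 0)
    (hact : ∀ g : Equiv.Perm (P × Bool), (∀ ω ω', π ω = π ω' ↔ π (g ω) = π (g ω')) →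
      ∃ o : ℤ, (o = 1 ∨ o = -1) ∧ ∀ σ, κ (σ.map g.toEmbedding) * sgn g σ = o * κ σ)
    (g : P) (σ : Finset (P × Bool)) (τ : Equiv.Perm (P × Bool))
    (hτ : ∀ x, τ x = (g * x.1, x.2)) :
    κ (σ.map τ.toEmbedding) * sgn τ σ = κ σ := by
  classical
  -- multiplicativity
  have hmul : ∀ (g1 g2 : Equiv.Perm (P × Bool)) (o1 o2 : ℤ),
      (∀ σ, κ (σ.map g1.toEmbedding) * sgn g1 σ = o1 * κ σ) →
      (∀ σ, κ (σ.map g2.toEmbedding) * sgn g2 σ = o2 * κ σ) →
      ∀ σ, κ (σ.map (g1 * g2).toEmbedding) * sgn (g1 * g2) σ = (o1 * o2) * κ σ := by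
    intro g1 g2 o1 o2 h1 h2 σ
    have hm : σ.map (g1 * g2).toEmbedding = (σ.map g2.toEmbedding).map g1.toEmbedding := by
      rw [Finset.map_map]
      rfl
    rw [sgn_mul, hm, ← mul_assoc, h1 (σ.map g2.toEmbedding), mul_assoc, h2 σ, mul_assoc]
  let A : Equiv.Perm (P × Bool) :=
    { toFun := fun x => if x.2 = true then (g * x.1, x.2) else x
      invFun := fun x => if x.2 = true then (g⁻¹ * x.1, x.2) else x
      left_inv := by
        rintro ⟨x, b⟩
        cases b <;> simp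
      right_inv := by
        rintro ⟨x, b⟩
        cases b <;> simp }
  let w : Equiv.Perm (P × Bool) :=
    { toFun := fun x => (x.1, !x.2)
      invFun := fun x => (x.1, !x.2)
      left_inv := by
        rintro ⟨x, b⟩
        simp
      right_inv := by
        rintro ⟨x, b⟩
        simp }
  have hAt : ∀ x : P, A (x, true) = (g * x, true) := fun x => rfl
  have hAf : ∀ x : P, A (x, false) = (x, false) := fun x => rfl
  have hw : ∀ (x : P) (b : Bool), w (x, b) = (x, !b) := fun x b => rfl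
  have hAfib : ∀ ω ω', π ω = π ω' ↔ π (A ω) = π (A ω') := by
    rintro ⟨x, b⟩ ⟨y, b'⟩
    cases b <;> cases b' <;> simp only [hAt, hAf, hπ]
    · exact ⟨fun h => absurd h.1 (by decide), fun h => absurd h.1 (by decide)⟩
    · exact ⟨fun h => absurd h.1 (by decide), fun h => absurd h.1 (by decide)⟩
    · exact and_congr_right fun _ => hc g x y
  have hwfib : ∀ ω ω', π ω = π ω' ↔ π (w ω) = π (w ω') := by
    rintro ⟨x, b⟩ ⟨y, b'⟩
    cases b <;> cases b' <;> simp [hw, hπ]
  obtain ⟨oA, hoA, hA⟩ := hact A hAfib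
  obtain ⟨ow, how, hW⟩ := hact w hwfib
  have hτ' : τ = A * (w * (A * w)) := by
    ext1 ⟨x, b⟩
    rw [hτ]
    simp only [Equiv.Perm.mul_apply]
    cases b
    · simp only [hw, Bool.not_false, hAt, Bool.not_true, hAf]
    · simp only [hw, Bool.not_false, hAt, Bool.not_true, hAf]
  have h4 := hmul A (w * (A * w)) oA (ow * (oA * ow)) hA
    (hmul w (A * w) ow (oA * ow) hW (hmul A w oA ow hA hW)) σ
  rw [hτ', h4]
  rcases hoA with rfl | rfl <;> rcases how with rfl | rfl <;> norm_num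

end Pool.Agent.Helper495_PQ
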