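import Mathlib
import Pool.Agent.Helper495_PQ.Defs
import Pool.Agent.Helper495_PQ.PB1
import Pool.Agent.Helper495_PQ.PB2
import Pool.Agent.Helper495_PQ.PB3
import Pool.Agent.Helper495_PQ.PB4
import Pool.Agent.Helper495_PQ.PB5
import Pool.Agent.Helper495_PQ.PB6
set_option autoImplicit false
namespace Pool.Agent.Helper495_PQ

theorem h761_good_sub {Ω B : Type} (π : Ω → B) {σ τ : Finset Ω} (h : τ ⊆ σ) (hg : good π σ) :
    good π τ := by
  intro b
  obtain ⟨ω, h1, h2⟩ := hg b
  exact ⟨ω, h1, fun h3 => h2 (h h3)⟩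

theorem h761_bd_ne {Ω : Type} [LinearOrder Ω] {σ τ : Finset Ω} (h : bd σ τ ≠ 0) :
    ∃ y ∈ σ, σ.erase y = τ := by
  unfold bd at h
  obtain ⟨y, hy, h1⟩ := Finset.exists_ne_zero_of_sum_ne_zero h
  refine ⟨y, hy, ?_⟩
  by_contra h2
  rw [if_neg h2] at h1
  exact h1 rfl

theorem h761_bd_card {Ω : Type} [LinearOrder Ω] {σ τ : Finset Ω} (h : bd σ τ ≠ 0) :
    σ.card = τ.card + 1 := by
  obtain ⟨y, hy, rfl⟩ := h761_bd_ne h
  rw [Finset.card_erase_add_one hy]

theorem h761_bd_good {Ω B : Type} [LinearOrder Ω] (π : Ω → B) {σ τ : Finset Ω} (h : bd σ τ ≠ 0)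
    (hg : good π σ) : good π τ := by
  obtain ⟨y, hy, rfl⟩ := h761_bd_ne h
  exact h761_good_sub π (Finset.erase_subset _ _) hg

theorem h761_good_map {Ω B : Type} (π : Ω → B) (hπ : Function.Surjective π) (g : Equiv.Perm Ω)
    (hg : ∀ ω ω', π ω = π ω' ↔ π (g ω) = π (g ω')) {σ : Finset Ω} (h : good π σ) :
    good π (σ.map g.toEmbedding) := by
  intro b
  obtain ⟨ω0, h0⟩ := hπ b
  obtain ⟨ω, h1, h2⟩ := h (π (g.symm ω0))
  refine ⟨g ω, ?_, ?_⟩
  · rw [hg] at h1
    rw [h1, Equiv.apply_symm_apply, h0]
  · intro h3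
    rw [Finset.mem_map] at h3
    obtain ⟨ω', h4, h5⟩ := h3
    have h6 : ω' = ω := g.injective h5
    exact h2 (h6 ▸ h4)

theorem h761_good_card {Ω B : Type} [Fintype Ω] [Fintype B] (π : Ω → B) {σ : Finset Ω}
    (h : good π σ) : σ.card + Fintype.card B ≤ Fintype.card Ω := by
  classical
  choose f hf1 hf2 using h
  have hinj : Function.Injective f := by
    intro b b' hb
    rw [← hf1 b, ← hf1 b', hb]
  have h1 : Fintype.card B ≤ (Finset.univ \ σ).card := by
    rw [← Finset.card_univ]
    refine Finset.card_le_card_of_injOn f ?_ (hinj.injOn)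
    intro b _
    simp [hf2 b]
  rw [Finset.card_sdiff_of_subset (Finset.subset_univ _), Finset.card_univ] at h1
  have h2 : σ.card ≤ Fintype.card Ω := Finset.card_le_univ σ
  omega

theorem h761_sgn_sq {Ω : Type} [LinearOrder Ω] (g : Equiv.Perm Ω) (σ : Finset Ω) :
    sgn g σ * sgn g σ = 1 := by
  unfold sgn
  rw [← mul_pow]
  norm_num

theorem h761_sgn_empty {Ω : Type} [LinearOrder Ω] (g : Equiv.Perm Ω) : sgn g (∅ : Finset Ω) = 1 := by
  unfold sgn
  simp

/-- the action on the cells -/
def h761_A {Ω B : Type} (π : Ω → B) (hπ : Function.Surjective π)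
    (g : Equiv.Perm Ω) (hg : ∀ ω ω', π ω = π ω' ↔ π (g ω) = π (g ω')) :
    Option {σ : Finset Ω // good π σ} → Option {σ : Finset Ω // good π σ} :=
  Option.map (fun σ => ⟨σ.1.map g.toEmbedding, h761_good_map π hπ g hg σ.2⟩)

/-- the action as a homomorphism -/
def h761_al {P Ω B : Type} [Group P] (π : Ω → B) (hπ : Function.Surjective π)
    (a : P →* Equiv.Perm Ω) (ha : ∀ g ω ω', π ω = π ω' ↔ π (a g ω) = π (a g ω')) :
    P →* Equiv.Perm (Option {σ : Finset Ω // good π σ}) where
  toFun g :=
    { toFun := h761_A π hπ (a g) (ha g)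
      invFun := h761_A π hπ (a g⁻¹) (ha g⁻¹)
      left_inv := by
        intro i
        rcases i with _ | σ
        · rfl
        · simp only [h761_A, Option.map_some]
          congr 1
          apply Subtype.ext
          simp only
          rw [Finset.map_map]
          have : ((a g).toEmbedding.trans (a g⁻¹).toEmbedding) = Function.Embedding.refl Ω := by
            ext ω
            simp
          rw [this, Finset.map_refl]
      right_inv := by
        intro i
        rcases i with _ | σ
        · rfl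
        · simp only [h761_A, Option.map_some]
          congr 1
          apply Subtype.ext
          simp only
          rw [Finset.map_map]
          have : ((a g⁻¹).toEmbedding.trans (a g).toEmbedding) = Function.Embedding.refl Ω := by
            ext ω
            simp
          rw [this, Finset.map_refl] }
  map_one' := by
    ext i : 1
    rcases i with _ | σ
    · rfl
    · simp only [h761_A, Equiv.coe_fn_mk, Option.map_some, Equiv.Perm.coe_one, id]
      congr 1
      apply Subtype.ext
      simp only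
      have : (a 1).toEmbedding = Function.Embedding.refl Ω := by
        ext ω
        simp
      rw [this, Finset.map_refl]
  map_mul' g h := by
    ext i : 1
    rcases i with _ | σ
    · rfl
    · simp only [h761_A, Equiv.coe_fn_mk, Option.map_some, Equiv.Perm.coe_mul, Function.comp]
      congr 1
      apply Subtype.ext
      simp only
      rw [Finset.map_map]
      congr 1
      ext ω
      simp

/-- the incidence numbers -/
def h761_M {Ω B : Type} [LinearOrder Ω] (π : Ω → B) (κ : Finset Ω → ℤ) :
    Option {σ : Finset Ω // good π σ} → Option {σ : Finset Ω // good π σ} → ℤ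
  | some σ, some τ => bd σ.1 τ.1
  | none, some τ => κ τ.1
  | _, none => 0

theorem h761_sum_sub {Ω B U : Type} [Fintype Ω] [AddCommMonoid U] (π : Ω → B)
    [Fintype {σ : Finset Ω // good π σ}] [DecidableEq Ω] (F : Finset Ω → U)
    (hF : ∀ σ, ¬ good π σ → F σ = 0) : ∑ σ : {σ : Finset Ω // good π σ}, F σ.1 = ∑ σ, F σ := by
  classical
  have h1 : ∑ σ, F σ = ∑ σ ∈ Finset.univ.filter (fun σ => good π σ), F σ := by
    rw [Finset.sum_filter]
    refine Finset.sum_congr rfl fun σ _ => ?_
    by_cases h : good π σ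
    · rw [if_pos h]
    · rw [if_neg h, hF σ h]
  rw [h1]
  exact (Finset.sum_subtype (Finset.univ.filter (fun σ => good π σ)) (fun σ => by simp) F).symm

theorem h761_mk {P Ω B : Type} [Group P] [Fintype Ω] [LinearOrder Ω] [Fintype B] (π : Ω → B)
    (hπ : Function.Surjective π) (a : P →* Equiv.Perm Ω)
    (ha : ∀ g ω ω', π ω = π ω' ↔ π (a g ω) = π (a g ω')) (m : ℕ)
    (hcard : m + Fintype.card B = Fintype.card Ω) (hm : Even m) (hm0 : m ≠ 0)
    (κ : Finset Ω → ℤ)
    (h1 : ∀ σ, κ σ ≠ 0 → good π σ ∧ σ.card + Fintype.card B = Fintype.card Ω)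
    (h2 : ∀ τ, ∑ σ, κ σ * bd σ τ = 0)
    (e : Finset Ω → ℤ) (he : ∀ σ, e σ ≠ 0 → good π σ ∧ σ.card + Fintype.card B = Fintype.card Ω)
    (he1 : ∑ σ, κ σ * e σ = 1)
    (h4 : ∀ (U : Type) [AddCommGroup U] (j : ℕ) (f : Finset Ω → U),
        (∀ σ, f σ ≠ 0 → good π σ ∧ σ.card = j) →
        (∀ σ, good π σ → ∑ τ, bd σ τ • f τ = 0) → (∑ σ, κ σ • f σ = 0) →
        ∃ ψ : Finset Ω → U, (∀ σ, ψ σ ≠ 0 → good π σ ∧ σ.card + 1 = j) ∧
          ∀ σ, good π σ → ∑ τ, bd σ τ • ψ τ = f σ)
    (hact : ∀ g σ, κ (σ.map (a g).toEmbedding) * sgn (a g) σ = κ σ)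
    (z : P) (hfree : ∀ σ : Finset Ω, good π σ → σ.map (a z).toEmbedding = σ → σ = ∅) :
    ∃ S : SBC P, S.Free z := by
  classical
  have hle : ∀ σ : Finset Ω, good π σ → σ.card ≤ m := by
    intro σ hσ
    have := h761_good_card π hσ
    omega
  have hemp : good π (∅ : Finset Ω) := by
    intro b
    obtain ⟨ω, hω⟩ := hπ b
    exact ⟨ω, hω, by simp⟩
  have hbdM : ∀ (σ : Finset Ω), good π σ → ∀ τ, ¬ good π τ → bd σ τ = 0 := by
    intro σ hσ τ hτ
    by_contra h
    exact hτ (h761_bd_good π h hσ)
  have hκM : ∀ τ, ¬ good π τ → κ τ = 0 := by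
    intro τ hτ
    by_contra h
    exact hτ (h1 τ h).1
  let deg : Option {σ : Finset Ω // good π σ} → ℕ := fun i => i.elim (m + 1) (fun σ => σ.1.card)
  let s : P → Option {σ : Finset Ω // good π σ} → ℤ := fun g i => i.elim 1 (fun σ => sgn (a g) σ.1)
  refine ⟨{ I := Option {σ : Finset Ω // good π σ}
            fI := inferInstance
            m := m
            deg := deg
            M := h761_M π κ
            α := h761_al π hπ a ha
            s := s
            bot := some ⟨∅, hemp⟩
            top := none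
            hm := hm
            hm0 := hm0
            deg_bot := ?_
            deg_top := ?_
            deg_le := ?_
            M_deg := ?_
            M_sq := ?_
            exact := ?_
            s_sq := ?_
            s_mul := ?_
            M_act := ?_
            deg_act := ?_
            s_bot := ?_
            s_top := ?_ }, ?_⟩
  · rintro (_ | σ)
    · constructor
      · intro h
        exact absurd h (Nat.succ_ne_zero m)
      · intro h
        exact absurd h (by simp)
    · constructor
      · intro h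
        have h' : σ.1.card = 0 := h
        rw [Finset.card_eq_zero] at h'
        congr 1
        exact Subtype.ext h'
      · intro h
        have h' := Option.some.inj h
        show σ.1.card = 0
        rw [h']
        rfl
  · rintro (_ | σ)
    · exact ⟨fun _ => rfl, fun _ => rfl⟩
    · constructor
      · intro h
        have h' : σ.1.card = m + 1 := h
        have := hle σ.1 σ.2
        omega
      · intro h
        exact absurd h (by simp)
  · rintro (_ | σ)
    · exact le_refl _
    · exact (hle σ.1 σ.2).trans (Nat.le_succ m)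
  · rintro (_ | σ) (_ | τ) h
    · exact absurd rfl h
    · have h' := (h1 τ.1 h).2
      show m + 1 = τ.1.card + 1
      omega
    · exact absurd rfl h
    · exact h761_bd_card h
  · rintro i (_ | τ)
    · refine Finset.sum_eq_zero fun l _ => ?_
      have : h761_M π κ l none = 0 := by
        rcases l with _ | l <;> rfl
      rw [this, mul_zero]
    · rw [Fintype.sum_option]
      have h0 : h761_M π κ i none = 0 := by
        rcases i with _ | l <;> rfl
      rw [h0, zero_mul, zero_add]
      rcases i with _ | σ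
      · show ∑ ρ : {σ : Finset Ω // good π σ}, κ ρ.1 * bd ρ.1 τ.1 = 0
        rw [h761_sum_sub π (fun ρ => κ ρ * bd ρ τ.1) (fun ρ hρ => by rw [hκM ρ hρ, zero_mul])]
        exact h2 τ.1
      · show ∑ ρ : {σ : Finset Ω // good π σ}, bd σ.1 ρ.1 * bd ρ.1 τ.1 = 0
        rw [h761_sum_sub π (fun ρ => bd σ.1 ρ * bd ρ τ.1)
          (fun ρ hρ => by rw [hbdM σ.1 σ.2 ρ hρ, zero_mul])]
        exact bd_sq σ.1 τ.1
  · intro U _ j f hf hM
    let F : Finset Ω → U := fun σ => if h : good π σ then f (some ⟨σ, h⟩) else 0
    have hFs : ∀ σ (h : good π σ), F σ = f (some ⟨σ, h⟩) := by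
      intro σ h
      simp only [F, dif_pos h]
    have hFn : ∀ σ, ¬ good π σ → F σ = 0 := by
      intro σ h
      simp only [F, dif_neg h]
    have hMs : ∀ (σ : Finset Ω) (h : good π σ) (g : Option {σ : Finset Ω // good π σ} → U) (G : Finset Ω → U),
        (∀ τ (h' : good π τ), G τ = g (some ⟨τ, h'⟩)) →
        ∑ l, h761_M π κ (some ⟨σ, h⟩) l • g l = ∑ τ, bd σ τ • G τ := by
      intro σ h g G hG
      rw [Fintype.sum_option]
      have h0 : h761_M π κ (some ⟨σ, h⟩) none = 0 := rfl
      rw [h0, zero_smul, zero_add]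
      rw [← h761_sum_sub π (fun τ => bd σ τ • G τ) (fun τ hτ => by rw [hbdM σ h τ hτ, zero_smul])]
      refine Finset.sum_congr rfl fun τ _ => ?_
      rw [hG τ.1 τ.2]
      rfl
    have hMn : ∀ (g : Option {σ : Finset Ω // good π σ} → U) (G : Finset Ω → U),
        (∀ τ (h' : good π τ), G τ = g (some ⟨τ, h'⟩)) →
        ∑ l, h761_M π κ none l • g l = ∑ τ, κ τ • G τ := by
      intro g G hG
      rw [Fintype.sum_option]
      have h0 : h761_M π κ none none = 0 := rfl
      rw [h0, zero_smul, zero_add]
      rw [← h761_sum_sub π (fun τ => κ τ • G τ) (fun τ hτ => by rw [hκM τ hτ, zero_smul])]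
      refine Finset.sum_congr rfl fun τ _ => ?_
      rw [hG τ.1 τ.2]
      rfl
    by_cases hj : j ≤ m
    · have hfn : f none = 0 := by
        refine hf none ?_
        show m + 1 ≠ j
        omega
      obtain ⟨ψ, hψ1, hψ2⟩ := h4 U j F (by
        intro σ hσ
        by_cases h : good π σ
        · refine ⟨h, ?_⟩
          by_contra hne
          rw [hFs σ h] at hσ
          exact hσ (hf _ hne)
        · exact absurd (hFn σ h) hσ) (by
        intro σ h
        rw [← hMs σ h f F (fun τ h' => hFs τ h')]
        exact hM _) (by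
        rw [← hMn f F (fun τ h' => hFs τ h')]
        exact hM _)
      refine ⟨fun i => i.elim 0 (fun σ => ψ σ.1), ?_, ?_⟩
      · rintro (_ | σ) h
        · rfl
        · show ψ σ.1 = 0
          by_contra hne
          exact h (hψ1 σ.1 hne).2
      · rintro (_ | σ)
        · rw [hMn _ ψ (fun τ h' => rfl), hfn]
          refine Finset.sum_eq_zero fun τ _ => ?_
          by_cases h5 : κ τ = 0
          · rw [h5, zero_smul]
          · by_cases h6 : ψ τ = 0
            · rw [h6, smul_zero]
            · have h7 := (h1 τ h5).2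
              have h8 := (hψ1 τ h6).2
              omega
        · rw [hMs σ.1 σ.2 _ ψ (fun τ h' => rfl), hψ2 σ.1 σ.2, hFs σ.1 σ.2]
    · by_cases hj1 : j = m + 1
      · refine ⟨fun i => i.elim 0 (fun σ => e σ.1 • f none), ?_, ?_⟩
        · rintro (_ | σ) h
          · rfl
          · show e σ.1 • f none = 0
            by_cases h5 : e σ.1 = 0
            · rw [h5, zero_smul]
            · exfalso
              have h6 := (he σ.1 h5).2
              apply h
              show σ.1.card + 1 = j
              omega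
        · rintro (_ | σ)
          · rw [hMn _ (fun τ => e τ • f none) (fun τ h' => rfl)]
            have h5 : ∑ τ, κ τ • e τ • f none = (∑ τ, κ τ * e τ) • f none := by
              rw [Finset.sum_smul]
              exact Finset.sum_congr rfl fun τ _ => (mul_smul _ _ _).symm
            rw [h5, he1, one_smul]
          · rw [hMs σ.1 σ.2 _ (fun τ => e τ • f none) (fun τ h' => rfl)]
            have h6 : f (some σ) = 0 := by
              refine hf _ ?_
              show σ.1.card ≠ j
              have := hle σ.1 σ.2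
              omega
            rw [h6]
            refine Finset.sum_eq_zero fun τ _ => ?_
            by_cases h5 : e τ = 0
            · rw [h5, zero_smul, smul_zero]
            · by_cases h7 : bd σ.1 τ = 0
              · rw [h7, zero_smul]
              · exfalso
                have h8 := (he τ h5).2
                have h9 := h761_bd_card h7
                have := hle σ.1 σ.2
                omega
      · have hf0 : ∀ i, f i = 0 := by
          rintro (_ | σ)
          · refine hf none ?_
            show m + 1 ≠ j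
            omega
          · refine hf _ ?_
            show σ.1.card ≠ j
            have := hle σ.1 σ.2
            omega
        refine ⟨fun _ => 0, fun _ _ => rfl, ?_⟩
        intro i
        rw [hf0 i]
        exact Finset.sum_eq_zero fun l _ => smul_zero _
  · rintro g (_ | σ)
    · rfl
    · exact h761_sgn_sq _ _
  · rintro g h (_ | σ)
    · rfl
    · show sgn (a (g * h)) σ.1 = sgn (a g) (σ.1.map (a h).toEmbedding) * sgn (a h) σ.1
      rw [map_mul]
      exact sgn_mul _ _ _
  · rintro g (_ | σ) (_ | τ)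
    · rfl
    · show κ (τ.1.map (a g).toEmbedding) * sgn (a g) τ.1 = 1 * κ τ.1
      rw [hact, one_mul]
    · show (0 : ℤ) * 1 = sgn (a g) σ.1 * 0
      ring
    · exact bd_act (a g) σ.1 τ.1
  · rintro g (_ | σ)
    · rfl
    · exact Finset.card_map _
  · intro g
    exact h761_sgn_empty _
  · intro g
    rfl
  · rintro (_ | σ) h5 h6 h7
    · have h6' : m + 1 ≤ m := h6
      omega
    · have h7' : some (⟨σ.1.map (a z).toEmbedding, h761_good_map π hπ (a z) (ha z) σ.2⟩ :
        {σ : Finset Ω // good π σ}) = some σ := h7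
      have h8 := congrArg Subtype.val (Option.some.inj h7')
      have h9 := hfree σ.1 σ.2 h8
      have h5' : 1 ≤ σ.1.card := h5
      rw [h9] at h5'
      simp at h5'

/-- left multiplication on `P × Bool` -/
def h761_lm (P : Type) [Group P] : P →* Equiv.Perm (P × Bool) where
  toFun g :=
    { toFun := fun x => (g * x.1, x.2)
      invFun := fun x => (g⁻¹ * x.1, x.2)
      left_inv := fun x => by simp
      right_inv := fun x => by simp }
  map_one' := by
    ext x <;> simp
  map_mul' g h := by
    ext x <;> simp [mul_assoc]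

theorem sbc_central {P : Type} [Group P] [Finite P] (p : ℕ) (hp : p.Prime) (z : P)
    (hz : ∀ g, Commute g z) (ho : orderOf z = p) : ∃ S : SBC P, S.Free z := by
  classical
  haveI : Fintype P := Fintype.ofFinite P
  letI : LinearOrder (P × Bool) :=
    LinearOrder.lift' (Fintype.equivFin (P × Bool)) (Equiv.injective _)
  let Z := Subgroup.zpowers z
  let π : P × Bool → (P ⧸ Z) × Bool := fun x => (QuotientGroup.mk x.1, x.2)
  let c : P → P → Prop := fun x y => x⁻¹ * y ∈ Z
  have hπc : ∀ x y, π x = π y ↔ (x.2 = y.2 ∧ c x.1 y.1) := by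
    intro x y
    simp only [π, c, Prod.mk.injEq]
    rw [QuotientGroup.eq]
    tauto
  have hc : ∀ g x y, c x y ↔ c (g * x) (g * y) := by
    intro g x y
    simp only [c]
    rw [mul_inv_rev, mul_assoc, inv_mul_cancel_left]
  have hc1 : ∀ x, c x x := by
    intro x
    simp only [c, inv_mul_cancel]
    exact Z.one_mem
  have hπ : Function.Surjective π := by
    rintro ⟨q, i⟩
    obtain ⟨x, rfl⟩ := QuotientGroup.mk_surjective q
    exact ⟨(x, i), rfl⟩
  have ha : ∀ g ω ω', π ω = π ω' ↔ π (h761_lm P g ω) = π (h761_lm P g ω') := by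
    intro g ω ω'
    rw [hπc, hπc]
    show _ ↔ (ω.2 = ω'.2 ∧ c (g * ω.1) (g * ω'.1))
    rw [← hc g]
  -- cardinalities
  have hq : Fintype.card P = Fintype.card (P ⧸ Z) * p := by
    have h1 := Subgroup.card_eq_card_quotient_mul_card_subgroup Z
    rw [Nat.card_eq_fintype_card, Nat.card_eq_fintype_card, Nat.card_zpowers, ho] at h1
    exact h1
  have hp2 := hp.two_le
  have hqpos : 0 < Fintype.card (P ⧸ Z) := Fintype.card_pos
  obtain ⟨k, hk⟩ : ∃ k, p = k + 1 := ⟨p - 1, by omega⟩
  have hΩ : Fintype.card (P × Bool) = Fintype.card (P ⧸ Z) * p * 2 := by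
    rw [Fintype.card_prod, Fintype.card_bool, hq]
  have hB : Fintype.card ((P ⧸ Z) × Bool) = Fintype.card (P ⧸ Z) * 2 := by
    rw [Fintype.card_prod, Fintype.card_bool]
  obtain ⟨κ, h1, h2, ⟨e, he, he1⟩, h4⟩ := ex_good π hπ
  have hact : ∀ g : Equiv.Perm (P × Bool), (∀ ω ω', π ω = π ω' ↔ π (g ω) = π (g ω')) →
      ∃ o : ℤ, (o = 1 ∨ o = -1) ∧ ∀ σ, κ (σ.map g.toEmbedding) * sgn g σ = o * κ σ := fun g hg =>
    kappa_act π κ h1 h2 ⟨e, he, he1⟩ (fun j f => h4 ℤ j f) g hg
  have hκ : ∃ σ, κ σ ≠ 0 := by
    by_contra h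
    push Not at h
    have h5 : ∑ σ, κ σ * e σ = 0 := Finset.sum_eq_zero fun σ _ => by rw [h σ, zero_mul]
    rw [he1] at h5
    exact one_ne_zero h5
  refine h761_mk π hπ (h761_lm P) ha (2 * (Fintype.card (P ⧸ Z) * k)) ?_ (even_two_mul _) ?_ κ h1 h2 e he he1
    h4 ?_ z ?_
  · rw [hΩ, hB, hk]
    ring
  · have hk0 : 0 < k := by omega
    have := Nat.mul_pos hqpos hk0
    omega
  · intro g σ
    exact kappa_double π c hπc hc hc1 κ hκ hact g σ (h761_lm P g) (fun x => rfl)
  · intro σ hσ hst
    by_contra hne
    obtain ⟨⟨x, i⟩, hx⟩ := Finset.nonempty_iff_ne_empty.2 hne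
    have hstep : ∀ y j, (y, j) ∈ σ → (z * y, j) ∈ σ := by
      intro y j hy
      rw [← hst, Finset.mem_map]
      exact ⟨(y, j), hy, rfl⟩
    have hpow : ∀ n : ℕ, (z ^ n * x, i) ∈ σ := by
      intro n
      induction n with
      | zero => simpa using hx
      | succ n ih =>
        rw [pow_succ', mul_assoc]
        exact hstep _ _ ih
    obtain ⟨⟨y, j⟩, h5, h6⟩ := hσ (π (x, i))
    rw [hπc] at h5
    obtain ⟨h7, h8⟩ := h5
    simp only [c] at h7 h8
    have h9 : x⁻¹ * y ∈ Z := by
      have := Z.inv_mem h8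
      rwa [mul_inv_rev, inv_inv] at this
    have h10 : x⁻¹ * y ∈ Submonoid.powers z := by
      rw [mem_powers_iff_mem_zpowers]
      exact h9
    obtain ⟨n, hn⟩ := h10
    have h11 : y = z ^ n * x := by
      have h12 : z ^ n = x⁻¹ * y := hn
      have h13 : Commute x (z ^ n) := (hz x).pow_right n
      rw [← h13.eq, h12]
      group
    apply h6
    rw [h7, h11]
    exact hpow n

end Pool.Agent.Helper495_PQ
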