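import Mathlib
import Pool.Agent.Helper495_PQ.Defs
set_option autoImplicit false
namespace Pool.Agent.Helper495_PQ

theorem sbc_comap {P P' : Type} [Group P] [Group P'] (f : P →* P') (S : SBC P') (y : P)
    (h : S.Free (f y)) : ∃ S' : SBC P, S'.Free y := by
  refine ⟨{ I := S.I, fI := S.fI, m := S.m, deg := S.deg, M := S.M, α := S.α.comp f,
            s := fun g i => S.s (f g) i, bot := S.bot, top := S.top, hm := S.hm, hm0 := S.hm0,
            deg_bot := S.deg_bot, deg_top := S.deg_top, deg_le := S.deg_le, M_deg := S.M_deg,
            M_sq := S.M_sq, exact := S.exact, s_sq := fun g i => S.s_sq (f g) i,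
            s_mul := fun g h i => ?_, M_act := fun g i j => S.M_act (f g) i j,
            deg_act := fun g i => S.deg_act (f g) i, s_bot := fun g => S.s_bot (f g),
            s_top := fun g => S.s_top (f g) }, ?_⟩
  · rw [map_mul]
    exact S.s_mul (f g) (f h) i
  · exact h

end Pool.Agent.Helper495_PQ
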