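import Mathlib
set_option autoImplicit false
namespace Pool.Agent.Helper495_PQ

theorem exists_normal_central {P : Type} [Group P] [Finite P] {p : ℕ} [Fact p.Prime]
    (hP : IsPGroup p P) (y : P) (hy : orderOf y = p) :
    ∃ (N : Subgroup P) (_ : N.Normal), (∀ g : P ⧸ N, Commute g (QuotientGroup.mk y : P ⧸ N)) ∧
      orderOf (QuotientGroup.mk y : P ⧸ N) = p := by
  have hp : p.Prime := Fact.out
  have hy1 : y ≠ 1 := by
    rintro rfl
    rw [orderOf_one] at hy
    exact hp.one_lt.ne hy
  obtain ⟨N, hN⟩ := (Set.toFinite {N : Subgroup P | N.Normal ∧ y ∉ N}).exists_maximal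
    ⟨⊥, inferInstance, by simpa using hy1⟩
  obtain ⟨⟨hNn, hyN⟩, hmax⟩ := hN
  haveI := hNn
  refine ⟨N, hNn, ?_, ?_⟩
  · -- the class of y is central
    have hQ : IsPGroup p (P ⧸ N) := hP.to_quotient N
    haveI : Nontrivial (P ⧸ N) := by
      refine ⟨⟨QuotientGroup.mk y, 1, ?_⟩⟩
      intro h
      exact hyN ((QuotientGroup.eq_one_iff y).1 h)
    haveI := hQ.center_nontrivial
    have hM : y ∈ (Subgroup.center (P ⧸ N)).comap (QuotientGroup.mk' N) := by
      by_contra hcon
      have h1 := hmax (y := (Subgroup.center (P ⧸ N)).comap (QuotientGroup.mk' N))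
        ⟨inferInstance, hcon⟩ (by
          intro x hx
          rw [Subgroup.mem_comap]
          have : QuotientGroup.mk' N x = 1 := (QuotientGroup.eq_one_iff x).2 hx
          rw [this]
          exact one_mem _)
      obtain ⟨⟨c, hc⟩, hc1⟩ := exists_ne (1 : Subgroup.center (P ⧸ N))
      obtain ⟨x, rfl⟩ := QuotientGroup.mk'_surjective N c
      have h2 : x ∈ N := h1 hc
      apply hc1
      apply Subtype.ext
      exact (QuotientGroup.eq_one_iff x).2 h2
    rw [Subgroup.mem_comap, Subgroup.mem_center_iff] at hM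
    intro g
    exact hM g
  · have h1 : orderOf (QuotientGroup.mk y : P ⧸ N) ∣ p := by
      rw [← hy]
      exact orderOf_map_dvd (QuotientGroup.mk' N) y
    rcases (Nat.dvd_prime hp).1 h1 with h | h
    · exfalso
      rw [orderOf_eq_one_iff] at h
      exact hyN ((QuotientGroup.eq_one_iff y).1 h)
    · exact h

end Pool.Agent.Helper495_PQ
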