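import Mathlib
import Pool.Agent.Helper495_PQ.Defs
import Pool.Agent.Helper495_PQ.PA8
import Pool.Agent.Helper495_PQ.PB7
import Pool.Agent.Helper495_PQ.PB8
import Pool.Agent.Helper495_PQ.PB9
set_option autoImplicit false
namespace Pool.Agent.Helper495_PQ

/-- for an element `y` of order `p` of a finite `p`-group there is a complex on whose proper cells
`y` acts freely -/
theorem exists_sbc {P : Type} [Group P] [Finite P] {p : ℕ} [Fact p.Prime] (hP : IsPGroup p P)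
    (y : P) (hy : orderOf y = p) : ∃ S : SBC P, S.Free y := by
  obtain ⟨N, hN, hc, ho⟩ := exists_normal_central hP y hy
  obtain ⟨S, hS⟩ := sbc_central (P := P ⧸ N) p Fact.out (QuotientGroup.mk y) hc ho
  exact sbc_comap (QuotientGroup.mk' N) S y hS

theorem main_idem' {G : Type} [Group G] [Fintype G] {E : Type} [Ring E] [Finite E]
    (ρ : G →* Eˣ) (v : Eˣ) (hv : ∀ g, Commute (ρ g) v) (p a K : ℕ) [Fact p.Prime] (ha : 1 ≤ a)
    (hK : (p : E) ^ K = 0) (hc : v ^ p ^ a = 1) (β : E)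
    (hβ : ∑ g : G, (ρ g : E) * β * (((ρ g)⁻¹ : Eˣ) : E) = 1) :
    ∃ ε : E, ε * ε = ε ∧ (∀ g, Commute (ρ g : E) ε) ∧ Commute (v : E) ε ∧
      (∃ η, ε = TrE p (v ^ p ^ (a - 1)) η) ∧
      ∀ y : G, orderOf y = p → ∃ η, 1 - ε = TrE p (ρ y * v ^ p ^ (a - 1)) η :=
  main_idem ρ v hv p a K ha hK hc β hβ (fun P hP y hy => exists_sbc hP y hy)

end Pool.Agent.Helper495_PQ
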