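import Mathlib
import Pool.Agent.Helper495_PQ.Defs
import Pool.Agent.Helper495_SP.J05
import Pool.Agent.Helper495_SP.J10
set_option autoImplicit false
namespace Pool.Agent.Helper495_PQ

section pc1

variable {p : ℕ} [Fact p.Prime]

theorem pc1_local (K : ℕ) (hK : 1 ≤ K) : IsLocalRing (ZMod (p ^ K)) := by
  have hp : p.Prime := Fact.out
  have : Fact (1 < p ^ K) := ⟨Nat.one_lt_pow (by omega) hp.one_lt⟩
  have : Nontrivial (ZMod (p ^ K)) := ZMod.nontrivial _
  exact IsLocalRing.of_surjective' (PadicInt.toZModPow K : ℤ_[p] →+* ZMod (p ^ K))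
    (ZMod.ringHom_surjective _)

/-- reduction modulo `p` -/
noncomputable def pc1Cast (K : ℕ) (hK : 1 ≤ K) : ZMod (p ^ K) →+* ZMod p :=
  ZMod.castHom (dvd_pow_self p (by omega)) (ZMod p)

theorem pc1_surj (K : ℕ) (hK : 1 ≤ K) : Function.Surjective (pc1Cast (p := p) K hK) :=
  ZMod.ringHom_surjective _

theorem pc1_ker (K : ℕ) (hK : 1 ≤ K) (a : ZMod (p ^ K)) (h : pc1Cast K hK a = 0) :
    ∃ y : ZMod (p ^ K), a = (p : ZMod (p ^ K)) * y := by
  have hp : p.Prime := Fact.out
  have : NeZero (p ^ K) := ⟨(pow_pos hp.pos K).ne'⟩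
  have h1 : a = ((a.val : ℕ) : ZMod (p ^ K)) := (ZMod.natCast_zmod_val a).symm
  rw [h1, map_natCast, ZMod.natCast_eq_zero_iff] at h
  obtain ⟨t, ht⟩ := h
  refine ⟨(t : ZMod (p ^ K)), ?_⟩
  rw [h1, ht, Nat.cast_mul]

omit [Fact p.Prime] in
theorem pc1_I (K : ℕ) : Ideal.span {(p : ZMod (p ^ K))} ≤ Ideal.jacobson ⊥ := by
  rw [Ideal.span_singleton_le_iff_mem]
  have h1 : IsNilpotent (p : ZMod (p ^ K)) := ⟨K, by
    rw [← Nat.cast_pow]; exact ZMod.natCast_self _⟩
  have h2 : (p : ZMod (p ^ K)) ∈ nilradical (ZMod (p ^ K)) := h1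
  have h3 := nilradical_le_jacobson (ZMod (p ^ K)) h2
  rw [Ring.jacobson_eq_sInf_isMaximal] at h3
  rw [Ideal.jacobson_bot]
  rw [Ring.jacobson_eq_sInf_isMaximal]
  exact h3

/-- the reduction of an endomorphism -/
noncomputable def pc1Red (K : ℕ) (hK : 1 ≤ K) {M : Type*} [AddCommGroup M] [Module (ZMod (p ^ K)) M]
    {r : ℕ} (B : Module.Basis (Fin r) (ZMod (p ^ K)) M) :
    Module.End (ZMod (p ^ K)) M →+* Module.End (ZMod p) (Fin r → ZMod p) :=
  ((Matrix.toLinAlgEquiv' : Matrix (Fin r) (Fin r) (ZMod p) ≃ₐ[ZMod p] _).toAlgHom.toRingHom).comp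
    ((RingHom.mapMatrix (pc1Cast K hK)).comp (LinearMap.toMatrixAlgEquiv B).toAlgHom.toRingHom)

/-- the reduction of vectors -/
noncomputable def pc1Rho (K : ℕ) (hK : 1 ≤ K) {M : Type*} [AddCommGroup M] [Module (ZMod (p ^ K)) M]
    {r : ℕ} (B : Module.Basis (Fin r) (ZMod (p ^ K)) M) : M →+ (Fin r → ZMod p) where
  toFun m := fun i => pc1Cast K hK (B.repr m i)
  map_zero' := by funext i; simp
  map_add' := by intro a b; funext i; simp

theorem pc1Rho_smul (K : ℕ) (hK : 1 ≤ K) {M : Type*} [AddCommGroup M] [Module (ZMod (p ^ K)) M]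
    {r : ℕ} (B : Module.Basis (Fin r) (ZMod (p ^ K)) M) (c : ZMod (p ^ K)) (m : M) :
    pc1Rho K hK B (c • m) = (pc1Cast K hK c) • pc1Rho K hK B m := by
  funext i
  simp [pc1Rho]

theorem pc1Rho_surj (K : ℕ) (hK : 1 ≤ K) {M : Type*} [AddCommGroup M] [Module (ZMod (p ^ K)) M]
    {r : ℕ} (B : Module.Basis (Fin r) (ZMod (p ^ K)) M) : Function.Surjective (pc1Rho K hK B) := by
  intro v
  choose a ha using fun i => pc1_surj K hK (v i)
  refine ⟨∑ i, a i • B i, ?_⟩
  funext i
  have : pc1Rho K hK B (∑ i, a i • B i) i = pc1Cast K hK (B.repr (∑ i, a i • B i) i) := rfl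
  rw [this, Module.Basis.repr_sum_self, ha]

theorem pc1Rho_end (K : ℕ) (hK : 1 ≤ K) {M : Type*} [AddCommGroup M] [Module (ZMod (p ^ K)) M]
    {r : ℕ} (B : Module.Basis (Fin r) (ZMod (p ^ K)) M) (f : Module.End (ZMod (p ^ K)) M) (m : M) :
    pc1Rho K hK B (f m) = pc1Red K hK B f (pc1Rho K hK B m) := by
  have h1 : pc1Red K hK B f (pc1Rho K hK B m) =
      ((LinearMap.toMatrix B B f).map (pc1Cast K hK)).mulVec (pc1Rho K hK B m) := by
    rfl
  rw [h1]
  funext i
  have h2 : pc1Rho K hK B (f m) i = pc1Cast K hK (B.repr (f m) i) := rfl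
  rw [h2, ← LinearMap.toMatrix_mulVec_repr B B f m]
  simp only [Matrix.mulVec, dotProduct, map_sum, map_mul, Matrix.map_apply]
  rfl

theorem pc1Rho_ker (K : ℕ) (hK : 1 ≤ K) {M : Type*} [AddCommGroup M] [Module (ZMod (p ^ K)) M]
    {r : ℕ} (B : Module.Basis (Fin r) (ZMod (p ^ K)) M) (m : M) (h : pc1Rho K hK B m = 0) :
    m ∈ Ideal.span {(p : ZMod (p ^ K))} • (⊤ : Submodule (ZMod (p ^ K)) M) := by
  have h1 : ∀ i, ∃ y, B.repr m i = (p : ZMod (p ^ K)) * y := fun i =>
    pc1_ker K hK _ (congrFun h i)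
  choose y hy using h1
  rw [← B.sum_repr m]
  refine Submodule.sum_mem _ fun i _ => ?_
  rw [hy i, mul_smul]
  exact Submodule.smul_mem_smul (Ideal.subset_span rfl) trivial

theorem pc1_trace_zero (K : ℕ) (hK : 1 ≤ K) {M : Type*} [AddCommGroup M]
    [Module (ZMod (p ^ K)) M] {r : ℕ} (B : Module.Basis (Fin r) (ZMod (p ^ K)) M)
    (s : ℕ) (hs : 2 ≤ s) (d : Module.End (ZMod (p ^ K)) M) (hd : d ^ s = 1)
    (hnil : (pc1Red K hK B d - 1) ^ s = 0)
    (hfree : ∀ v, pc1Red K hK B d v = v → ∃ w, v = ((pc1Red K hK B d - 1) ^ (s - 1)) w) :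
    LinearMap.trace (ZMod (p ^ K)) M d = 0 := by
  classical
  have hp : p.Prime := Fact.out
  have : Fact (1 < p ^ K) := ⟨Nat.one_lt_pow (by omega) hp.one_lt⟩
  have : Nontrivial (ZMod (p ^ K)) := ZMod.nontrivial _
  set dbar := pc1Red K hK B d with hdbar
  set ρ := pc1Rho K hK B with hρdef
  obtain ⟨n, b, hli, hspan⟩ := Helper495_SP.exists_family s hs dbar hnil hfree
  have hρ := pc1Rho_surj K hK B
  choose c hc using fun j => hρ (b j)
  have hddn : ∀ (i : ℕ) m, ρ ((d ^ i) m) = (dbar ^ i) (ρ m) := by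
    intro i m
    rw [hρdef, pc1Rho_end, map_pow]
  let f : Fin s × Fin n → M := fun k => (d ^ (k.1 : ℕ)) (c k.2)
  have hρf : ∀ k, ρ (f k) = (dbar ^ (k.1 : ℕ)) (b k.2) := fun k => by
    rw [hddn, hc]
  have hfinM : Module.Finite (ZMod (p ^ K)) M := Module.Finite.of_basis B
  have hspanM : ⊤ ≤ Submodule.span (ZMod (p ^ K)) (Set.range f) := by
    refine Submodule.le_of_le_smul_of_le_jacobson_bot Module.Finite.fg_top (pc1_I K) ?_
    rintro m -
    have h1 : ρ m ∈ Submodule.span (ZMod p) (Set.range fun k : Fin s × Fin n =>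
        (dbar ^ (k.1 : ℕ)) (b k.2)) := hspan trivial
    obtain ⟨a, ha⟩ := (Submodule.mem_span_range_iff_exists_fun (ZMod p)).1 h1
    choose a' ha' using fun k => pc1_surj K hK (a k)
    have h2 : ρ (m - ∑ k, a' k • f k) = 0 := by
      rw [map_sub, map_sum]
      have h3 : ∀ k, ρ (a' k • f k) = a k • (dbar ^ (k.1 : ℕ)) (b k.2) := fun k => by
        rw [hρdef, pc1Rho_smul, ha', ← hρdef, hρf]
      simp only [h3]
      rw [ha, sub_self]
    have h3 : m = (∑ k, a' k • f k) + (m - ∑ k, a' k • f k) := by abel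
    rw [h3]
    refine Submodule.add_mem_sup ?_ (pc1Rho_ker K hK B _ h2)
    exact Submodule.sum_mem _ fun k _ => Submodule.smul_mem _ _ (Submodule.subset_span ⟨k, rfl⟩)
  -- cardinality
  have hcard : Fintype.card (Fin s × Fin n) = Fintype.card (Fin r) := by
    have h1 := (Module.finrank_eq_card_basis (Module.Basis.mk hli hspan))
    rw [Module.finrank_fin_fun] at h1
    rw [← h1, Fintype.card_fin]
  let e : Fin s × Fin n ≃ Fin r := Fintype.equivOfCardEq hcard
  let Φ : (Fin s × Fin n → ZMod (p ^ K)) →ₗ[ZMod (p ^ K)] M :=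
    Fintype.linearCombination (ZMod (p ^ K)) f
  have hΦ : ∀ x, Φ x = ∑ k, x k • f k := fun x => Fintype.linearCombination_apply _ _ _
  have hΦs : Function.Surjective Φ := by
    intro m
    have hm : m ∈ Submodule.span (ZMod (p ^ K)) (Set.range f) := hspanM trivial
    obtain ⟨a, ha⟩ := (Submodule.mem_span_range_iff_exists_fun (ZMod (p ^ K))).1 hm
    exact ⟨a, by rw [hΦ]; exact ha⟩
  let g : M ≃ₗ[ZMod (p ^ K)] (Fin s × Fin n → ZMod (p ^ K)) :=
    (B.reindex e.symm).equivFun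
  have hinj : Function.Injective Φ := by
    have h1 : Function.Surjective (g.toLinearMap ∘ₗ Φ) := g.surjective.comp hΦs
    have h2 := OrzechProperty.injective_of_surjective_endomorphism _ h1
    exact Function.Injective.of_comp (f := g) h2
  have hliM : LinearIndependent (ZMod (p ^ K)) f := by
    rw [Fintype.linearIndependent_iff]
    intro a ha i
    have h1 : Φ a = Φ 0 := by rw [hΦ, map_zero]; exact ha
    rw [hinj h1]; rfl
  let B' : Module.Basis (Fin s × Fin n) (ZMod (p ^ K)) M := Module.Basis.mk hliM hspanM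
  have hB : ∀ k, B' k = f k := fun k => by simp [B']
  rw [LinearMap.trace_eq_matrix_trace (ZMod (p ^ K)) B', Matrix.trace]
  refine Finset.sum_eq_zero fun k _ => ?_
  rw [Matrix.diag_apply, LinearMap.toMatrix_apply, hB]
  obtain ⟨i, j⟩ := k
  have hnext : ∃ i' : Fin s, i' ≠ i ∧ d (f (i, j)) = f (i', j) := by
    by_cases hi : (i : ℕ) + 1 < s
    · refine ⟨⟨i + 1, hi⟩, ?_, ?_⟩
      · intro h
        have := congrArg Fin.val h
        simp only at this
        omega
      · simp only [f]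
        rw [pow_succ', Module.End.mul_apply]
    · have hi' : (i : ℕ) + 1 = s := by have := i.2; omega
      refine ⟨⟨0, by omega⟩, ?_, ?_⟩
      · intro h
        have := congrArg Fin.val h
        simp only at this
        omega
      · simp only [f]
        rw [← Module.End.mul_apply, ← pow_succ', hi', hd]
        simp
  obtain ⟨i', hne, hd'⟩ := hnext
  rw [hd', ← hB, Module.Basis.repr_self, Finsupp.single_apply, if_neg]
  intro h
  exact hne (Prod.ext_iff.1 h).1

open Polynomial in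
theorem pc1_geom : ∑ i ∈ Finset.range p, (X : (ZMod p)[X]) ^ i = (X - 1) ^ (p - 1) := by
  have hp : p.Prime := Fact.out
  have h1 : (∑ i ∈ Finset.range p, (X : (ZMod p)[X]) ^ i) * (X - 1) = (X - 1) ^ (p - 1) * (X - 1) := by
    rw [geom_sum_mul, ← pow_succ, Nat.sub_add_cancel hp.one_le, sub_pow_char]
    simp
  have h2 : (X - 1 : (ZMod p)[X]) ≠ 0 := by
    have := X_sub_C_ne_zero (1 : ZMod p)
    simpa using this
  exact mul_right_cancel₀ h2 h1

open Polynomial in
theorem pc1_geom_end {V : Type*} [AddCommGroup V] [Module (ZMod p) V] (D : Module.End (ZMod p) V) :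
    ∑ i ∈ Finset.range p, D ^ i = (D - 1) ^ (p - 1) := by
  have h := congrArg (aeval D) (pc1_geom (p := p))
  simpa using h

open Polynomial in
theorem pc1_char_end {V : Type*} [AddCommGroup V] [Module (ZMod p) V] (D : Module.End (ZMod p) V)
    (n : ℕ) : (D - 1) ^ p ^ n = D ^ p ^ n - 1 := by
  have h1 : (X - 1 : (ZMod p)[X]) ^ p ^ n = X ^ p ^ n - 1 := by
    rw [sub_pow_char_pow]; simp
  have h := congrArg (aeval D) h1
  simpa using h

/-- the main step for a free module -/
theorem pc1_main (K b : ℕ) (hK : 1 ≤ K) (hb : 1 ≤ b) {M : Type*} [AddCommGroup M]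
    [Module (ZMod (p ^ K)) M] {r : ℕ} (B : Module.Basis (Fin r) (ZMod (p ^ K)) M)
    (x η : Module.End (ZMod (p ^ K)) M) (hx : x ^ p ^ b = 1)
    (h : ∑ i ∈ Finset.range p, (x ^ p ^ (b - 1)) ^ i * η * (x ^ p ^ (b - 1)) ^ (p - i) = 1) :
    LinearMap.trace (ZMod (p ^ K)) M x = 0 := by
  have hp : p.Prime := Fact.out
  have hc : 1 ≤ p ^ (b - 1) := Nat.one_le_pow _ _ hp.pos
  have hcp : p ^ (b - 1) * p = p ^ b := by
    rw [← pow_succ, Nat.sub_add_cancel hb]
  set xb := pc1Red K hK B x with hxb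
  have hxb1 : xb ^ p ^ b = 1 := by rw [hxb, ← map_pow, hx, map_one]
  have hD : (xb - 1) ^ (p ^ (b - 1) * p) = 0 := by
    rw [hcp, pc1_char_end, hxb1, sub_self]
  have hb' : ∑ i ∈ Finset.range p, (xb ^ p ^ (b - 1)) ^ i * pc1Red K hK B η *
      (xb ^ p ^ (b - 1)) ^ (p - i) = 1 := by
    have := congrArg (pc1Red K hK B) h
    rw [map_sum, map_one] at this
    simp only [map_mul, map_pow] at this
    exact this
  have hfix : ∀ v, ((xb - 1) ^ p ^ (b - 1)) v = 0 →
      ∃ w, v = ((xb - 1) ^ (p ^ (b - 1) * (p - 1))) w := by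
    intro v hv
    rw [pc1_char_end, LinearMap.sub_apply, Module.End.one_apply, sub_eq_zero] at hv
    have hvn : ∀ n, ((xb ^ p ^ (b - 1)) ^ n) v = v := by
      intro n
      induction n with
      | zero => simp
      | succ n ih => rw [pow_succ, Module.End.mul_apply, hv, ih]
    refine ⟨pc1Red K hK B η v, ?_⟩
    rw [pow_mul, pc1_char_end, ← pc1_geom_end, LinearMap.sum_apply]
    have h1 := congrArg (fun T : Module.End (ZMod p) (Fin r → ZMod p) => T v) hb'
    simp only [LinearMap.sum_apply, Module.End.mul_apply, hvn, Module.End.one_apply] at h1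
    exact h1.symm
  have hker := Helper495_SP.ker_le_of_pow (p ^ (b - 1)) p hc hp.two_le (xb - 1) hD hfix
  have hs : 2 ≤ p ^ b := by
    rw [← hcp]
    have := hp.two_le
    nlinarith
  refine pc1_trace_zero K hK B (p ^ b) hs x hx (by rw [← hxb, ← hcp]; exact hD) fun v hv => ?_
  rw [← hxb, ← hcp]
  refine hker v ?_
  rw [LinearMap.sub_apply, Module.End.one_apply, sub_eq_zero]
  exact hv

end pc1

theorem trace_idem_zero {p : ℕ} [Fact p.Prime] (K b : ℕ) (hK : 1 ≤ K) (hb : 1 ≤ b) {W : Type}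
    [AddCommGroup W] [Module (ZMod (p ^ K)) W] [Module.Finite (ZMod (p ^ K)) W]
    [Module.Free (ZMod (p ^ K)) W] (x : (Module.End (ZMod (p ^ K)) W)ˣ) (hx : x ^ p ^ b = 1)
    (ε η : Module.End (ZMod (p ^ K)) W) (hε : ε * ε = ε)
    (hxε : Commute (x : Module.End (ZMod (p ^ K)) W) ε) (h : ε = TrE p (x ^ p ^ (b - 1)) η) :
    LinearMap.trace (ZMod (p ^ K)) W ((x : Module.End (ZMod (p ^ K)) W) * ε) = 0 := by
  have hp : p.Prime := Fact.out
  have hloc := pc1_local (p := p) K hK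
  -- the summand
  let M := LinearMap.range ε
  let i : M →ₗ[ZMod (p ^ K)] W := M.subtype
  let s : W →ₗ[ZMod (p ^ K)] M := ε.rangeRestrict
  have his : i ∘ₗ s = ε := by
    ext w; rfl
  have hεM : ∀ m : M, ε (m : W) = m := by
    rintro ⟨_, w, rfl⟩
    show ε (ε w) = ε w
    rw [← Module.End.mul_apply, hε]
  have hsi : s ∘ₗ i = LinearMap.id := by
    ext m
    show ε (m : W) = m
    exact hεM m
  have hproj : Module.Projective (ZMod (p ^ K)) M := Module.Projective.of_split i s hsi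
  have hfin : Module.Finite (ZMod (p ^ K)) M := Module.Finite.range ε
  have hfree : Module.Free (ZMod (p ^ K)) M := Module.free_of_flat_of_isLocalRing
  let B := Module.finBasis (ZMod (p ^ K)) M
  -- corner map
  let cr : Module.End (ZMod (p ^ K)) W → Module.End (ZMod (p ^ K)) M := fun f => s ∘ₗ f ∘ₗ i
  have hcr_mul : ∀ f g : Module.End (ZMod (p ^ K)) W, Commute f ε → cr (f * g) = cr f * cr g := by
    intro f g hf
    apply LinearMap.ext
    intro m
    apply Subtype.ext
    show ε (f (g m)) = ε (f (ε (g m)))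
    have h1 : ∀ w, ε (f w) = f (ε w) := fun w => by
      rw [← Module.End.mul_apply, ← Module.End.mul_apply, hf.eq]
    have h2 : ∀ w, ε (ε w) = ε w := fun w => by rw [← Module.End.mul_apply, hε]
    rw [h1, h1, h2]
  have hcr_mul' : ∀ f g : Module.End (ZMod (p ^ K)) W, Commute g ε → cr (f * g) = cr f * cr g := by
    intro f g hg
    apply LinearMap.ext
    intro m
    apply Subtype.ext
    show ε (f (g m)) = ε (f (ε (g m)))
    have h1 : ∀ w, ε (g w) = g (ε w) := fun w => by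
      rw [← Module.End.mul_apply, ← Module.End.mul_apply, hg.eq]
    rw [h1, hεM]
  have hcr_one : cr 1 = 1 := hsi
  have hcr_ε : cr ε = 1 := by
    apply LinearMap.ext
    intro m
    apply Subtype.ext
    show ε (ε m) = m
    rw [hεM, hεM]
  have hcr_pow : ∀ (f : Module.End (ZMod (p ^ K)) W), Commute f ε → ∀ n, cr (f ^ n) = cr f ^ n := by
    intro f hf n
    induction n with
    | zero => rw [pow_zero, pow_zero, hcr_one]
    | succ n ih => rw [pow_succ', pow_succ', hcr_mul _ _ hf, ih]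
  have hcr_sum : ∀ (F : ℕ → Module.End (ZMod (p ^ K)) W) (n : ℕ),
      cr (∑ j ∈ Finset.range n, F j) = ∑ j ∈ Finset.range n, cr (F j) := by
    intro F n
    induction n with
    | zero =>
      rw [Finset.sum_range_zero, Finset.sum_range_zero]
      apply LinearMap.ext
      intro m
      apply Subtype.ext
      show ε 0 = 0
      rw [map_zero]
    | succ n ih =>
      rw [Finset.sum_range_succ, Finset.sum_range_succ, ← ih]
      apply LinearMap.ext
      intro m
      apply Subtype.ext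
      show ε ((∑ j ∈ Finset.range n, F j) m + (F n) m) = ε ((∑ j ∈ Finset.range n, F j) m) + ε ((F n) m)
      rw [map_add]
  -- trace
  have htr : LinearMap.trace (ZMod (p ^ K)) W ((x : Module.End (ZMod (p ^ K)) W) * ε) =
      LinearMap.trace (ZMod (p ^ K)) M (cr x) := by
    have h1 : (x : Module.End (ZMod (p ^ K)) W) * ε = ((x : Module.End (ZMod (p ^ K)) W) ∘ₗ i) ∘ₗ s := by
      rw [LinearMap.comp_assoc, his]; rfl
    rw [h1, LinearMap.trace_comp_comm']
  rw [htr]
  have hxE : (x : Module.End (ZMod (p ^ K)) W) ^ p ^ b = 1 := by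
    rw [← Units.val_pow_eq_pow_val, hx, Units.val_one]
  have hcp : p ^ (b - 1) * p = p ^ b := by
    rw [← pow_succ, Nat.sub_add_cancel hb]
  refine pc1_main K b hK hb B (cr x) (cr η) ?_ ?_
  · rw [← hcr_pow _ hxε, hxE, hcr_one]
  · rw [← hcr_ε, ← hcr_pow _ hxε]
    conv_rhs => rw [h]
    unfold TrE
    rw [hcr_sum]
    refine Finset.sum_congr rfl fun j hj => ?_
    have hj' : j < p := Finset.mem_range.1 hj
    have hinv : ((((x ^ p ^ (b - 1)) ^ j)⁻¹ : (Module.End (ZMod (p ^ K)) W)ˣ) :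
        Module.End (ZMod (p ^ K)) W) = ((x : Module.End (ZMod (p ^ K)) W) ^ p ^ (b - 1)) ^ (p - j) := by
      have h1 : ((x ^ p ^ (b - 1)) ^ j)⁻¹ = (x ^ p ^ (b - 1)) ^ (p - j) := by
        rw [inv_eq_iff_mul_eq_one, ← pow_add, show j + (p - j) = p by omega, ← pow_mul, hcp, hx]
      rw [h1]
      simp only [Units.val_pow_eq_pow_val]
    have hco : Commute ((x : Module.End (ZMod (p ^ K)) W) ^ p ^ (b - 1)) ε := hxε.pow_left _
    rw [hinv, hcr_mul' _ _ (hco.pow_left _)]
    simp only [Units.val_pow_eq_pow_val]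
    rw [hcr_mul _ _ (hco.pow_left _), hcr_pow _ hco, hcr_pow _ hco]

end Pool.Agent.Helper495_PQ
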