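import Mathlib
import Pool.Agent.Helper495_PQ.Defs
import Pool.Agent.Helper495_PQ.PA1
set_option autoImplicit false
namespace Pool.Agent.Helper495_PQ

section A1
variable {E : Type*} [Ring E]

end A1

open Classical in
theorem h275_sum_closed {G M : Type} [Group G] [Fintype G] [AddCommGroup M] (f : G → M) (k : ℕ) :
    ∀ S : Finset G, S.card = k → (∀ n ∈ S, ∀ y ∈ Subgroup.zpowers n, y ∈ S) →
      (∀ n ∈ S, ∑ i ∈ Finset.range (orderOf n), f (n ^ i) = 0) → ∑ n ∈ S, f n = 0 := by
  induction k using Nat.strong_induction_on with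
  | _ k ih =>
    intro S hS hcl hz
    rcases S.eq_empty_or_nonempty with rfl | hne
    · simp
    obtain ⟨n, hn, hmax⟩ := S.exists_max_image orderOf hne
    set Z : Finset G := Finset.image (fun i => n ^ i) (Finset.range (orderOf n)) with hZ
    have hmemZ : ∀ y, y ∈ Z ↔ y ∈ Subgroup.zpowers n := fun y =>
      ((isOfFinOrder_of_finite n).mem_zpowers_iff_mem_range_orderOf).symm
    have hZS : ∀ y, y ∈ Z → y ∈ S := fun y hy => hcl n hn y ((hmemZ y).1 hy)
    have hZsum : ∑ y ∈ Z, f y = 0 := by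
      rw [hZ, Finset.sum_image, hz n hn]
      intro i hi j hj hij
      exact pow_injOn_Iio_orderOf (by simpa using hi) (by simpa using hj) hij
    have key : ∀ T : Finset G, (∀ y ∈ T, y ∈ S) → (∀ y ∈ T, ∀ z ∈ Subgroup.zpowers y, z ∈ T) →
        ∑ y ∈ T.filter (fun y => ¬ Subgroup.zpowers y = Subgroup.zpowers n), f y = 0 := by
      intro T hTS hTcl
      apply ih _ _ _ rfl
      · intro y hy z hz'
        rw [Finset.mem_filter] at hy ⊢
        refine ⟨hTcl y hy.1 z hz', fun h => hy.2 ?_⟩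
        have hle : Subgroup.zpowers n ≤ Subgroup.zpowers y := by
          rw [← h]; exact Subgroup.zpowers_le.2 hz'
        refine (Subgroup.eq_of_le_of_card_ge hle ?_).symm
        rw [Nat.card_zpowers, Nat.card_zpowers]
        exact hmax y (hTS y hy.1)
      · intro y hy
        exact hz y (hTS y (Finset.mem_filter.1 hy).1)
      · rw [← hS]
        apply Finset.card_lt_card
        rw [Finset.ssubset_iff_of_subset]
        · exact ⟨n, hn, fun h => (Finset.mem_filter.1 h).2 rfl⟩
        · intro y hy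
          exact hTS y (Finset.mem_filter.1 hy).1
    have hA := key S (fun y hy => hy) hcl
    have hB := key Z hZS (fun y hy z hz' => by
      rw [hmemZ] at hy ⊢
      exact (Subgroup.zpowers_le.2 hy) hz')
    have hE : S.filter (fun y => Subgroup.zpowers y = Subgroup.zpowers n) =
        Z.filter (fun y => Subgroup.zpowers y = Subgroup.zpowers n) := by
      ext y
      rw [Finset.mem_filter, Finset.mem_filter]
      constructor
      · rintro ⟨-, h⟩
        refine ⟨(hmemZ y).2 ?_, h⟩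
        rw [← h]; exact Subgroup.mem_zpowers y
      · rintro ⟨h1, h⟩
        exact ⟨hZS y h1, h⟩
    rw [← Finset.sum_filter_add_sum_filter_not S (fun y => Subgroup.zpowers y = Subgroup.zpowers n),
      hA, hE, add_zero]
    have := Finset.sum_filter_add_sum_filter_not Z (fun y => Subgroup.zpowers y = Subgroup.zpowers n) f
    rw [hB, add_zero, hZsum] at this
    exact this

theorem h275_TT {E : Type} [Ring E] (A : E) (N : ℕ) (hA : A ^ N = 1) :
    (∑ i ∈ Finset.range N, A ^ i) * (∑ i ∈ Finset.range N, A ^ i) =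
      N • (∑ i ∈ Finset.range N, A ^ i) := by
  have h1 : A * (∑ i ∈ Finset.range N, A ^ i) = ∑ i ∈ Finset.range N, A ^ i := by
    rw [Finset.mul_sum]
    have h2 : ∑ i ∈ Finset.range N, A * A ^ i = ∑ i ∈ Finset.range N, A ^ (i + 1) := by
      apply Finset.sum_congr rfl
      intro i _
      rw [pow_succ']
    rw [h2]
    have h3 := Finset.sum_range_succ' (fun i => A ^ i) N
    have h4 := Finset.sum_range_succ (fun i => A ^ i) N
    rw [h4, hA, pow_zero] at h3
    exact (add_right_cancel h3).symm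
  have h2 : ∀ i, A ^ i * (∑ i ∈ Finset.range N, A ^ i) = ∑ i ∈ Finset.range N, A ^ i := by
    intro i
    induction i with
    | zero => simp
    | succ i ih => rw [pow_succ, mul_assoc, h1, ih]
  conv_lhs => rw [Finset.sum_mul]
  rw [Finset.sum_congr rfl (fun i _ => h2 i)]
  simp

theorem h275_claim1 {p : ℕ} [Fact p.Prime] (K c : ℕ) {W : Type}
    [AddCommGroup W] [Module (ZMod (p ^ K)) W]
    (tr : Module.End (ZMod (p ^ K)) W →ₗ[ZMod (p ^ K)] ZMod (p ^ K))
    (htr : ∀ (x : (Module.End (ZMod (p ^ K)) W)ˣ) (ε η : Module.End (ZMod (p ^ K)) W),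
      x ^ p ^ c = 1 → ε * ε = ε → Commute (x : Module.End (ZMod (p ^ K)) W) ε →
      ε = TrE p (x ^ p ^ (c - 1)) η → tr ((x : Module.End (ZMod (p ^ K)) W) * ε) = 0)
    (ε : Module.End (ZMod (p ^ K)) W) (hε : ε * ε = ε)
    (X : (Module.End (ZMod (p ^ K)) W)ˣ) (A : Module.End (ZMod (p ^ K)) W)
    (N : ℕ) (hN : Nat.Coprime N p) (hA : A ^ N = 1)
    (hXA : Commute (X : Module.End (ZMod (p ^ K)) W) A)
    (hXε : Commute (X : Module.End (ZMod (p ^ K)) W) ε)
    (hAε : Commute A ε) (hX : X ^ p ^ c = 1) (η : Module.End (ZMod (p ^ K)) W)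
    (hη : ε = TrE p (X ^ p ^ (c - 1)) η) :
    ∑ i ∈ Finset.range N, tr ((X : Module.End (ZMod (p ^ K)) W) * A ^ i * ε) = 0 := by
  set T : Module.End (ZMod (p ^ K)) W := ∑ i ∈ Finset.range N, A ^ i with hT
  have hTT : T * T = N • T := h275_TT A N hA
  obtain ⟨u, hu⟩ : ∃ u : ZMod (p ^ K), u * (N : ZMod (p ^ K)) = 1 := by
    refine ⟨(((ZMod.unitOfCoprime N (Nat.Coprime.pow_right K hN))⁻¹ : (ZMod (p ^ K))ˣ) : ZMod (p ^ K)), ?_⟩
    rw [← ZMod.coe_unitOfCoprime N (Nat.Coprime.pow_right K hN)]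
    exact Units.inv_mul _
  have hXT : Commute (X : Module.End (ZMod (p ^ K)) W) T :=
    Commute.sum_right _ _ _ (fun i _ => hXA.pow_right i)
  have hTε : Commute T ε := Commute.sum_left _ _ _ (fun i _ => hAε.pow_left i)
  have hTT' : T * T = (N : ZMod (p ^ K)) • T := by rw [hTT, Nat.cast_smul_eq_nsmul]
  have hidem : ((u • T) * ε) * ((u • T) * ε) = (u • T) * ε := by
    have h1 : ((u • T) * ε) * ((u • T) * ε) = (u * u) • ((T * T) * (ε * ε)) := by
      simp only [smul_mul_assoc, mul_smul_comm, smul_smul]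
      congr 1
      rw [mul_assoc T ε (T * ε), ← mul_assoc ε T ε, ← hTε.eq, mul_assoc T ε ε, ← mul_assoc T T (ε * ε)]
    rw [h1, hε, hTT', smul_mul_assoc, smul_smul, smul_mul_assoc]
    congr 1
    rw [mul_assoc, hu, mul_one]
  have hcomm : Commute (X : Module.End (ZMod (p ^ K)) W) ((u • T) * ε) :=
    (hXT.smul_right u).mul_right hXε
  have hXpT : Commute ((X ^ p ^ (c - 1) : (Module.End (ZMod (p ^ K)) W)ˣ) : Module.End (ZMod (p ^ K)) W) (u • T) := by
    rw [Units.val_pow_eq_pow_val]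
    exact (hXT.pow_left _).smul_right u
  have hTr : (u • T) * ε = TrE p (X ^ p ^ (c - 1)) ((u • T) * η) := by
    rw [TrE_mul_left _ _ _ _ hXpT, ← hη]
  have h0 := htr X _ _ hX hidem hcomm hTr
  have h1 : (X : Module.End (ZMod (p ^ K)) W) * ((u • T) * ε) =
      u • ∑ i ∈ Finset.range N, (X : Module.End (ZMod (p ^ K)) W) * A ^ i * ε := by
    rw [smul_mul_assoc, mul_smul_comm, hT, Finset.sum_mul, Finset.mul_sum]
    simp only [mul_assoc]
  rw [h1, map_smul, map_sum, smul_eq_mul] at h0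
  have h2 := congrArg (fun z => (N : ZMod (p ^ K)) * z) h0
  simp only [mul_zero] at h2
  rw [← mul_assoc, mul_comm (N : ZMod (p ^ K)) u, hu, one_mul] at h2
  exact h2

theorem h275_level {p : ℕ} [hp : Fact p.Prime] {G : Type} [Group G] [Finite G] (q m e : ℕ)
    (hqm : Nat.Coprime q m) (a : ℕ) (hq : q = p ^ a) (hpm : Nat.Coprime p m)
    (hcard : ∀ g : G, g ^ (q * m) = 1)
    (he1 : e ≡ 1 [MOD q]) (he0 : e ≡ 0 [MOD m]) (g : G) :
    (g ^ e) ^ q = 1 ∧ ((g ^ e)⁻¹ * g) ^ m = 1 ∧
      ∀ b, ((orderOf g).factorization p = b ↔ orderOf (g ^ e) = p ^ b) := by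
  have h1 : (g ^ e) ^ q = 1 := by
    rw [← pow_mul]
    obtain ⟨k, hk⟩ := (Nat.modEq_zero_iff_dvd.1 he0)
    rw [hk, show m * k * q = (q * m) * k by ring, pow_mul, hcard, one_pow]
  have h2 : ((g ^ e)⁻¹ * g) ^ m = 1 := by
    have hc : Commute (g ^ e)⁻¹ g := ((Commute.refl g).pow_left e).inv_left
    rw [hc.mul_pow, inv_pow, ← pow_mul, inv_mul_eq_one]
    rw [pow_eq_pow_iff_modEq]
    have h3 : e * m ≡ 1 * m [MOD q * m] := he1.mul_right' m
    rw [one_mul] at h3
    exact h3.of_dvd (orderOf_dvd_of_pow_eq_one (hcard g))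
  refine ⟨h1, h2, ?_⟩
  obtain ⟨j, -, hj⟩ := (Nat.dvd_prime_pow hp.out).1 (hq ▸ orderOf_dvd_of_pow_eq_one h1)
  have hy : Nat.Coprime p (orderOf ((g ^ e)⁻¹ * g)) :=
    Nat.Coprime.coprime_dvd_right (orderOf_dvd_of_pow_eq_one h2) hpm
  have hcop : Nat.Coprime (orderOf (g ^ e)) (orderOf ((g ^ e)⁻¹ * g)) := by
    rw [hj]; exact Nat.Coprime.pow_left j hy
  have hc : Commute (g ^ e) ((g ^ e)⁻¹ * g) :=
    ((Commute.refl (g ^ e)).inv_right).mul_right ((Commute.refl g).pow_left e)
  have ho := hc.orderOf_mul_eq_mul_orderOf_of_coprime hcop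
  rw [mul_inv_cancel_left, hj] at ho
  have hne : orderOf ((g ^ e)⁻¹ * g) ≠ 0 := (orderOf_pos _).ne'
  have hf : (orderOf g).factorization p = j := by
    rw [ho, Nat.factorization_mul (pow_ne_zero _ hp.out.ne_zero) hne, Finsupp.add_apply,
      Nat.factorization_pow, Finsupp.smul_apply, hp.out.factorization_self,
      Nat.factorization_eq_zero_of_not_dvd]
    · simp
    · exact (Nat.Prime.coprime_iff_not_dvd hp.out).1 hy
  intro b
  rw [hf, hj]
  constructor
  · rintro rfl; rfl
  · intro h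
    exact Nat.pow_right_injective hp.out.two_le h

theorem sum_level_zero {p : ℕ} [Fact p.Prime] (K b c : ℕ) (hc : 1 ≤ c) {W : Type}
    [AddCommGroup W] [Module (ZMod (p ^ K)) W]
    {G : Type} [Group G] [Fintype G] (ρ : G →* (Module.End (ZMod (p ^ K)) W)ˣ)
    (v : (Module.End (ZMod (p ^ K)) W)ˣ) (hv : ∀ g, Commute (ρ g) v)
    (tr : Module.End (ZMod (p ^ K)) W →ₗ[ZMod (p ^ K)] ZMod (p ^ K))
    (htr : ∀ (x : (Module.End (ZMod (p ^ K)) W)ˣ) (ε η : Module.End (ZMod (p ^ K)) W),
      x ^ p ^ c = 1 → ε * ε = ε → Commute (x : Module.End (ZMod (p ^ K)) W) ε →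
      ε = TrE p (x ^ p ^ (c - 1)) η → tr ((x : Module.End (ZMod (p ^ K)) W) * ε) = 0)
    (ε : Module.End (ZMod (p ^ K)) W) (hε : ε * ε = ε)
    (hρε : ∀ g, Commute (ρ g : Module.End (ZMod (p ^ K)) W) ε)
    (hvε : Commute (v : Module.End (ZMod (p ^ K)) W) ε)
    (h : ∀ x : G, orderOf x = p ^ b → (ρ x * v) ^ p ^ c = 1 ∧
      ∃ η, ε = TrE p ((ρ x * v) ^ p ^ (c - 1)) η) :
    (∑ g : G, if (orderOf g).factorization p = b then
      tr ((ρ g : Module.End (ZMod (p ^ K)) W) * v * ε) else 0) = 0 := by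
  classical
  set F : G → ZMod (p ^ K) := fun g =>
    tr ((ρ g : Module.End (ZMod (p ^ K)) W) * v * ε) with hF
  have hp : p.Prime := Fact.out
  have hcard0 : Nat.card G ≠ 0 := Nat.card_pos.ne'
  set q : ℕ := p ^ (Nat.card G).factorization p with hq
  set m : ℕ := Nat.card G / p ^ (Nat.card G).factorization p with hm
  have hqm0 : q * m = Nat.card G := Nat.ordProj_mul_ordCompl_eq_self _ _
  have hpm : Nat.Coprime p m := Nat.coprime_ordCompl hp hcard0
  have hqm : Nat.Coprime q m := Nat.Coprime.pow_left _ hpm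
  have hcard : ∀ g : G, g ^ (q * m) = 1 := fun g => by rw [hqm0]; exact pow_card_eq_one'
  obtain ⟨e, he1, he0⟩ := Nat.chineseRemainder hqm 1 0
  have hlev := fun g : G => h275_level (p := p) q m e hqm _ hq hpm hcard he1 he0 g
  have hS1 : (∑ g : G, if (orderOf g).factorization p = b then
      tr ((ρ g : Module.End (ZMod (p ^ K)) W) * v * ε) else 0) =
      ∑ g ∈ Finset.univ.filter (fun g : G => orderOf (g ^ e) = p ^ b), F g := by
    rw [Finset.sum_filter]
    apply Finset.sum_congr rfl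
    intro g _
    exact if_congr ((hlev g).2.2 b) rfl rfl
  rw [hS1, ← Finset.sum_fiberwise_of_maps_to (s := Finset.univ.filter (fun g : G => orderOf (g ^ e) = p ^ b))
    (t := Finset.univ.filter (fun x : G => orderOf x = p ^ b)) (g := fun g => g ^ e)]
  · apply Finset.sum_eq_zero
    intro x hx
    rw [Finset.mem_filter] at hx
    have hxo : orderOf x = p ^ b := hx.2
    have hxe : x ^ e = x := by
      have hxq : x ^ q = 1 := by
        rw [← orderOf_dvd_iff_pow_eq_one]
        have h1 : orderOf x ∣ q * m := by rw [hqm0]; exact orderOf_dvd_natCard x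
        rw [hxo] at h1 ⊢
        exact (Nat.Coprime.pow_left b hpm).dvd_of_dvd_mul_right h1
      conv_rhs => rw [← pow_one x]
      rw [pow_eq_pow_iff_modEq]
      exact he1.of_dvd (orderOf_dvd_of_pow_eq_one hxq)
    have hbij : ∑ g ∈ (Finset.univ.filter (fun g : G => orderOf (g ^ e) = p ^ b)).filter
        (fun g => g ^ e = x), F g =
        ∑ n ∈ Finset.univ.filter (fun n : G => Commute x n ∧ n ^ m = 1), F (x * n) := by
      refine Finset.sum_nbij' (fun g => x⁻¹ * g) (fun n => x * n) ?_ ?_ ?_ ?_ ?_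
      · intro g hg
        rw [Finset.mem_filter, Finset.mem_filter] at hg
        rw [Finset.mem_filter]
        obtain ⟨-, hgx⟩ := hg
        refine ⟨Finset.mem_univ _, ?_, ?_⟩
        · rw [← hgx]
          exact ((Commute.refl (g ^ e)).inv_right).mul_right ((Commute.refl g).pow_left e)
        · rw [← hgx]
          exact (hlev g).2.1
      · intro n hn
        rw [Finset.mem_filter] at hn
        obtain ⟨-, hc1, hnm⟩ := hn
        have hne : n ^ e = 1 := by
          obtain ⟨k, hk⟩ := Nat.modEq_zero_iff_dvd.1 he0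
          rw [hk, pow_mul, hnm, one_pow]
        have hxn : (x * n) ^ e = x := by rw [hc1.mul_pow, hxe, hne, mul_one]
        rw [Finset.mem_filter, Finset.mem_filter]
        exact ⟨⟨Finset.mem_univ _, by rw [hxn, hxo]⟩, hxn⟩
      · intro g _
        simp
      · intro n _
        simp
      · intro g _
        simp
    rw [hbij]
    apply h275_sum_closed (fun n => F (x * n)) _ _ rfl
    · intro n hn y hy
      rw [Finset.mem_filter] at hn ⊢
      obtain ⟨z, rfl⟩ := Subgroup.mem_zpowers_iff.1 hy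
      refine ⟨Finset.mem_univ _, hn.2.1.zpow_right z, ?_⟩
      rw [← zpow_natCast, ← zpow_mul, mul_comm, zpow_mul, zpow_natCast, hn.2.2, one_zpow]
    · intro n hn
      rw [Finset.mem_filter] at hn
      obtain ⟨-, hcx, hnm⟩ := hn
      obtain ⟨hX, η, hη⟩ := h x hxo
      have hN : Nat.Coprime (orderOf n) p :=
        (Nat.Coprime.coprime_dvd_right (orderOf_dvd_of_pow_eq_one hnm) hpm).symm
      have hρn : (ρ n : Module.End (ZMod (p ^ K)) W) ^ orderOf n = 1 := by
        rw [← Units.val_pow_eq_pow_val, ← map_pow, pow_orderOf_eq_one, map_one, Units.val_one]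
      have hvn : Commute (v : Module.End (ZMod (p ^ K)) W) (ρ n : Module.End (ZMod (p ^ K)) W) := by
        have := hv n
        exact (this.units_val).symm
      have hxn : Commute (ρ x : Module.End (ZMod (p ^ K)) W) (ρ n : Module.End (ZMod (p ^ K)) W) :=
        (hcx.map ρ).units_val
      have hXA : Commute ((ρ x * v : (Module.End (ZMod (p ^ K)) W)ˣ) : Module.End (ZMod (p ^ K)) W)
          (ρ n : Module.End (ZMod (p ^ K)) W) := by
        rw [Units.val_mul]
        exact hxn.mul_left hvn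
      have hXε : Commute ((ρ x * v : (Module.End (ZMod (p ^ K)) W)ˣ) : Module.End (ZMod (p ^ K)) W) ε := by
        rw [Units.val_mul]
        exact (hρε x).mul_left hvε
      have hcl := h275_claim1 K c tr htr ε hε (ρ x * v) (ρ n : Module.End (ZMod (p ^ K)) W)
        (orderOf n) hN hρn hXA hXε (hρε n) hX η hη
      rw [← hcl]
      apply Finset.sum_congr rfl
      intro i _
      rw [hF]
      simp only
      congr 1
      rw [map_mul, map_pow, Units.val_mul, Units.val_pow_eq_pow_val, Units.val_mul]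
      congr 1
      rw [mul_assoc, mul_assoc, (hvn.pow_right i).eq]
  · intro g hg
    rw [Finset.mem_filter] at hg ⊢
    exact ⟨Finset.mem_univ _, hg.2⟩

end Pool.Agent.Helper495_PQ
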