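import Mathlib
import Pool.Agent.Helper495_PQ.Defs
import Pool.Agent.Helper495_PQ.GA
import Pool.Agent.Helper495_PQ.PA1
import Pool.Agent.Helper495_PQ.PC1
import Pool.Agent.Helper495_PQ.PC2
set_option autoImplicit false
namespace Pool.Agent.Helper495_PQ

section A1
variable {E : Type*} [Ring E]

end A1

section PCcorner
variable {A : Type} [Ring A] {e : A} (idem : IsIdempotentElem e)

/-- the value map of the corner -/
def pc3_cv : idem.Corner →+ A where
  toFun x := x.1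
  map_zero' := rfl
  map_add' _ _ := rfl

theorem pc3_cv_inj (x y : idem.Corner) (h : pc3_cv idem x = pc3_cv idem y) : x = y := Subtype.ext h

theorem pc3_cv_mul (x y : idem.Corner) : pc3_cv idem (x * y) = pc3_cv idem x * pc3_cv idem y := rfl

theorem pc3_cv_one : pc3_cv idem (1 : idem.Corner) = e := rfl

theorem pc3_cv_left (x : idem.Corner) : e * pc3_cv idem x = pc3_cv idem x :=
  ((Subsemigroup.mem_corner_iff idem).mp x.2).1

theorem pc3_cv_right (x : idem.Corner) : pc3_cv idem x * e = pc3_cv idem x :=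
  ((Subsemigroup.mem_corner_iff idem).mp x.2).2

/-- elements of the corner from elements commuting with the idempotent -/
def pc3_mk (x : A) (h : Commute x e) : idem.Corner :=
  ⟨x * e, (Subsemigroup.mem_corner_iff idem).mpr ⟨by
    rw [← mul_assoc, ← h.eq, mul_assoc, idem.eq], by rw [mul_assoc, idem.eq]⟩⟩

theorem pc3_cv_mk (x : A) (h : Commute x e) : pc3_cv idem (pc3_mk idem x h) = x * e := rfl

/-- units of the corner -/
def pc3_u (d : Aˣ) (h : Commute (d : A) e) : (idem.Corner)ˣ where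
  val := pc3_mk idem (d : A) h
  inv := pc3_mk idem ((d⁻¹ : Aˣ) : A) h.units_inv_left
  val_inv := by
    apply pc3_cv_inj
    rw [pc3_cv_mul, pc3_cv_mk, pc3_cv_mk, pc3_cv_one]
    have h2 : Commute ((d⁻¹ : Aˣ) : A) e := h.units_inv_left
    rw [mul_assoc, ← mul_assoc e, ← h2.eq, mul_assoc, idem.eq, ← mul_assoc, Units.mul_inv, one_mul]
  inv_val := by
    apply pc3_cv_inj
    rw [pc3_cv_mul, pc3_cv_mk, pc3_cv_mk, pc3_cv_one]
    rw [mul_assoc, ← mul_assoc e, ← h.eq, mul_assoc, idem.eq, ← mul_assoc, Units.inv_mul, one_mul]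

theorem pc3_u_val (d : Aˣ) (h : Commute (d : A) e) : pc3_cv idem ((pc3_u idem d h : (idem.Corner)ˣ) : idem.Corner) = (d : A) * e := rfl

theorem pc3_u_inv (d : Aˣ) (h : Commute (d : A) e) :
    pc3_cv idem (((pc3_u idem d h)⁻¹ : (idem.Corner)ˣ) : idem.Corner) = ((d⁻¹ : Aˣ) : A) * e := rfl

theorem pc3_comm_mul (d1 d2 : Aˣ) (h1 : Commute (d1 : A) e) (h2 : Commute (d2 : A) e) :
    Commute ((d1 * d2 : Aˣ) : A) e := by
  rw [Units.val_mul]; exact h1.mul_left h2

theorem pc3_u_mul (d1 d2 : Aˣ) (h1 : Commute (d1 : A) e) (h2 : Commute (d2 : A) e) :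
    pc3_u idem (d1 * d2) (pc3_comm_mul d1 d2 h1 h2) = pc3_u idem d1 h1 * pc3_u idem d2 h2 := by
  apply Units.ext
  apply pc3_cv_inj
  rw [Units.val_mul, pc3_cv_mul, pc3_u_val, pc3_u_val, pc3_u_val, Units.val_mul]
  rw [mul_assoc (d1 : A) e, ← mul_assoc e, ← h2.eq, mul_assoc (d2 : A) e e, idem.eq, mul_assoc]

theorem pc3_comm_pow (d : Aˣ) (h : Commute (d : A) e) (n : ℕ) : Commute ((d ^ n : Aˣ) : A) e := by
  rw [Units.val_pow_eq_pow_val]; exact h.pow_left n

theorem pc3_u_one : pc3_u idem 1 (by rw [Units.val_one]; exact Commute.one_left e) = 1 := by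
  apply Units.ext
  apply pc3_cv_inj
  rw [pc3_u_val, Units.val_one, Units.val_one, pc3_cv_one, one_mul]

theorem pc3_u_congr (d1 d2 : Aˣ) (h : d1 = d2) (h1 : Commute (d1 : A) e) (h2 : Commute (d2 : A) e) :
    pc3_u idem d1 h1 = pc3_u idem d2 h2 := by subst h; rfl

theorem pc3_u_pow (d : Aˣ) (h : Commute (d : A) e) (n : ℕ) :
    pc3_u idem (d ^ n) (pc3_comm_pow d h n) = pc3_u idem d h ^ n := by
  induction n with
  | zero =>
    simp only [pow_zero]
    exact pc3_u_one idem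
  | succ n ih =>
    rw [pow_succ (pc3_u idem d h), ← ih, ← pc3_u_mul]
    exact pc3_u_congr idem _ _ (pow_succ d n) _ _

theorem pc3_TrE (n : ℕ) (d : Aˣ) (h : Commute (d : A) e) (z : idem.Corner) :
    pc3_cv idem (TrE n (pc3_u idem d h) z) = TrE n d (pc3_cv idem z) := by
  unfold TrE
  rw [map_sum]
  apply Finset.sum_congr rfl
  intro i _
  rw [← pc3_u_pow, pc3_cv_mul, pc3_cv_mul, pc3_u_val, pc3_u_inv]
  have h2 : Commute (((d ^ i)⁻¹ : Aˣ) : A) e := (pc3_comm_pow d h i).units_inv_left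
  calc ((d ^ i : Aˣ) : A) * e * pc3_cv idem z * ((((d ^ i)⁻¹ : Aˣ) : A) * e)
      = ((d ^ i : Aˣ) : A) * (e * pc3_cv idem z) * ((((d ^ i)⁻¹ : Aˣ) : A) * e) := by rw [mul_assoc _ e]
    _ = ((d ^ i : Aˣ) : A) * pc3_cv idem z * (e * (((d ^ i)⁻¹ : Aˣ) : A)) := by rw [pc3_cv_left, h2.eq]
    _ = ((d ^ i : Aˣ) : A) * (pc3_cv idem z * e) * (((d ^ i)⁻¹ : Aˣ) : A) := by simp only [mul_assoc]
    _ = _ := by rw [pc3_cv_right]

theorem pc3_comm (d : Aˣ) (h : Commute (d : A) e) (z : idem.Corner)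
    (hz : Commute ((pc3_u idem d h : (idem.Corner)ˣ) : idem.Corner) z) : Commute (d : A) (pc3_cv idem z) := by
  have h1 := congrArg (pc3_cv idem) hz.eq
  rw [pc3_cv_mul, pc3_cv_mul, pc3_u_val, mul_assoc, pc3_cv_left, h.eq, ← mul_assoc, pc3_cv_right] at h1
  exact h1

theorem pc3_cast (n : ℕ) : pc3_cv idem (n : idem.Corner) = n • e := by
  rw [← nsmul_one, map_nsmul, pc3_cv_one]

end PCcorner

/-- the relative trace over the group of a unit -/
theorem pc3_coset {G : Type} [Group G] [Fintype G] {A : Type} [Ring A] (ρ : G →* Aˣ) (β : A)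
    (hβ : ∑ g : G, (ρ g : A) * β * (((ρ g)⁻¹ : Aˣ) : A) = 1) (y : G) (n : ℕ) (hy : orderOf y = n) :
    ∃ η : A, TrE n (ρ y) η = 1 := by
  classical
  set Z := Subgroup.zpowers y with hZ
  set F : G → A := fun g => (ρ g : A) * β * (((ρ g)⁻¹ : Aˣ) : A) with hF
  have hFm : ∀ a b : G, F (a * b) = (ρ a : A) * F b * (((ρ a)⁻¹ : Aˣ) : A) := by
    intro a b
    simp only [hF, map_mul, mul_inv_rev, Units.val_mul, mul_assoc]
  refine ⟨∑ q : G ⧸ Z, F (q.out)⁻¹, ?_⟩
  have e1 : ∑ g : G, F g = ∑ g : G, F g⁻¹ := (Equiv.sum_comp (Equiv.inv G) F).symm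
  have e2 : ∑ g : G, F g⁻¹ = ∑ x : (G ⧸ Z) × Z, F ((x.2 : G)⁻¹ * (x.1.out)⁻¹) := by
    have hbij : Function.Bijective (fun x : (G ⧸ Z) × Z => x.1.out * (x.2 : G)) := by
      constructor
      · rintro ⟨q, h⟩ ⟨q', h'⟩ hh
        simp only at hh
        have h1 : ((q.out * (h : G) : G) : G ⧸ Z) = q := by
          rw [QuotientGroup.mk_mul_of_mem _ h.2]; exact q.out_eq'
        have h2 : ((q'.out * (h' : G) : G) : G ⧸ Z) = q' := by
          rw [QuotientGroup.mk_mul_of_mem _ h'.2]; exact q'.out_eq'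
        have h3 : q = q' := by rw [← h1, ← h2, hh]
        subst h3
        have h4 : (h : G) = h' := mul_left_cancel hh
        rw [Subtype.ext h4]
      · intro g
        have h1 : ((g : G ⧸ Z).out)⁻¹ * g ∈ Z := by
          rw [← QuotientGroup.eq]; exact (g : G ⧸ Z).out_eq'
        exact ⟨((g : G ⧸ Z), ⟨_, h1⟩), by simp⟩
    rw [← hbij.sum_comp (fun g => F g⁻¹)]
    apply Finset.sum_congr rfl
    rintro ⟨q, h⟩ _
    simp only [mul_inv_rev]
  have e3 : ∑ x : (G ⧸ Z) × Z, F ((x.2 : G)⁻¹ * (x.1.out)⁻¹) =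
      ∑ h : Z, (ρ ((h : G)⁻¹) : A) * (∑ q : G ⧸ Z, F (q.out)⁻¹) * (((ρ ((h : G)⁻¹))⁻¹ : Aˣ) : A) := by
    rw [Fintype.sum_prod_type_right]
    apply Finset.sum_congr rfl
    intro h _
    rw [Finset.mul_sum, Finset.sum_mul]
    apply Finset.sum_congr rfl
    intro q _
    exact hFm _ _
  have e4 : ∑ h : Z, (ρ ((h : G)⁻¹) : A) * (∑ q : G ⧸ Z, F (q.out)⁻¹) * (((ρ ((h : G)⁻¹))⁻¹ : Aˣ) : A) =
      ∑ h : Z, (ρ (h : G) : A) * (∑ q : G ⧸ Z, F (q.out)⁻¹) * (((ρ (h : G))⁻¹ : Aˣ) : A) := by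
    rw [← Equiv.sum_comp (Equiv.inv Z)]
    apply Finset.sum_congr rfl
    intro h _
    simp
  have e5 : ∑ h : Z, (ρ (h : G) : A) * (∑ q : G ⧸ Z, F (q.out)⁻¹) * (((ρ (h : G))⁻¹ : Aˣ) : A) =
      TrE n (ρ y) (∑ q : G ⧸ Z, F (q.out)⁻¹) := by
    unfold TrE
    subst hy
    rw [← Equiv.sum_comp (finEquivZPowers (isOfFinOrder_of_finite y)), Finset.sum_range]
    apply Finset.sum_congr rfl
    intro i _
    rw [finEquivZPowers_apply]
    simp
  rw [← e5, ← e4, ← e3, ← e2, ← e1]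
  exact hβ

theorem trace_GT {p : ℕ} [Fact p.Prime] (K a : ℕ) (hK : 1 ≤ K) (ha : 1 ≤ a) {W : Type}
    [AddCommGroup W] [Finite W] [Module (ZMod (p ^ K)) W] [Module.Finite (ZMod (p ^ K)) W]
    [Module.Free (ZMod (p ^ K)) W]
    {G : Type} [Group G] [Fintype G] (ρ : G →* (Module.End (ZMod (p ^ K)) W)ˣ)
    (v : (Module.End (ZMod (p ^ K)) W)ˣ) (hv : ∀ g, Commute (ρ g) v) (hc : v ^ p ^ a = 1)
    (β : Module.End (ZMod (p ^ K)) W)
    (hβ : ∑ g : G, (ρ g : Module.End (ZMod (p ^ K)) W) * β *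
      (((ρ g)⁻¹ : (Module.End (ZMod (p ^ K)) W)ˣ) : Module.End (ZMod (p ^ K)) W) = 1)
    (e0 : Module.End (ZMod (p ^ K)) W) (he0 : e0 * e0 = e0)
    (hρe : ∀ g, Commute (ρ g : Module.End (ZMod (p ^ K)) W) e0)
    (hve : Commute (v : Module.End (ZMod (p ^ K)) W) e0)
    (hG : (∑ g : G, (ρ g : Module.End (ZMod (p ^ K)) W)) * e0 = 0) :
    (∑ g : G, if (orderOf g).factorization p = a then
      LinearMap.trace (ZMod (p ^ K)) W ((ρ g : Module.End (ZMod (p ^ K)) W) * v * e0) else 0) = 0 := by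
  classical
  have hp : p.Prime := Fact.out
  have idem : IsIdempotentElem e0 := he0
  have hfin : Finite (Module.End (ZMod (p ^ K)) W) :=
    Finite.of_injective (fun f : Module.End (ZMod (p ^ K)) W => (f : W → W)) DFunLike.coe_injective
  have : Finite idem.Corner := Finite.of_injective (pc3_cv idem) (fun x y h => pc3_cv_inj idem x y h)
  let ρ0 : G →* (idem.Corner)ˣ :=
    { toFun := fun g => pc3_u idem (ρ g) (hρe g)
      map_one' := by
        have h := pc3_u_congr idem (ρ 1) 1 (map_one ρ) (hρe 1) (by rw [Units.val_one]; exact Commute.one_left e0)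
        exact h.trans (pc3_u_one idem)
      map_mul' := fun g h => by
        rw [← pc3_u_mul]
        exact pc3_u_congr idem _ _ (map_mul ρ g h) _ _ }
  have hρ0 : ∀ g, ρ0 g = pc3_u idem (ρ g) (hρe g) := fun g => rfl
  set v0 : (idem.Corner)ˣ := pc3_u idem v hve with hv0def
  have hv0 : ∀ g, Commute (ρ0 g) v0 := by
    intro g
    show ρ0 g * v0 = v0 * ρ0 g
    rw [hρ0, hv0def, ← pc3_u_mul, ← pc3_u_mul]
    exact pc3_u_congr idem _ _ (hv g).eq _ _
  have hK0 : (p : idem.Corner) ^ K = 0 := by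
    rw [← Nat.cast_pow]
    apply pc3_cv_inj
    rw [pc3_cast, map_zero, ← Nat.cast_smul_eq_nsmul (ZMod (p ^ K)), ZMod.natCast_self, zero_smul]
  have hc0 : v0 ^ p ^ a = 1 := by
    rw [hv0def, ← pc3_u_pow, ← pc3_u_one idem]
    exact pc3_u_congr idem _ _ hc _ _
  let β0 : idem.Corner := ⟨e0 * β * e0, β, rfl⟩
  have hβ0v : pc3_cv idem β0 = e0 * β * e0 := rfl
  have hβ0 : ∑ g : G, (ρ0 g : idem.Corner) * β0 * (((ρ0 g)⁻¹ : (idem.Corner)ˣ) : idem.Corner) = 1 := by
    apply pc3_cv_inj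
    rw [map_sum, pc3_cv_one]
    calc ∑ g : G, pc3_cv idem ((ρ0 g : idem.Corner) * β0 * (((ρ0 g)⁻¹ : (idem.Corner)ˣ) : idem.Corner))
        = ∑ g : G, e0 * ((ρ g : Module.End (ZMod (p ^ K)) W) * β *
      (((ρ g)⁻¹ : (Module.End (ZMod (p ^ K)) W)ˣ) : Module.End (ZMod (p ^ K)) W)) * e0 := by
          apply Finset.sum_congr rfl
          intro g _
          rw [pc3_cv_mul, pc3_cv_mul, hρ0, pc3_u_val, pc3_u_inv, hβ0v]
          have h1 := (hρe g).eq
          have h2 : Commute (((ρ g)⁻¹ : (Module.End (ZMod (p ^ K)) W)ˣ) : Module.End (ZMod (p ^ K)) W) e0 :=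
            (hρe g).units_inv_left
          calc (ρ g : Module.End (ZMod (p ^ K)) W) * e0 * (e0 * β * e0) *
                ((((ρ g)⁻¹ : (Module.End (ZMod (p ^ K)) W)ˣ) : Module.End (ZMod (p ^ K)) W) * e0)
              = (ρ g : Module.End (ZMod (p ^ K)) W) * (e0 * e0) * β * e0 *
                ((((ρ g)⁻¹ : (Module.End (ZMod (p ^ K)) W)ˣ) : Module.End (ZMod (p ^ K)) W) * e0) := by
                simp only [mul_assoc]
            _ = (ρ g : Module.End (ZMod (p ^ K)) W) * e0 * β * e0 *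
                (e0 * (((ρ g)⁻¹ : (Module.End (ZMod (p ^ K)) W)ˣ) : Module.End (ZMod (p ^ K)) W)) := by
                rw [he0, h2.eq]
            _ = (ρ g : Module.End (ZMod (p ^ K)) W) * e0 * β * ((e0 * e0) *
                (((ρ g)⁻¹ : (Module.End (ZMod (p ^ K)) W)ˣ) : Module.End (ZMod (p ^ K)) W)) := by
                simp only [mul_assoc]
            _ = e0 * (ρ g : Module.End (ZMod (p ^ K)) W) * β *
                ((((ρ g)⁻¹ : (Module.End (ZMod (p ^ K)) W)ˣ) : Module.End (ZMod (p ^ K)) W) * e0) := by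
                rw [he0, h2.eq, h1]
            _ = _ := by simp only [mul_assoc]
      _ = e0 := by
          rw [← Finset.sum_mul, ← Finset.mul_sum, hβ, mul_one, he0]
  obtain ⟨ε0, hεi, hρε0, hvε0, ⟨η1, hη1⟩, hη2⟩ := main_idem' ρ0 v0 hv0 p a K ha hK0 hc0 β0 hβ0
  set ε := pc3_cv idem ε0 with hεdef
  have hεε : ε * ε = ε := by rw [hεdef, ← pc3_cv_mul, hεi]
  have hρε : ∀ g, Commute (ρ g : Module.End (ZMod (p ^ K)) W) ε :=
    fun g => pc3_comm idem (ρ g) (hρe g) ε0 (hρε0 g)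
  have hvε : Commute (v : Module.End (ZMod (p ^ K)) W) ε := pc3_comm idem v hve ε0 hvε0
  have he0ε : e0 * ε = ε := pc3_cv_left idem ε0
  have hεe0 : ε * e0 = ε := pc3_cv_right idem ε0
  have hε1 : ε = TrE p (v ^ p ^ (a - 1)) (pc3_cv idem η1) := by
    rw [hεdef, hη1, hv0def, ← pc3_u_pow, pc3_TrE]
  have hε2 : ∀ y : G, orderOf y = p → ∃ η, e0 - ε = TrE p (ρ y * v ^ p ^ (a - 1)) η := by
    intro y hy
    obtain ⟨η, hη⟩ := hη2 y hy
    refine ⟨pc3_cv idem η, ?_⟩
    have h1 := congrArg (pc3_cv idem) hη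
    rw [map_sub, pc3_cv_one, hρ0, hv0def, ← pc3_u_pow, ← pc3_u_mul, pc3_TrE] at h1
    exact h1
  have htr : ∀ c, 1 ≤ c → ∀ (x : (Module.End (ZMod (p ^ K)) W)ˣ) (ε η : Module.End (ZMod (p ^ K)) W),
      x ^ p ^ c = 1 → ε * ε = ε → Commute (x : Module.End (ZMod (p ^ K)) W) ε →
      ε = TrE p (x ^ p ^ (c - 1)) η →
      LinearMap.trace (ZMod (p ^ K)) W ((x : Module.End (ZMod (p ^ K)) W) * ε) = 0 :=
    fun c hc x ε η h1 h2 h3 h4 => trace_idem_zero K c hK hc x h1 ε η h2 h3 h4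
  have hpow : ∀ (x : G) (n : ℕ), (ρ x * v) ^ n = ρ (x ^ n) * v ^ n := by
    intro x n
    rw [(hv x).mul_pow, map_pow]
  have hyord : ∀ (x : G) (c : ℕ), 1 ≤ c → orderOf x = p ^ c → orderOf (x ^ p ^ (c - 1)) = p := by
    intro x c hc1 hx
    have hdvd : p ^ (c - 1) ∣ orderOf x := by rw [hx]; exact pow_dvd_pow p (by omega)
    rw [orderOf_pow_of_dvd (pow_ne_zero _ hp.ne_zero) hdvd, hx, Nat.pow_div (by omega) hp.pos]
    rw [show c - (c - 1) = 1 by omega, pow_one]
  set S : ℕ → Module.End (ZMod (p ^ K)) W → ZMod (p ^ K) := fun b z =>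
    ∑ g : G, if (orderOf g).factorization p = b then
      LinearMap.trace (ZMod (p ^ K)) W ((ρ g : Module.End (ZMod (p ^ K)) W) * v * z) else 0 with hS
  have hSi : S a (e0 - ε) = 0 := by
    apply sum_level_zero K a a ha ρ v hv _ (htr a ha) (e0 - ε)
    · rw [mul_sub, sub_mul, sub_mul, he0, he0ε, hεe0, hεε]; abel
    · intro g; exact (hρe g).sub_right (hρε g)
    · exact hve.sub_right hvε
    · intro x hx
      constructor
      · rw [hpow, ← hx, pow_orderOf_eq_one, map_one, one_mul, hx, hc]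
      · obtain ⟨η, hη⟩ := hε2 _ (hyord x a ha hx)
        exact ⟨η, by rw [hpow]; exact hη⟩
  have hSii : ∀ b, b < a → S b ε = 0 := by
    intro b hb
    apply sum_level_zero K b a ha ρ v hv _ (htr a ha) ε hεε hρε hvε
    intro x hx
    have hx1 : ∀ n, b ≤ n → x ^ p ^ n = 1 := by
      intro n hn
      apply orderOf_dvd_iff_pow_eq_one.mp
      rw [hx]; exact pow_dvd_pow p hn
    constructor
    · rw [hpow, hx1 a hb.le, map_one, one_mul, hc]
    · refine ⟨pc3_cv idem η1, ?_⟩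
      rw [hpow, hx1 (a - 1) (by omega), map_one, one_mul]
      exact hε1
  have hSiii : ∀ b, a < b → S b ε = 0 := by
    intro b hb
    apply sum_level_zero K b b (by omega) ρ v hv _ (htr b (by omega)) ε hεε hρε hvε
    intro x hx
    have hv1 : ∀ n, a ≤ n → v ^ p ^ n = 1 := by
      intro n hn
      obtain ⟨m, rfl⟩ := Nat.exists_eq_add_of_le hn
      rw [pow_add, pow_mul, hc, one_pow]
    constructor
    · rw [hpow, hv1 b hb.le, mul_one, ← hx, pow_orderOf_eq_one, map_one]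
    · obtain ⟨η, hη⟩ := pc3_coset ρ β hβ (x ^ p ^ (b - 1)) p (hyord x b (by omega) hx)
      refine ⟨η * ε, ?_⟩
      rw [hpow, hv1 (b - 1) (by omega), mul_one, TrE_mul_right _ _ _ _ (hρε _), hη, one_mul]
  have hSall : ∑ b ∈ Finset.univ.image (fun g : G => (orderOf g).factorization p), S b ε = 0 := by
    simp only [hS]
    rw [Finset.sum_comm]
    have h1 : ∀ g ∈ (Finset.univ : Finset G), (∑ b ∈ Finset.univ.image (fun g : G => (orderOf g).factorization p),
        if (orderOf g).factorization p = b then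
          LinearMap.trace (ZMod (p ^ K)) W ((ρ g : Module.End (ZMod (p ^ K)) W) * v * ε) else 0) =
        LinearMap.trace (ZMod (p ^ K)) W ((ρ g : Module.End (ZMod (p ^ K)) W) * v * ε) := by
      intro g _
      rw [Finset.sum_ite_eq, if_pos]
      exact Finset.mem_image_of_mem _ (Finset.mem_univ g)
    rw [Finset.sum_congr rfl h1, ← map_sum, ← Finset.sum_mul, ← Finset.sum_mul]
    have h2 : (∑ g : G, (ρ g : Module.End (ZMod (p ^ K)) W)) * v * ε = 0 := by
      rw [← he0ε, ← mul_assoc, mul_assoc _ (v : Module.End (ZMod (p ^ K)) W) e0, hve.eq, ← mul_assoc, hG, zero_mul,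
        zero_mul]
    rw [h2, map_zero]
  have hSaε : S a ε = 0 := by
    rw [← hSall]
    symm
    apply Finset.sum_eq_single a
    · intro b _ hba
      rcases Nat.lt_or_gt_of_ne hba with h | h
      · exact hSii b h
      · exact hSiii b h
    · intro ha'
      simp only [hS]
      apply Finset.sum_eq_zero
      intro g _
      rw [if_neg]
      intro hg
      exact ha' (Finset.mem_image.mpr ⟨g, Finset.mem_univ g, hg⟩)
  have hfinal : S a e0 = S a (e0 - ε) + S a ε := by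
    simp only [hS]
    rw [← Finset.sum_add_distrib]
    apply Finset.sum_congr rfl
    intro g _
    split_ifs
    · rw [← map_add, ← mul_add, sub_add_cancel]
    · rw [add_zero]
  show S a e0 = 0
  rw [hfinal, hSi, hSaε, add_zero]

end Pool.Agent.Helper495_PQ
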