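import Mathlib
import Pool.Agent.Helper495_PQ.PC3
import Pool.Agent.Helper495_SP.J16
set_option autoImplicit false
namespace Pool.Agent.Helper495_PQ
open Pool.Agent.Helper495_SP (trace_formula)

theorem sum_zero_mod {p : ℕ} [Fact p.Prime] (K a : ℕ) (hK : 1 ≤ K) (ha : 1 ≤ a)
    {G : Type} [Group G] [Fintype G] (e v : MonoidAlgebra (ZMod (p ^ K)) G) (he : e * e = e)
    (hev : Commute e v)
    (haug : MonoidAlgebra.lift (ZMod (p ^ K)) (ZMod (p ^ K)) G (1 : G →* ZMod (p ^ K)) e = 0)
    (hvp : v ^ p ^ a = 1) :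
    (Fintype.card G : ZMod (p ^ K)) *
      (∑ g : G, if (orderOf g).factorization p = a then (v * e).coeff g else 0) = 0 := by
  classical
  have : NeZero (p ^ K) := ⟨(pow_pos (Fact.out : p.Prime).pos K).ne'⟩
  have : Finite (MonoidAlgebra (ZMod (p ^ K)) G) :=
    Finite.of_equiv _ (MonoidAlgebra.coeffEquiv (R := ZMod (p ^ K)) (M := G)).symm
  -- the representation
  obtain ⟨ρ, hρ⟩ : ∃ ρ : G →* (Module.End (ZMod (p ^ K)) (MonoidAlgebra (ZMod (p ^ K)) G))ˣ,
      ∀ g x, ((ρ g : (Module.End (ZMod (p ^ K)) (MonoidAlgebra (ZMod (p ^ K)) G))ˣ) :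
        Module.End (ZMod (p ^ K)) (MonoidAlgebra (ZMod (p ^ K)) G)) x =
          MonoidAlgebra.single g (1 : ZMod (p ^ K)) * x := by
    refine ⟨MonoidHom.toHomUnits (((Algebra.lmul (ZMod (p ^ K))
      (MonoidAlgebra (ZMod (p ^ K)) G)) : _ →* _).comp (MonoidAlgebra.of (ZMod (p ^ K)) G)),
      fun g x => rfl⟩
  have hρinv : ∀ g x, (((ρ g)⁻¹ : (Module.End (ZMod (p ^ K)) (MonoidAlgebra (ZMod (p ^ K)) G))ˣ) :
        Module.End (ZMod (p ^ K)) (MonoidAlgebra (ZMod (p ^ K)) G)) x =
          MonoidAlgebra.single g⁻¹ (1 : ZMod (p ^ K)) * x := by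
    intro g x
    rw [← map_inv, hρ]
  have hne : p ^ a ≠ 0 := (pow_pos (Fact.out : p.Prime).pos a).ne'
  have hvpow : (LinearMap.mulRight (ZMod (p ^ K)) v :
      Module.End (ZMod (p ^ K)) (MonoidAlgebra (ZMod (p ^ K)) G)) ^ p ^ a = 1 := by
    rw [LinearMap.pow_mulRight, hvp]
    ext x
    simp
  obtain ⟨V, hV⟩ : ∃ V : (Module.End (ZMod (p ^ K)) (MonoidAlgebra (ZMod (p ^ K)) G))ˣ,
      (V : Module.End (ZMod (p ^ K)) (MonoidAlgebra (ZMod (p ^ K)) G)) =
        LinearMap.mulRight (ZMod (p ^ K)) v := ⟨Units.ofPowEqOne _ _ hvpow hne, rfl⟩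
  have hsum1 : ∀ x : MonoidAlgebra (ZMod (p ^ K)) G,
      ∑ g : G, MonoidAlgebra.single g (x.coeff g) = x := by
    intro x
    ext k
    rw [MonoidAlgebra.coeff_sum, Finsupp.finsetSum_apply, Finset.sum_eq_single k]
    · simp
    · intro b _ hb
      simp [hb]
    · intro h; exact absurd (Finset.mem_univ _) h
  have hcoeff : ∀ (g k : G) (x : MonoidAlgebra (ZMod (p ^ K)) G),
      (MonoidAlgebra.single g (1 : ZMod (p ^ K)) * x).coeff k = x.coeff (g⁻¹ * k) := by
    intro g k x
    rw [MonoidAlgebra.coeff_single_mul_eq_mul_coeff (g⁻¹ * k), one_mul]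
    intro m' _
    constructor
    · intro h; rw [← h]; group
    · intro h; rw [h]; group
  have haugx : ∀ x : MonoidAlgebra (ZMod (p ^ K)) G,
      MonoidAlgebra.lift (ZMod (p ^ K)) (ZMod (p ^ K)) G (1 : G →* ZMod (p ^ K)) x =
        ∑ g : G, x.coeff g := by
    intro x
    rw [MonoidAlgebra.lift_apply, Finsupp.sum_fintype _ _ (by simp)]
    simp
  have hs : ∀ x : MonoidAlgebra (ZMod (p ^ K)) G,
      (∑ g : G, MonoidAlgebra.single g (1 : ZMod (p ^ K))) * x =
      (∑ g : G, x.coeff g) • ∑ g : G, MonoidAlgebra.single g (1 : ZMod (p ^ K)) := by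
    intro x
    ext k
    rw [Finset.sum_mul, MonoidAlgebra.coeff_sum, Finsupp.finsetSum_apply]
    simp only [hcoeff]
    rw [MonoidAlgebra.coeff_smul_apply, MonoidAlgebra.coeff_sum, Finsupp.finsetSum_apply]
    have e1 : ∑ g : G, (MonoidAlgebra.single g (1 : ZMod (p ^ K))).coeff k = 1 := by
      rw [Finset.sum_eq_single k]
      · simp
      · intro b _ hb
        simp [hb]
      · intro h; exact absurd (Finset.mem_univ _) h
    rw [e1, smul_eq_mul, mul_one]
    exact Fintype.sum_equiv ((Equiv.inv G).trans (Equiv.mulRight k)) _ _ (fun g => by simp)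
  have hGT := trace_GT K a hK ha ρ V (by
      intro g
      rw [Commute, SemiconjBy, ← Units.val_inj, Units.val_mul, Units.val_mul, hV]
      refine LinearMap.ext fun x => ?_
      show (ρ g : Module.End (ZMod (p ^ K)) (MonoidAlgebra (ZMod (p ^ K)) G)) (x * v) = _
      rw [hρ]
      show _ = ((ρ g : Module.End (ZMod (p ^ K)) (MonoidAlgebra (ZMod (p ^ K)) G)) x) * v
      rw [hρ, mul_assoc]) (by
      rw [← Units.val_inj, Units.val_pow_eq_pow_val, hV, hvpow, Units.val_one])
    { toFun := fun m => MonoidAlgebra.single 1 (m.coeff 1)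
      map_add' := fun x y => by
        rw [MonoidAlgebra.coeff_add, Finsupp.add_apply]
        ext k
        simp [Finsupp.single_apply]
      map_smul' := fun r x => by
        rw [MonoidAlgebra.coeff_smul_apply]
        simp } (by
      refine LinearMap.ext fun x => ?_
      rw [LinearMap.sum_apply]
      have : ∀ g : G, ((ρ g : Module.End (ZMod (p ^ K)) (MonoidAlgebra (ZMod (p ^ K)) G)) *
          ({ toFun := fun m => MonoidAlgebra.single 1 (m.coeff 1)
             map_add' := fun x y => by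
              rw [MonoidAlgebra.coeff_add, Finsupp.add_apply]
              ext k
              simp [Finsupp.single_apply]
             map_smul' := fun r x => by
              rw [MonoidAlgebra.coeff_smul_apply]
              simp } : Module.End (ZMod (p ^ K)) (MonoidAlgebra (ZMod (p ^ K)) G)) *
          (((ρ g)⁻¹ : (Module.End (ZMod (p ^ K)) (MonoidAlgebra (ZMod (p ^ K)) G))ˣ) :
            Module.End (ZMod (p ^ K)) (MonoidAlgebra (ZMod (p ^ K)) G))) x =
          MonoidAlgebra.single g (x.coeff g) := by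
        intro g
        show (ρ g : Module.End (ZMod (p ^ K)) (MonoidAlgebra (ZMod (p ^ K)) G))
          (MonoidAlgebra.single 1 (((((ρ g)⁻¹ :
            (Module.End (ZMod (p ^ K)) (MonoidAlgebra (ZMod (p ^ K)) G))ˣ) :
            Module.End (ZMod (p ^ K)) (MonoidAlgebra (ZMod (p ^ K)) G)) x).coeff 1)) = _
        rw [hρ, hρinv, hcoeff, MonoidAlgebra.single_mul_single]
        simp
      simp only [this]
      exact hsum1 x)
    (LinearMap.mulRight (ZMod (p ^ K)) e) (by
      refine LinearMap.ext fun x => ?_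
      show x * e * e = x * e
      rw [mul_assoc, he]) (by
      intro g
      refine LinearMap.ext fun x => ?_
      show (ρ g : Module.End (ZMod (p ^ K)) (MonoidAlgebra (ZMod (p ^ K)) G)) (x * e) =
        ((ρ g : Module.End (ZMod (p ^ K)) (MonoidAlgebra (ZMod (p ^ K)) G)) x) * e
      rw [hρ, hρ, mul_assoc]) (by
      rw [hV]
      refine LinearMap.ext fun x => ?_
      show x * e * v = x * v * e
      rw [mul_assoc, mul_assoc, hev.eq]) (by
      refine LinearMap.ext fun x => ?_
      show (∑ g : G, (ρ g : Module.End (ZMod (p ^ K)) (MonoidAlgebra (ZMod (p ^ K)) G))) (x * e) = 0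
      rw [LinearMap.sum_apply]
      simp only [hρ]
      rw [← Finset.sum_mul, hs, ← haugx, map_mul, haug, mul_zero, zero_smul])
  have hterm : ∀ g : G, LinearMap.trace (ZMod (p ^ K)) (MonoidAlgebra (ZMod (p ^ K)) G)
      ((ρ g : Module.End (ZMod (p ^ K)) (MonoidAlgebra (ZMod (p ^ K)) G)) *
        (V : Module.End (ZMod (p ^ K)) (MonoidAlgebra (ZMod (p ^ K)) G)) *
        LinearMap.mulRight (ZMod (p ^ K)) e) = ∑ m : G, (v * e).coeff (m⁻¹ * g⁻¹ * m) := by
    intro g
    rw [← trace_formula g⁻¹ (v * e)]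
    congr 1
    refine LinearMap.ext fun x => ?_
    rw [hV]
    show (ρ g : Module.End (ZMod (p ^ K)) (MonoidAlgebra (ZMod (p ^ K)) G)) (x * e * v) =
      MonoidAlgebra.single g⁻¹⁻¹ 1 * (x * (v * e))
    rw [hρ, inv_inv, mul_assoc x e v, hev.eq]
  simp only [hterm] at hGT
  refine Eq.trans ?_ hGT
  have h1 : ∀ g : G, (if (orderOf g).factorization p = a then
      ∑ m : G, (v * e).coeff (m⁻¹ * g⁻¹ * m) else 0) =
      ∑ m : G, (if (orderOf g).factorization p = a then (v * e).coeff (m⁻¹ * g⁻¹ * m) else 0) := by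
    intro g
    split_ifs
    · rfl
    · simp
  simp only [h1]
  rw [Finset.sum_comm]
  have h2 : ∀ m : G, ∑ g : G, (if (orderOf g).factorization p = a then
      (v * e).coeff (m⁻¹ * g⁻¹ * m) else 0) =
      ∑ g : G, (if (orderOf g).factorization p = a then (v * e).coeff g else 0) := by
    intro m
    refine Fintype.sum_equiv ((Equiv.inv G).trans (MulAut.conj m⁻¹).toEquiv) _ _ (fun g => ?_)
    have e2 : ((Equiv.inv G).trans (MulAut.conj m⁻¹).toEquiv) g = m⁻¹ * g⁻¹ * m := by
      simp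
    rw [e2]
    have e3 : orderOf (m⁻¹ * g⁻¹ * m) = orderOf g := by
      have := orderOf_injective (MulAut.conj m⁻¹).toMonoidHom (MulAut.conj m⁻¹).injective g⁻¹
      rw [orderOf_inv] at this
      rw [← this]
      simp
    rw [e3]
  simp only [h2]
  rw [Finset.sum_const, Finset.card_univ, nsmul_eq_mul]

end Pool.Agent.Helper495_PQ
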