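import Mathlib
import Pool.Agent.Helper495_PQ.PC4
set_option autoImplicit false
namespace Pool.Agent.Helper495_PQ

theorem sum_zero_all {p : ℕ} [Fact p.Prime] (a : ℕ) (ha : 1 ≤ a)
    {G : Type} [Group G] [Fintype G] (e v : MonoidAlgebra ℤ_[p] G) (he : e * e = e)
    (hev : Commute e v)
    (haug : MonoidAlgebra.lift ℤ_[p] ℤ_[p] G (1 : G →* ℤ_[p]) e = 0)
    (hvp : v ^ p ^ a = 1) :
    (∑ g : G, if (orderOf g).factorization p = a then (v * e).coeff g else 0) = 0 := by
  classical
  have key : ∀ K : ℕ, 1 ≤ K → PadicInt.toZModPow K ((Fintype.card G : ℤ_[p]) *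
      (∑ g : G, if (orderOf g).factorization p = a then (v * e).coeff g else 0)) = 0 := by
    intro K hK
    let f : ℤ_[p] →+* ZMod (p ^ K) := PadicInt.toZModPow K
    let F : MonoidAlgebra ℤ_[p] G →+* MonoidAlgebra (ZMod (p ^ K)) G := MonoidAlgebra.mapRingHom G f
    have hcoef : ∀ (x : MonoidAlgebra ℤ_[p] G) (g : G), (F x).coeff g = f (x.coeff g) := by
      intro x g
      simp [F]
    have h1 := sum_zero_mod K a hK ha (F e) (F v) (by rw [← map_mul, he])
      (hev.map F) (by
        have h2 : ∀ x : MonoidAlgebra ℤ_[p] G,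
            MonoidAlgebra.lift (ZMod (p ^ K)) (ZMod (p ^ K)) G (1 : G →* ZMod (p ^ K)) (F x) =
            f (MonoidAlgebra.lift ℤ_[p] ℤ_[p] G (1 : G →* ℤ_[p]) x) := by
          intro x
          rw [MonoidAlgebra.lift_apply, MonoidAlgebra.lift_apply, Finsupp.sum_fintype _ _ (by simp),
            Finsupp.sum_fintype _ _ (by simp), map_sum]
          refine Finset.sum_congr rfl fun g _ => ?_
          rw [hcoef]
          simp
        rw [h2, haug, map_zero]) (by rw [← map_pow, hvp, map_one])
    rw [← map_mul] at h1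
    show f _ = 0
    rw [map_mul, map_natCast, map_sum, ← h1]
    congr 1
    refine Finset.sum_congr rfl fun g _ => ?_
    rw [hcoef]
    split_ifs
    · rfl
    · rw [map_zero]
  have h0 : (Fintype.card G : ℤ_[p]) *
      (∑ g : G, if (orderOf g).factorization p = a then (v * e).coeff g else 0) = 0 := by
    apply PadicInt.ext_of_toZModPow.1
    intro K
    rw [map_zero]
    rcases Nat.eq_zero_or_pos K with h | h
    · subst h
      have : Subsingleton (ZMod (p ^ 0)) := by rw [pow_zero]; infer_instance
      exact Subsingleton.elim _ _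
    · exact key K h
  rcases mul_eq_zero.1 h0 with h | h
  · exfalso
    have : (Fintype.card G : ℤ_[p]) ≠ 0 := by exact_mod_cast Fintype.card_ne_zero
    exact this h
  · exact h

end Pool.Agent.Helper495_PQ
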