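import Mathlib
import Pool.Agent.Helper495_PQ.PC5
import Pool.Agent.Helper495_SP.J24
import Pool.Agent.Helper495_SP.J04d
set_option autoImplicit false
namespace Pool.Agent.Helper495_PQ
open Pool.Agent.Helper495_SP

/-- a normalised unit of order `p ^ a * q` forces an element of the group of this order -/
theorem order_pa_q {G : Type} [Group G] [Finite G] (p q a : ℕ) (hp : p.Prime) (hq : q.Prime)
    (hpq : p ≠ q) (ha : 1 ≤ a) (u : (MonoidAlgebra ℤ G)ˣ)
    (haug : MonoidAlgebra.lift ℤ ℤ G (1 : G →* ℤ) (u : MonoidAlgebra ℤ G) = 1)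
    (hu : orderOf u = p ^ a * q) : ∃ g : G, orderOf g = p ^ a * q := by
  classical
  have : Fintype G := Fintype.ofFinite G
  have : Fact p.Prime := ⟨hp⟩
  refine finish p q a hp hq hpq ha ?_ u haug hu
  intro v w hvw hv hw _ haugw
  exact key_of_sum_zero a q hq hpq (fun e v he hev h hvp => sum_zero_all a ha e v he hev h hvp)
    v w hvw hv hw haugw

end Pool.Agent.Helper495_PQ
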